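import Pool.Agent.H79.FP.Fin

/-!
# Module CI [H79 FP]: free products of families
-/

set_option autoImplicit false

open scoped Classical

namespace Pool.Agent.H79.FP

open Monoid

universe u v

variable {ι : Type u} (G : ι → Type v) [∀ i, Group (G i)] (i₀ : ι)

/-- The factors different from `i₀`. -/
abbrev Rest : {k : ι // k ≠ i₀} → Type v := fun k => G k.1

/-- The map to the binary free product on one factor. -/
noncomputable def toF (k : ι) : G k →* Coprod (G i₀) (CoprodI (Rest G i₀)) :=
  if h : k = i₀ then h ▸ (Coprod.inl : G i₀ →* Coprod (G i₀) (CoprodI (Rest G i₀)))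
  else (Coprod.inr).comp (CoprodI.of (M := Rest G i₀) (i := ⟨k, h⟩))

theorem toF_self : toF G i₀ i₀ = Coprod.inl := by
  unfold toF
  rw [dif_pos rfl]

theorem toF_ne {k : ι} (h : k ≠ i₀) :
    toF G i₀ k = (Coprod.inr).comp (CoprodI.of (M := Rest G i₀) (i := ⟨k, h⟩)) := by
  unfold toF
  rw [dif_neg h]

/-- The map to the binary free product. -/
noncomputable def toC : CoprodI G →* Coprod (G i₀) (CoprodI (Rest G i₀)) :=
  CoprodI.lift (toF G i₀)

/-- The inverse map. -/
noncomputable def ofC : Coprod (G i₀) (CoprodI (Rest G i₀)) →* CoprodI G :=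
  Coprod.lift (CoprodI.of (M := G) (i := i₀))
    (CoprodI.lift (fun k : {k : ι // k ≠ i₀} => CoprodI.of (M := G) (i := k.1)))

/-- The free product of a family is the free product of one factor and the rest. -/
noncomputable def splitOne : CoprodI G ≃* Coprod (G i₀) (CoprodI (Rest G i₀)) :=
  MonoidHom.toMulEquiv (toC G i₀) (ofC G i₀)
    (by
      refine CoprodI.ext_hom _ _ (fun k => ?_)
      ext x
      simp only [MonoidHom.comp_apply, MonoidHom.id_apply, toC, CoprodI.lift_of]
      by_cases h : k = i₀
      · subst h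
        rw [toF_self]
        simp [ofC]
      · rw [toF_ne G i₀ h]
        simp [ofC])
    (by
      refine Coprod.hom_ext ?_ ?_
      · ext x
        simp [ofC, toC, toF_self]
      · refine CoprodI.ext_hom _ _ (fun k => ?_)
        ext x
        simp only [MonoidHom.comp_apply, MonoidHom.id_apply, ofC, toC, Coprod.lift_apply_inr,
          CoprodI.lift_of]
        rw [toF_ne G i₀ k.2]
        rfl)

theorem hasP_coprodI {i j : ι} (hij : i ≠ j) [Nontrivial (G i)] [Nontrivial (G j)] :
    HasP (CoprodI G) := by
  have h1 : Nontrivial (CoprodI (Rest G i)) :=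
    (CoprodI.of_injective (M := Rest G i) ⟨j, hij.symm⟩).nontrivial
  exact HasP.of_equiv (splitOne G i).symm (hasP_coprod _ _)

end Pool.Agent.H79.FP
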