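import Mathlib

/-!
# Module MATCH [H79 FP]: a bijection avoiding one pair (Mathlib only)

PROOF of `match_avoid`. `e : s ≃ t` (`Finset.equivOfCardEq`). If no `a ∈ s` has `bad a (e a)` take
`M a b := ∃ h : a ∈ s, (e ⟨a, h⟩ : β) = b`. Otherwise let `bad a₀ (e a₀)`; choose `a₁ ∈ s`, `a₁ ≠ a₀`
(`2 ≤ |s|`, `Finset.one_lt_card`), and compose `e` with `Equiv.swap a₀ a₁` on the left: the new `e'`
has `e' a₀ = e a₁ ≠ e a₀`, `e' a₁ = e a₀`, so neither `(a₀, e' a₀)` nor `(a₁, e' a₁)` is the bad pair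
`(a₀, e a₀)`, and the others are unchanged (and are not bad since the bad pair is unique).
-/

set_option autoImplicit false

open scoped Classical

namespace Pool.Agent.H79.FP

private theorem of_equiv {α β : Type*} {s : Finset α} {t : Finset β} (bad : α → β → Prop)
    (e : s ≃ t) (he : ∀ a : s, ¬ bad a (e a)) :
    ∃ M : α → β → Prop, (∀ a b, M a b → a ∈ s ∧ b ∈ t ∧ ¬ bad a b) ∧
      (∀ a ∈ s, ∃! b, M a b) ∧ (∀ b ∈ t, ∃! a, M a b) := by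
  refine ⟨fun a b => ∃ h : a ∈ s, ((e ⟨a, h⟩ : t) : β) = b, ?_, ?_, ?_⟩
  · rintro a b ⟨h, rfl⟩
    exact ⟨h, (e ⟨a, h⟩).2, he ⟨a, h⟩⟩
  · intro a h
    refine ⟨((e ⟨a, h⟩ : t) : β), ⟨h, rfl⟩, ?_⟩
    rintro b ⟨_, hb⟩
    exact hb.symm
  · intro b h
    refine ⟨((e.symm ⟨b, h⟩ : s) : α), ⟨(e.symm ⟨b, h⟩).2, ?_⟩, ?_⟩
    · simp
    · rintro a ⟨ha, hb⟩
      have h1 : e ⟨a, ha⟩ = ⟨b, h⟩ := Subtype.ext hb
      rw [← h1, Equiv.symm_apply_apply]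

theorem match_avoid {α β : Type*} (s : Finset α) (t : Finset β) (hst : s.card = t.card)
    (h2 : 2 ≤ s.card) (bad : α → β → Prop)
    (hb : ∀ a b a' b', bad a b → bad a' b' → a = a' ∧ b = b') :
    ∃ M : α → β → Prop, (∀ a b, M a b → a ∈ s ∧ b ∈ t ∧ ¬ bad a b) ∧
      (∀ a ∈ s, ∃! b, M a b) ∧ (∀ b ∈ t, ∃! a, M a b) := by
  have e : s ≃ t := Finset.equivOfCardEq hst
  by_cases h : ∀ a : s, ¬ bad a (e a)
  · exact of_equiv bad e h
  · push Not at h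
    obtain ⟨a₀, ha₀⟩ := h
    obtain ⟨a₁, ha₁, hne⟩ := Finset.exists_mem_ne (Finset.one_lt_card.2 (by
      obtain ⟨x, hx, y, hy, hxy⟩ := Finset.one_lt_card.1 h2
      exact ⟨x, hx, y, hy, hxy⟩)) (a₀ : α)
    have hne' : a₀ ≠ ⟨a₁, ha₁⟩ := fun h => hne (congrArg Subtype.val h).symm
    refine of_equiv bad ((Equiv.swap a₀ ⟨a₁, ha₁⟩).trans e) fun a hbad => ?_
    obtain ⟨h3, h4⟩ := hb _ _ _ _ ha₀ hbad
    have h5 : a₀ = a := Subtype.ext h3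
    subst h5
    rw [Equiv.trans_apply, Equiv.swap_apply_left] at h4
    exact hne' (e.injective (Subtype.ext h4))

end Pool.Agent.H79.FP
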