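import Pool.Agent.H79.FP.Count
import Pool.Agent.H79.FP.Match

/-!
# Module CELL [H79 FP]: the matching in a cell

PROOF. `s = UL X c`, `t = image of the inverses of S.dual.UL X' c⁻¹` (`Finset.map`, same card;
`τ ∈ t ↔ τ⁻¹ ∈ S.dual.UL X' c⁻¹`, `mem_map_inv`). `match_avoid` with
`bad σ τ := σ ∈ s ∧ τ ∈ t ∧ ¬ Sq σ c τ`. Membership in `UL` gives `σ ∈ Th`, `CL σ c`, resp.
`τ ∈ Th`, `CR c τ` (from `S.dual.CL τ⁻¹ c⁻¹`, `dual_CL`). `bad` is unique by `nonsq_unique`. `count_UL`.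
-/

set_option autoImplicit false

open scoped Classical

namespace Pool.Agent.H79.FP

namespace Sys

variable {Γ : Type*} [Group Γ] (S : Sys Γ)

theorem cell {j k : Γ → Option Γ} {n : ℕ} (hG : S.Good j k n) {c : Γ}
    (hc : S.len c + S.L = n) :
    ∃ M : Γ → Γ → Prop,
      (∀ σ τ, M σ τ → σ ∈ S.UL (S.XX j k) c ∧ τ⁻¹ ∈ S.dual.UL (S.dual.XX k j) c⁻¹ ∧
        S.Sq σ c τ) ∧
      (∀ σ ∈ S.UL (S.XX j k) c, ∃! τ, M σ τ) ∧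
      (∀ τ, τ⁻¹ ∈ S.dual.UL (S.dual.XX k j) c⁻¹ → ∃! σ, M σ τ) := by
  obtain ⟨h1, h2⟩ := S.count_UL hG hc
  have hs : ∀ σ ∈ S.UL (S.XX j k) c, σ ∈ S.Th ∧ S.CL σ c := by
    intro σ hσ
    unfold UL at hσ
    rw [Finset.mem_filter] at hσ
    exact ⟨hσ.1, hσ.2.1⟩
  have ht : ∀ τ, τ⁻¹ ∈ S.dual.UL (S.dual.XX k j) c⁻¹ → τ ∈ S.Th ∧ S.CR c τ := by
    intro τ hτ
    unfold UL at hτ
    rw [Finset.mem_filter] at hτ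
    exact ⟨S.inv_mem_dual_Th.1 hτ.1, S.dual_CL.1 hτ.2.1⟩
  obtain ⟨M, hM1, hM2, hM3⟩ := match_avoid (S.UL (S.XX j k) c)
    ((S.dual.UL (S.dual.XX k j) c⁻¹).map (Equiv.inv Γ).toEmbedding)
    (by rw [Finset.card_map, h1]) h2
    (fun σ τ => σ ∈ S.UL (S.XX j k) c ∧ τ⁻¹ ∈ S.dual.UL (S.dual.XX k j) c⁻¹ ∧ ¬ S.Sq σ c τ)
    (by
      rintro a b a' b' ⟨ha, hb, hab⟩ ⟨ha', hb', hab'⟩
      exact S.nonsq_unique (hs a ha).1 (ht b hb).1 (hs a' ha').1 (ht b' hb').1 (hs a ha).2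
        (ht b hb).2 hab (hs a' ha').2 (ht b' hb').2 hab')
  refine ⟨M, ?_, hM2, ?_⟩
  · intro σ τ h
    obtain ⟨h3, h4, h5⟩ := hM1 σ τ h
    rw [mem_map_inv] at h4
    refine ⟨h3, h4, ?_⟩
    by_contra h6
    exact h5 ⟨h3, h4, h6⟩
  · intro τ hτ
    exact hM3 τ (mem_map_inv.2 hτ)

end Sys

end Pool.Agent.H79.FP
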