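import Pool.Agent.H79.FP.Leaf

/-!
# Module CHILD [H79 FP]: children among the non-children of a row

Notation: `S.p` is twice the Gromov product; `S.pe`, `S.p_comm`, `S.p_hyp`, `S.p_pos` (Defs),
`S.Rc_iff`, `S.Lc_iff`, `S.CR_iff`, `S.p_th2 ... p_th4'`, `S.leafR_unique` (Leaf).

PROOF of `lemB`. Write `v = z t`, `t ∈ E`, `Rc τ' v`, so `p v⁻¹ τ'⁻¹ = 2L > 0`. `t⁻¹ ∈ W`, so
`p t⁻¹ τ'⁻¹ = 0` (th4), hence `p t⁻¹ v⁻¹ = 0` (else `p t⁻¹ τ'⁻¹ > 0` by `p_pos`). By `pe` (with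
`(t⁻¹)⁻¹ * v⁻¹ = z⁻¹`) this is `|z| = |t| + |v|`. Now let `p z⁻¹ τ > 0` (this is `¬ CR z τ`).
`p t z⁻¹ = |t| + |z| - |t⁻¹ z⁻¹| = |t| + |z| - |v| = 2|t|`. If `|t| > 0` then `p t τ > 0`,
contradicting th4 for `t`. If `|t| = 0`: `p (t τ'⁻¹) z⁻¹ = |t τ'⁻¹| + |z| - |τ' t⁻¹ z⁻¹|` and
`|τ' t⁻¹ z⁻¹| = |z t τ'⁻¹| = |v| - L = |z| - L`, so it is `≥ L > 0`, hence `p (t τ'⁻¹) τ > 0`: this
contradicts th4' for `g = t` (third item) if `t ≠ 1` and th3 if `t = 1`.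

PROOF of `a6` (not both `z t`, `z t'` right children, `t ≠ t'`). If `t ∈ E` then by `lemB` all
`CR z τ`, so `t' ∈ E` too (and symmetrically if `t' ∈ E`); if neither is in `E`, both are bad leaves
and `t = t'` (`leafR_unique`). So `t, t' ∈ E`. `v = z t`, `v' = z t'`, `g = t⁻¹ t' ∈ W`, `g ≠ 1`,
`v' = v g`; `Rc τ1 v`, `Rc τ2 v'`. th4: `p g τ1⁻¹ = 0` and `p v⁻¹ τ1⁻¹ = 2L > 0`, so `p g v⁻¹ = 0`,
i.e. (`pe`, `|g⁻¹ v⁻¹| = |v g| = |v'|`) `|v'| = |g| + |v|`. In the same way with `g⁻¹ = t'⁻¹ t`, `v'`,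
`τ2`: `|v| = |g| + |v'|`. So `|g| = 0`, `|v| = |v'|`. `v'⁻¹ = g⁻¹ v⁻¹` and
`p (g⁻¹ v⁻¹) (g⁻¹ τ1⁻¹) = |v'| + |g⁻¹ τ1⁻¹| - |v τ1⁻¹| ≥ |v| - (|v| - L) = L > 0`,
`p (g⁻¹ v⁻¹) τ2⁻¹ = 2L > 0`, so `p (g⁻¹ τ1⁻¹) τ2⁻¹ > 0`, contradicting th4' (second item) for `g⁻¹`.

PROOF of `a7i`. `v = z t`, `v' = z t'`. `|v|, |v'| ≥ L` (`Lc`). `p v v' = |v| + |v'| - |t⁻¹ t'|`.
If `t = t'` it is `2|v| > 0`. Otherwise at most one of them is in `Th` (two bad leaves are equal), so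
`|t⁻¹ t'| ≤ R + L < 2L` (`len_inv`, `len_mul`). So `p v v' > 0`; `p σ v = 2L > 0`,
`p σ' v' = 2L > 0`, hence `p σ σ' > 0` and `σ = σ'` by th2.

PROOF of `a7ii`. `v = z t` with `p σ v = 2L`; `v' = z t'` with `Rc τ' v'`. Need `p σ v' = 2L`
(`≤ 2L` is `p_le_left`, `|σ| = L`), so by `p_hyp` it is enough that `p v v' ≥ 2L`.
(1) `t' ∈ E`. By `lemB` (for `t'`) every `CR z τ`, so `t ∈ E`. `g = t'⁻¹ t ∈ W`, `v = v' g`;
`p g τ'⁻¹ = 0` (th4), `p v'⁻¹ τ'⁻¹ = 2L > 0`, so `p g v'⁻¹ = 0`, i.e. `|v| = |g| + |v'|`. Then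
`p v v' = |v| + |v'| - |t⁻¹ t'| = 2|v'| ≥ 2L` (`v⁻¹ v' = t⁻¹ t' = g⁻¹`, `|v'| ≥ L` as `Rc τ' v'`).
(2) `t' ∈ Th`, `¬ CR z t'`. Then `t ∈ E` (else `t = t'`). `p v'⁻¹ t'⁻¹ = |v'| + L - |z|`. If this
is `> 0` then `τ' = t'` by `headR_unique` and `Rc t' (z t')` says `|z| + L = |z t'|`, i.e. `CR z t'`,
a contradiction. So `|z| = |v'| + L` (`≤` by the triangle inequality). `p z v' = |z| + |v'| - |t'|
= 2|v'|`; `p z v = |z| + |v| - |t| ≥ 2|z| - 2R = 2|v'| + 2L - 2R ≥ 2|v'|` (`len_le_mul_E`). So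
`p v v' ≥ 2|v'| ≥ 2L`.
-/

set_option autoImplicit false

namespace Pool.Agent.H79.FP

namespace Sys

variable {Γ : Type*} [Group Γ] (S : Sys Γ)

theorem lemB {z t τ' τ : Γ} (ht : t ∈ S.E) (hτ' : τ' ∈ S.Th) (h : S.Rc τ' (z * t))
    (hτ : τ ∈ S.Th) : S.CR z τ := by
  have hLp := S.L_pos
  have h0 := (S.Rc_iff hτ').1 h
  have h1 := (S.p_th4 (S.InW_E_inv ht) hτ').2
  have h2 : S.p t⁻¹ (z * t)⁻¹ = 0 := by
    by_contra hc
    have h3 : 0 < S.p t⁻¹ τ'⁻¹ := S.p_pos (y := (z * t)⁻¹) (by omega) (by omega)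
    omega
  have h3 := S.pe t⁻¹ (z * t)⁻¹
  have e1 : (t⁻¹)⁻¹ * (z * t)⁻¹ = z⁻¹ := by group
  rw [e1, S.len_inv, S.len_inv, S.len_inv, h2] at h3
  by_contra hn
  rw [S.CR_iff hτ] at hn
  by_cases ht0 : S.len t = 0
  · have h4 := S.pe (t * τ'⁻¹) z⁻¹
    have e2 : (t * τ'⁻¹)⁻¹ * z⁻¹ = (z * t * τ'⁻¹)⁻¹ := by group
    rw [e2, S.len_inv, S.len_inv] at h4
    have h5 : S.len (z * t * τ'⁻¹) + S.L = S.len (z * t) := h
    have h6 : 0 < S.p (t * τ'⁻¹) τ := S.p_pos (y := z⁻¹) (by omega) (by omega)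
    by_cases h1t : t = 1
    · subst h1t
      rw [one_mul] at h6
      have := (S.p_th3 hτ' hτ).1
      omega
    · have := (S.p_th4' (S.InW_E ht) ht0 h1t hτ' hτ).2.2.1
      omega
  · have h4 := S.pe t z⁻¹
    have e2 : t⁻¹ * z⁻¹ = (z * t)⁻¹ := by group
    rw [e2, S.len_inv, S.len_inv] at h4
    have h5 : 0 < S.p t τ := S.p_pos (y := z⁻¹) (by omega) (by omega)
    have := (S.p_th4 (S.InW_E ht) hτ).1
    omega

/-- If `z a` is a right child and `a, b ∈ E` then `|z b| = |a⁻¹ b| + |z a|`. -/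
theorem len_of_Rc {z a b τ : Γ} (ha : a ∈ S.E) (hb : b ∈ S.E) (hτ : τ ∈ S.Th)
    (hr : S.Rc τ (z * a)) : S.len (z * b) = S.len (a⁻¹ * b) + S.len (z * a) := by
  have hLp := S.L_pos
  have h0 := (S.Rc_iff hτ).1 hr
  have h1 := (S.p_th4 (S.InW_inv_mul ha hb) hτ).2
  have h2 : S.p (a⁻¹ * b) (z * a)⁻¹ = 0 := by
    by_contra hc
    have h3 : 0 < S.p (a⁻¹ * b) τ⁻¹ := S.p_pos (y := (z * a)⁻¹) (by omega) (by omega)
    omega
  have h3 := S.pe (a⁻¹ * b) (z * a)⁻¹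
  have e : (a⁻¹ * b)⁻¹ * (z * a)⁻¹ = (z * b)⁻¹ := by group
  rw [e, S.len_inv, S.len_inv, h2] at h3
  omega

theorem a6 {z t t' : Γ} (hne : t ≠ t') (ht : S.TR z t) (ht' : S.TR z t') (h : S.IsR (z * t))
    (h' : S.IsR (z * t')) : False := by
  have hLp := S.L_pos
  obtain ⟨τ1, hτ1, hr1⟩ := h
  obtain ⟨τ2, hτ2, hr2⟩ := h'
  have hboth : t ∈ S.E ∧ t' ∈ S.E := by
    rcases ht with ht | ⟨ht, hn⟩
    · rcases ht' with ht' | ⟨ht', hn'⟩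
      · exact ⟨ht, ht'⟩
      · exact absurd (S.lemB ht hτ1 hr1 ht') hn'
    · rcases ht' with ht' | ⟨ht', hn'⟩
      · exact absurd (S.lemB ht' hτ2 hr2 ht) hn
      · exact absurd (S.leafR_unique ht ht' hn hn') hne
  obtain ⟨htE, htE'⟩ := hboth
  have k1 := S.len_of_Rc htE htE' hτ1 hr1
  have k2 := S.len_of_Rc htE' htE hτ2 hr2
  have hg0 : S.len (t'⁻¹ * t) = 0 := by omega
  have hv : S.len (z * t) = S.len (z * t') := by omega
  have hg1 : t'⁻¹ * t ≠ 1 := by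
    intro he
    exact hne (inv_mul_eq_one.1 he).symm
  have q1 := S.pe (z * t')⁻¹ (t'⁻¹ * t * τ1⁻¹)
  have e : ((z * t')⁻¹)⁻¹ * (t'⁻¹ * t * τ1⁻¹) = z * t * τ1⁻¹ := by group
  rw [e, S.len_inv] at q1
  have q2 : S.len (z * t * τ1⁻¹) + S.L = S.len (z * t) := hr1
  have q3 := (S.Rc_iff hτ2).1 hr2
  have q4 : 0 < S.p (t'⁻¹ * t * τ1⁻¹) τ2⁻¹ :=
    S.p_pos (y := (z * t')⁻¹) (by rw [S.p_comm]; omega) (by omega)
  have q5 := (S.p_th4' (S.InW_inv_mul htE' htE) hg0 hg1 hτ1 hτ2).2.1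
  omega

theorem a7i {z t t' σ σ' : Γ} (ht : S.TR z t) (ht' : S.TR z t') (hσ : σ ∈ S.Th)
    (hσ' : σ' ∈ S.Th) (h : S.Lc σ (z * t)) (h' : S.Lc σ' (z * t')) : σ = σ' := by
  have hLp := S.L_pos
  have h2R := S.two_R_lt
  have a1 : S.len (σ⁻¹ * (z * t)) + S.L = S.len (z * t) := h
  have a2 : S.len (σ'⁻¹ * (z * t')) + S.L = S.len (z * t') := h'
  have p1 := (S.Lc_iff hσ).1 h
  have p2 := (S.Lc_iff hσ').1 h'
  have p3 := S.pe (z * t) (z * t')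
  have e : (z * t)⁻¹ * (z * t') = t⁻¹ * t' := by group
  rw [e] at p3
  have hlt : S.len (t⁻¹ * t') < 2 * S.L := by
    have m := S.len_mul t⁻¹ t'
    rw [S.len_inv] at m
    rcases ht with ht | ⟨ht, hn⟩
    · have b1 := S.hE t ht
      rcases ht' with ht' | ⟨ht', hn'⟩
      · have b2 := S.hE t' ht'
        omega
      · have b2 := S.hTh t' ht'
        omega
    · have b1 := S.hTh t ht
      rcases ht' with ht' | ⟨ht', hn'⟩
      · have b2 := S.hE t' ht'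
        omega
      · have b2 := S.leafR_unique ht ht' hn hn'
        subst b2
        rw [inv_mul_cancel, S.len_one]
        omega
  have p4 : 0 < S.p (z * t) (z * t') := by omega
  have p5 : 0 < S.p σ (z * t') := S.p_pos (y := z * t) (by omega) p4
  exact S.headL_unique (v := z * t') hσ hσ' p5 (by omega)

theorem a7ii {z t t' σ : Γ} (hne : t ≠ t') (ht : S.TR z t) (ht' : S.TR z t') (hσ : σ ∈ S.Th)
    (h : S.Lc σ (z * t)) (h' : S.IsR (z * t')) : S.Lc σ (z * t') := by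
  obtain ⟨τ', hτ', hr⟩ := h'
  have hLp := S.L_pos
  have h2R := S.two_R_lt
  have p1 := (S.Lc_iff hσ).1 h
  have q0 : S.len (z * t' * τ'⁻¹) + S.L = S.len (z * t') := hr
  have q1 := (S.Rc_iff hτ').1 hr
  have main : 2 * S.L ≤ S.p (z * t) (z * t') := by
    have p3 := S.pe (z * t) (z * t')
    have e : (z * t)⁻¹ * (z * t') = t⁻¹ * t' := by group
    rw [e] at p3
    rcases ht' with ht'E | ⟨ht'T, hn'⟩
    · have htE : t ∈ S.E := by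
        rcases ht with ht | ⟨ht, hn⟩
        · exact ht
        · exact absurd (S.lemB ht'E hτ' hr ht) hn
      have w3 := S.len_of_Rc ht'E htE hτ' hr
      have w4 : S.len (t⁻¹ * t') = S.len (t'⁻¹ * t) := by
        rw [← S.len_inv (t⁻¹ * t')]
        congr 1
        group
      omega
    · have htE : t ∈ S.E := by
        rcases ht with ht | ⟨ht, hn⟩
        · exact ht
        · exact absurd (S.leafR_unique ht ht'T hn hn') hne
      have w1 := S.pe (z * t')⁻¹ t'⁻¹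
      rw [inv_inv, mul_inv_cancel_right, S.len_inv, S.len_inv, S.hTh t' ht'T] at w1
      have w2 : S.p (z * t')⁻¹ t'⁻¹ = 0 := by
        by_contra hc
        have w3 : τ' = t' := S.headR_unique (v := z * t') hτ' ht'T (by omega) (by omega)
        subst w3
        apply hn'
        rw [mul_inv_cancel_right] at q0
        exact q0.symm
      have w4 := S.pe z (z * t')
      rw [inv_mul_cancel_left, S.hTh t' ht'T] at w4
      have w5 := S.pe z (z * t)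
      rw [inv_mul_cancel_left] at w5
      have w6 := S.hE t htE
      have w7 := S.len_le_mul_E (z := z) htE
      exact S.p_hyp (y := z) (by rw [S.p_comm]; omega) (by omega)
  have fin1 : 2 * S.L ≤ S.p σ (z * t') := S.p_hyp (y := z * t) (by omega) main
  have fin2 := S.p_le_left σ (z * t')
  rw [S.hTh σ hσ] at fin2
  rw [S.Lc_iff hσ]
  omega

end Sys

end Pool.Agent.H79.FP
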