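import Mathlib

/-!
# Module DEFS [H79 FP]: tree-like lengths on groups and the combinatorics of two-sided tilings

Everything in this file is complete.  `Sys` collects a length function with an ultrametric Gromov
product (`gp` is TWICE the Gromov product), the given finite set `E` and the set `Th` of long
generic elements.  `T = E ∪ Th`.  The aim (module MAIN) is a set `X` such that for every `z` there
is exactly one `t ∈ T` with `z t ∈ X` and exactly one `t ∈ T` with `t z ∈ X`.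

`S.dual` replaces `E`, `Th` by `E⁻¹`, `Th⁻¹`.  Left-hand statements about `z` are right-hand
statements of `S.dual` about `z⁻¹`.  The choice of the left side is given in dual coordinates:
`k (y⁻¹) = some σ⁻¹` means that the element `σ y` is selected.
-/

set_option autoImplicit false

open scoped Classical

namespace Pool.Agent.H79.FP

/-- Twice the Gromov product at `1`. -/
def gp {Γ : Type*} [Group Γ] (len : Γ → ℕ) (x y : Γ) : ℕ := len x + len y - len (x⁻¹ * y)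

/-- The symmetric set `W = E ∪ E⁻¹ ∪ E⁻¹E ∪ EE⁻¹`. -/
def InW {Γ : Type*} [Group Γ] (E : Finset Γ) (g : Γ) : Prop :=
  g ∈ E ∨ g⁻¹ ∈ E ∨ (∃ e ∈ E, ∃ f ∈ E, g = e⁻¹ * f) ∨ (∃ e ∈ E, ∃ f ∈ E, g = e * f⁻¹)

/-- A tree-like length function with a finite set `E` and a finite set `Th` of generic elements. -/
structure Sys (Γ : Type*) [Group Γ] where
  len : Γ → ℕ
  E : Finset Γ
  Th : Finset Γ
  R : ℕ
  L : ℕ
  len_one : len 1 = 0
  len_inv : ∀ x, len x⁻¹ = len x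
  len_mul : ∀ x y, len (x * y) ≤ len x + len y
  hyp : ∀ x y z, gp len x y ≤ gp len x z ∨ gp len y z ≤ gp len x z
  hE : ∀ e ∈ E, len e ≤ R
  hTh : ∀ τ ∈ Th, len τ = L
  hL : 3 * R + 3 ≤ L
  th2 : ∀ σ ∈ Th, ∀ τ ∈ Th, σ ≠ τ → gp len σ τ = 0 ∧ gp len σ⁻¹ τ⁻¹ = 0
  th3 : ∀ σ ∈ Th, ∀ τ ∈ Th, gp len σ⁻¹ τ = 0 ∧ gp len σ τ⁻¹ = 0
  th4 : ∀ g, InW E g → ∀ τ ∈ Th, gp len g τ = 0 ∧ gp len g τ⁻¹ = 0
  th4' : ∀ g, InW E g → len g = 0 → g ≠ 1 → ∀ σ ∈ Th, ∀ τ ∈ Th,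
    gp len (g * σ) τ = 0 ∧ gp len (g * σ⁻¹) τ⁻¹ = 0 ∧ gp len (g * σ⁻¹) τ = 0 ∧
      gp len (g * σ) τ⁻¹ = 0
  th5 : ∀ z h, len z = 0 → len h = 0 → ∀ σ ∈ Th, ∀ τ ∈ Th, z * τ = σ * h → z = 1 ∧ h = 1
  th6 : ∀ c, len c = 0 → ∀ σ ∈ Th, ∀ τ ∈ Th, ∀ σ' ∈ Th, ∀ τ' ∈ Th,
    len (σ * c * τ) < 2 * L → len (σ' * c * τ') < 2 * L → σ = σ' ∧ τ = τ'
  card : 2 * (E.card ^ 2 + 2 * E.card) + E.card + 5 ≤ Th.card

namespace Sys

variable {Γ : Type*} [Group Γ] (S : Sys Γ)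

/-- Twice the Gromov product. -/
def p (x y : Γ) : ℕ := gp S.len x y

/-- The tile (inverted): `T = E ∪ Th`. -/
noncomputable def T : Finset Γ := S.E ∪ S.Th

/-- Bound for the number of backward conflicts. -/
def D : ℕ := S.E.card ^ 2 + 2 * S.E.card

/-- `z τ` is longer than `z` by `L`. -/
def CR (z τ : Γ) : Prop := S.len (z * τ) = S.len z + S.L

/-- `σ z` is longer than `z` by `L`. -/
def CL (σ z : Γ) : Prop := S.len (σ * z) = S.len z + S.L

/-- `v` is a right child via `τ` (of `v τ⁻¹`). -/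
def Rc (τ v : Γ) : Prop := S.len (v * τ⁻¹) + S.L = S.len v

/-- `v` is a left child via `σ` (of `σ⁻¹ v`). -/
def Lc (σ v : Γ) : Prop := S.len (σ⁻¹ * v) + S.L = S.len v

/-- `t ∈ T` and `z t` is not a right child of `z`. -/
def TR (z t : Γ) : Prop := t ∈ S.E ∨ (t ∈ S.Th ∧ ¬ S.CR z t)

/-- `t ∈ T` and `t z` is not a left child of `z`. -/
def TL (z t : Γ) : Prop := t ∈ S.E ∨ (t ∈ S.Th ∧ ¬ S.CL t z)

/-- `v` is a left child. -/
def IsL (v : Γ) : Prop := ∃ σ ∈ S.Th, S.Lc σ v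

/-- `v` is a right child. -/
def IsR (v : Γ) : Prop := ∃ τ ∈ S.Th, S.Rc τ v

/-- `σ c τ` is a square: no cancellation at all. -/
def Sq (σ c τ : Γ) : Prop := S.len (σ * c * τ) = S.len c + 2 * S.L

/-- The right child `z τ` of `z ≠ 1` is an exceptional (short) double child. -/
def Ex (z τ : Γ) : Prop :=
  z ≠ 1 ∧ S.CR z τ ∧ S.len (z * τ) < 2 * S.L ∧ S.IsL (z * τ)

/-- The right choices at `u` and `u'` must not both be `τ`: otherwise `u τ` and `u' τ` are two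
selected elements of the column of `w τ`. -/
def Conf (u u' τ : Γ) : Prop :=
  τ ∈ S.Th ∧ ∃ w t t' : Γ, t ≠ t' ∧ S.TL (w * τ) t ∧ S.TL (w * τ) t' ∧ u = t * w ∧ u' = t' * w ∧
    S.CR u τ ∧ S.CR u' τ

/-- The set selected by the right choice `j` and the left choice `k` (dual coordinates). -/
def XX (j k : Γ → Option Γ) : Set Γ :=
  {v | (∃ τ ∈ S.Th, S.Rc τ v ∧ j (v * τ⁻¹) = some τ) ∨
    (∃ σ ∈ S.Th, S.Lc σ v ∧ k (v⁻¹ * σ) = some σ⁻¹)}

/-- The number of elements of `X` in the row of `z` that are not right children of `z`. -/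
noncomputable def kap (X : Set Γ) (z : Γ) : ℕ :=
  (S.T.filter (fun t => S.TR z t ∧ z * t ∈ X)).card

/-- The left children `σ c` of `c` that still need a right choice. -/
noncomputable def UL (X : Set Γ) (c : Γ) : Finset Γ :=
  S.Th.filter (fun σ => S.CL σ c ∧ S.kap X (σ * c) = 0)

/-- The number of selected elements `t c t'` outside the squares. -/
noncomputable def N (X : Set Γ) (c : Γ) : ℕ :=
  ((S.T ×ˢ S.T).filter (fun q : Γ × Γ => q.1 * c * q.2 ∈ X ∧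
    ¬ (q.1 ∈ S.Th ∧ q.2 ∈ S.Th ∧ S.Sq q.1 c q.2))).card

/-- The conditions for the right choice `j` at the elements of length `< n`. -/
structure GoodR (j k : Γ → Option Γ) (n : ℕ) : Prop where
  val : ∀ z τ, S.len z < n → j z = some τ → τ ∈ S.Th ∧ S.CR z τ ∧ ¬ S.Ex z τ
  req : ∀ z, S.len z < n → (S.kap (S.XX j k) z = 0 ↔ j z ≠ none)
  conf : ∀ u u' τ, S.len u < n → S.len u' < n → S.Conf u u' τ → j u = some τ → j u' ≠ some τ

/-- The Gromov product and lengths. -/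
theorem pe (x y : Γ) : S.len (x⁻¹ * y) + S.p x y = S.len x + S.len y := by
  have h := S.len_mul x⁻¹ y
  rw [S.len_inv] at h
  unfold p gp
  omega

theorem p_comm (x y : Γ) : S.p x y = S.p y x := by
  have h : S.len (x⁻¹ * y) = S.len (y⁻¹ * x) := by
    rw [← S.len_inv (x⁻¹ * y)]
    simp
  have h1 := S.pe x y
  have h2 := S.pe y x
  omega

theorem p_le_left (x y : Γ) : S.p x y ≤ 2 * S.len x := by
  have h := S.len_mul x (x⁻¹ * y)
  rw [mul_inv_cancel_left] at h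
  have h1 := S.pe x y
  omega

theorem p_le_right (x y : Γ) : S.p x y ≤ 2 * S.len y := by
  rw [S.p_comm]
  exact S.p_le_left y x

/-- The ultrametric inequality: if `p x y` and `p y z` are both `≥ a` then `p x z ≥ a`. -/
theorem p_hyp {a : ℕ} {x y z : Γ} (h1 : a ≤ S.p x y) (h2 : a ≤ S.p y z) : a ≤ S.p x z := by
  rcases S.hyp x y z with h | h
  · exact h1.trans h
  · exact h2.trans h

theorem p_pos {x y z : Γ} (h1 : 0 < S.p x y) (h2 : 0 < S.p y z) : 0 < S.p x z :=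
  S.p_hyp h1 h2

theorem mem_T {t : Γ} : t ∈ S.T ↔ t ∈ S.E ∨ t ∈ S.Th := by
  simp [T]

theorem not_mem_Th_of_mem_E {t : Γ} (h : t ∈ S.E) : t ∉ S.Th := by
  intro h'
  have h1 := S.hE t h
  have h2 := S.hTh t h'
  have h3 := S.hL
  omega

end Sys

theorem mem_map_inv {Γ : Type*} [Group Γ] {E : Finset Γ} {x : Γ} :
    x ∈ E.map (Equiv.inv Γ).toEmbedding ↔ x⁻¹ ∈ E := by
  simp only [Finset.mem_map, Equiv.coe_toEmbedding, Equiv.inv_apply]
  constructor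
  · rintro ⟨y, hy, rfl⟩
    simpa using hy
  · intro h
    exact ⟨x⁻¹, h, by simp⟩

theorem inW_map_inv {Γ : Type*} [Group Γ] {E : Finset Γ} {g : Γ} :
    InW (E.map (Equiv.inv Γ).toEmbedding) g ↔ InW E g := by
  unfold InW
  simp only [mem_map_inv, inv_inv]
  constructor
  · rintro (h | h | ⟨e, he, f, hf, rfl⟩ | ⟨e, he, f, hf, rfl⟩)
    · exact Or.inr (Or.inl h)
    · exact Or.inl h
    · exact Or.inr (Or.inr (Or.inr ⟨e⁻¹, he, f⁻¹, hf, by simp⟩))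
    · exact Or.inr (Or.inr (Or.inl ⟨e⁻¹, he, f⁻¹, hf, by simp⟩))
  · rintro (h | h | ⟨e, he, f, hf, rfl⟩ | ⟨e, he, f, hf, rfl⟩)
    · exact Or.inr (Or.inl h)
    · exact Or.inl h
    · exact Or.inr (Or.inr (Or.inr ⟨e⁻¹, by simpa using he, f⁻¹, by simpa using hf, by simp⟩))
    · exact Or.inr (Or.inr (Or.inl ⟨e⁻¹, by simpa using he, f⁻¹, by simpa using hf, by simp⟩))

namespace Sys

variable {Γ : Type*} [Group Γ] (S : Sys Γ)

/-- The dual system. -/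
def dual : Sys Γ where
  len := S.len
  E := S.E.map (Equiv.inv Γ).toEmbedding
  Th := S.Th.map (Equiv.inv Γ).toEmbedding
  R := S.R
  L := S.L
  len_one := S.len_one
  len_inv := S.len_inv
  len_mul := S.len_mul
  hyp := S.hyp
  hE := by
    intro e he
    rw [← S.len_inv]
    exact S.hE _ (mem_map_inv.1 he)
  hTh := by
    intro e he
    rw [← S.len_inv]
    exact S.hTh _ (mem_map_inv.1 he)
  hL := S.hL
  th2 := by
    intro σ hσ τ hτ hne
    have h := S.th2 _ (mem_map_inv.1 hσ) _ (mem_map_inv.1 hτ) (by simpa using hne)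
    rw [inv_inv, inv_inv] at h
    exact ⟨h.2, h.1⟩
  th3 := by
    intro σ hσ τ hτ
    have h := S.th3 _ (mem_map_inv.1 hσ) _ (mem_map_inv.1 hτ)
    rw [inv_inv, inv_inv] at h
    exact ⟨h.2, h.1⟩
  th4 := by
    intro g hg τ hτ
    have h := S.th4 g (inW_map_inv.1 hg) _ (mem_map_inv.1 hτ)
    rw [inv_inv] at h
    exact ⟨h.2, h.1⟩
  th4' := by
    intro g hg h0 h1 σ hσ τ hτ
    obtain ⟨a, b, c, d⟩ :=
      S.th4' g (inW_map_inv.1 hg) h0 h1 _ (mem_map_inv.1 hσ) _ (mem_map_inv.1 hτ)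
    rw [inv_inv] at b c
    rw [inv_inv] at b d
    exact ⟨b, a, d, c⟩
  th5 := by
    intro z h hz hh σ hσ τ hτ he
    have h1 : h * τ⁻¹ = σ⁻¹ * z := by
      rw [eq_inv_mul_iff_mul_eq, ← mul_assoc, ← he]
      simp
    have h2 := S.th5 h z hh hz _ (mem_map_inv.1 hσ) _ (mem_map_inv.1 hτ) h1
    exact ⟨h2.2, h2.1⟩
  th6 := by
    intro c hc σ hσ τ hτ σ' hσ' τ' hτ' h1 h2
    have e : ∀ x y : Γ, S.len (y⁻¹ * c⁻¹ * x⁻¹) = S.len (x * c * y) := by
      intro x y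
      rw [← S.len_inv]
      congr 1
      group
    have h := S.th6 c⁻¹ (by rw [S.len_inv]; exact hc) _ (mem_map_inv.1 hτ) _ (mem_map_inv.1 hσ)
      _ (mem_map_inv.1 hτ') _ (mem_map_inv.1 hσ') (by rw [e]; exact h1) (by rw [e]; exact h2)
    exact ⟨inv_injective h.2, inv_injective h.1⟩
  card := by
    rw [Finset.card_map, Finset.card_map]
    exact S.card

theorem mem_dual_E {x : Γ} : x ∈ S.dual.E ↔ x⁻¹ ∈ S.E := mem_map_inv

theorem mem_dual_Th {x : Γ} : x ∈ S.dual.Th ↔ x⁻¹ ∈ S.Th := mem_map_inv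

theorem inv_mem_dual_E {x : Γ} : x⁻¹ ∈ S.dual.E ↔ x ∈ S.E := by
  rw [mem_dual_E, inv_inv]

theorem inv_mem_dual_Th {x : Γ} : x⁻¹ ∈ S.dual.Th ↔ x ∈ S.Th := by
  rw [mem_dual_Th, inv_inv]

theorem dual_len (x : Γ) : S.dual.len x = S.len x := rfl

theorem dual_L : S.dual.L = S.L := rfl

theorem dual_dual : S.dual.dual = S := by
  have h : ∀ E : Finset Γ,
      (E.map (Equiv.inv Γ).toEmbedding).map (Equiv.inv Γ).toEmbedding = E := by
    intro E
    ext x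
    rw [mem_map_inv, mem_map_inv, inv_inv]
  cases S
  simp only [dual, h]

/-- `CR` for the dual system is `CL`. -/
theorem dual_CR {z τ : Γ} : S.dual.CR z⁻¹ τ⁻¹ ↔ S.CL τ z := by
  unfold CR CL
  rw [dual_len, dual_len, dual_L, ← mul_inv_rev, S.len_inv, S.len_inv]

theorem dual_CL {σ z : Γ} : S.dual.CL σ⁻¹ z⁻¹ ↔ S.CR z σ := by
  unfold CR CL
  rw [dual_len, dual_len, dual_L, ← mul_inv_rev, S.len_inv, S.len_inv]

theorem dual_Rc {τ v : Γ} : S.dual.Rc τ⁻¹ v⁻¹ ↔ S.Lc τ v := by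
  unfold Rc Lc
  rw [dual_len, dual_len, dual_L, ← mul_inv_rev, S.len_inv, S.len_inv]

theorem dual_Lc {σ v : Γ} : S.dual.Lc σ⁻¹ v⁻¹ ↔ S.Rc σ v := by
  unfold Rc Lc
  rw [dual_len, dual_len, dual_L, ← mul_inv_rev, S.len_inv, S.len_inv]

theorem dual_TR {z t : Γ} : S.dual.TR z⁻¹ t⁻¹ ↔ S.TL z t := by
  unfold TR TL
  rw [inv_mem_dual_E, inv_mem_dual_Th, dual_CR]

theorem dual_TL {z t : Γ} : S.dual.TL z⁻¹ t⁻¹ ↔ S.TR z t := by
  unfold TR TL
  rw [inv_mem_dual_E, inv_mem_dual_Th, dual_CL]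

theorem dual_Sq {σ c τ : Γ} : S.dual.Sq τ⁻¹ c⁻¹ σ⁻¹ ↔ S.Sq σ c τ := by
  unfold Sq
  have h : τ⁻¹ * c⁻¹ * σ⁻¹ = (σ * c * τ)⁻¹ := by group
  rw [dual_len, dual_len, dual_L, h, S.len_inv, S.len_inv]

theorem dual_IsR {v : Γ} : S.dual.IsR v⁻¹ ↔ S.IsL v := by
  unfold IsR IsL
  constructor
  · rintro ⟨τ, h1, h2⟩
    refine ⟨τ⁻¹, S.mem_dual_Th.1 h1, S.dual_Rc.1 ?_⟩
    rw [inv_inv]
    exact h2
  · rintro ⟨τ, h1, h2⟩
    exact ⟨τ⁻¹, S.inv_mem_dual_Th.2 h1, S.dual_Rc.2 h2⟩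

theorem dual_IsL {v : Γ} : S.dual.IsL v⁻¹ ↔ S.IsR v := by
  have h := S.dual.dual_IsR (v := v⁻¹)
  rw [dual_dual, inv_inv] at h
  exact h.symm

theorem dual_XX {j k : Γ → Option Γ} {v : Γ} : v⁻¹ ∈ S.dual.XX k j ↔ v ∈ S.XX j k := by
  unfold XX
  simp only [Set.mem_ofPred_eq]
  constructor
  · rintro (⟨τ, h1, h2, h3⟩ | ⟨σ, h1, h2, h3⟩)
    · refine Or.inr ⟨τ⁻¹, S.mem_dual_Th.1 h1, ?_, ?_⟩
      · rw [← S.dual_Rc, inv_inv]
        exact h2
      · rw [inv_inv]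
        exact h3
    · refine Or.inl ⟨σ⁻¹, S.mem_dual_Th.1 h1, ?_, ?_⟩
      · rw [← S.dual_Lc, inv_inv]
        exact h2
      · rw [inv_inv] at h3 ⊢
        exact h3
  · rintro (⟨τ, h1, h2, h3⟩ | ⟨σ, h1, h2, h3⟩)
    · refine Or.inr ⟨τ⁻¹, S.inv_mem_dual_Th.2 h1, S.dual_Lc.2 h2, ?_⟩
      rw [inv_inv, inv_inv]
      exact h3
    · refine Or.inl ⟨σ⁻¹, S.inv_mem_dual_Th.2 h1, S.dual_Rc.2 h2, ?_⟩
      rw [inv_inv]
      exact h3

theorem mem_dual_T {t : Γ} : t⁻¹ ∈ S.dual.T ↔ t ∈ S.T := by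
  rw [mem_T, mem_T, inv_mem_dual_E, inv_mem_dual_Th]

theorem dual_D : S.dual.D = S.D := by
  unfold D dual
  simp only [Finset.card_map]

/-- The conditions for both choices at the elements of length `< n`. -/
structure Good (j k : Γ → Option Γ) (n : ℕ) : Prop where
  right : S.GoodR j k n
  left : S.dual.GoodR k j n
  sq : ∀ σ ∈ S.Th, ∀ c : Γ, ∀ τ ∈ S.Th, S.Sq σ c τ → S.len c + S.L < n →
    (j (σ * c) = some τ ↔ k (c * τ)⁻¹ = some σ⁻¹)
  root : 0 < n → ∃ τ ∈ S.Th, j 1 = some τ ∧ k 1 = some τ⁻¹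

theorem Good.dual {S : Sys Γ} {j k : Γ → Option Γ} {n : ℕ} (h : S.Good j k n) :
    S.dual.Good k j n where
  right := h.left
  left := by
    rw [dual_dual]
    exact h.right
  sq := by
    intro σ hσ c τ hτ h1 h2
    have h3 := h.sq τ⁻¹ (S.mem_dual_Th.1 hτ) c⁻¹ σ⁻¹ (S.mem_dual_Th.1 hσ)
      (by rw [← S.dual_Sq]; simpa using h1) (by rw [S.len_inv]; exact h2)
    rw [inv_inv, mul_inv_rev, inv_inv, inv_inv] at h3
    rw [mul_inv_rev]
    exact h3.symm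
  root := by
    intro h0
    obtain ⟨τ, h1, h2, h3⟩ := h.root h0
    refine ⟨τ⁻¹, S.inv_mem_dual_Th.2 h1, h3, ?_⟩
    rw [inv_inv]
    exact h2

theorem Good.mono {S : Sys Γ} {j k : Γ → Option Γ} {m n : ℕ} (h : S.Good j k n) (hmn : m ≤ n) :
    S.Good j k m where
  right := ⟨fun z τ h1 => h.right.val z τ (by omega), fun z h1 => h.right.req z (by omega),
    fun u u' τ h1 h2 => h.right.conf u u' τ (by omega) (by omega)⟩
  left := ⟨fun z τ h1 => h.left.val z τ (by omega), fun z h1 => h.left.req z (by omega),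
    fun u u' τ h1 h2 => h.left.conf u u' τ (by omega) (by omega)⟩
  sq := fun σ hσ c τ hτ h1 h2 => h.sq σ hσ c τ hτ h1 (by omega)
  root := fun h0 => h.root (by omega)

end Sys

end Pool.Agent.H79.FP
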