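import Pool.Agent.H79.FP.LenF
import Pool.Agent.H79.FP.Defs

/-!
# Module CLEN [H79 FP]: the length of a free product is tree-like

PROOF of the last four: `x = ev l c`, `y = ev l' c'` (`ev_surj`). `clen_one`: `1 = ev [] 1`.
`gp_eq`: from `len_formula`. `clen_inv`: `len_formula` with `l' = []`, `c' = 1` (`lcp x [] = 0`).
`clen_mul`: `x * y = (x⁻¹)⁻¹ * y`, `len_formula`, `clen_inv`. `clen_hyp`: `gp_eq` and `lcp_hyp`
(`lcp x z ≥ min (lcp x y) (lcp y z)`, induction on the three lists).
PROOF of `gp_zero`: `gp_eq` for the normal forms of `x`, `y`; `tk l` is empty iff `l` is, and otherwise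
it begins with the first `a`, so `lcp = 0` if one list is empty or the first letters are different.
-/

set_option autoImplicit false

open scoped Classical

namespace Pool.Agent.H79.FP

open Monoid

private theorem lcp_nil_right {α : Type*} (l : List α) : lcp l [] = 0 := by
  cases l <;> rfl

private theorem lcp_cons {α : Type*} (x y : α) (l l' : List α) :
    lcp (x :: l) (y :: l') = if x = y then lcp l l' + 1 else 0 := rfl

theorem lcp_hyp {α : Type*} (x y z : List α) : lcp x y ≤ lcp x z ∨ lcp y z ≤ lcp x z := by
  induction x generalizing y z with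
  | nil =>
    left
    simp [lcp]
  | cons a x ih =>
    cases y with
    | nil =>
      left
      simp [lcp]
    | cons b y =>
      cases z with
      | nil =>
        right
        rw [lcp_nil_right]
        exact Nat.zero_le _
      | cons c z =>
        rw [lcp_cons, lcp_cons, lcp_cons]
        by_cases h1 : a = b
        · by_cases h2 : b = c
          · subst h1 h2
            rw [if_pos rfl, if_pos rfl, if_pos rfl]
            rcases ih y z with h | h
            · left
              omega
            · right
              omega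
          · right
            rw [if_neg h2]
            exact Nat.zero_le _
        · left
          rw [if_neg h1]
          exact Nat.zero_le _

variable {A B : Type*} [Group A] [Group B]

theorem gp_eq {l l' : List (A × B)} (h : Red l) (h' : Red l') (c c' : A) :
    gp clen (ev l c) (ev l' c') = 2 * lcp (tk l) (tk l') := by
  unfold gp
  have h1 := len_formula h h' c c'
  rw [clen_ev h, clen_ev h']
  omega

private theorem nf_ex (x : Coprod A B) : ∃ l : List (A × B), ∃ c : A, Red l ∧ x = ev l c :=
  ⟨nfl x, nfc x, (nf_spec x).1, (nf_spec x).2.symm⟩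

theorem clen_one : clen (1 : Coprod A B) = 0 := by
  have h1 : (1 : Coprod A B) = ev ([] : List (A × B)) 1 := by
    rw [ev_nil, map_one]
  rw [h1, clen_ev red_nil]
  rfl

theorem clen_inv (x : Coprod A B) : clen x⁻¹ = clen x := by
  obtain ⟨l, c, h, rfl⟩ := nf_ex x
  have h1 := len_formula h red_nil c (1 : A)
  rw [ev_nil, map_one, mul_one] at h1
  have h2 : lcp (tk l) (tk ([] : List (A × B))) = 0 := lcp_nil_right _
  rw [h2, List.length_nil] at h1
  rw [clen_ev h]
  omega

theorem clen_mul (x y : Coprod A B) : clen (x * y) ≤ clen x + clen y := by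
  rw [← clen_inv x]
  obtain ⟨l, c, h, hx⟩ := nf_ex x⁻¹
  obtain ⟨l', c', h', rfl⟩ := nf_ex y
  have h1 := len_formula h h' c c'
  rw [← hx, inv_inv] at h1
  rw [hx, clen_ev h, clen_ev h']
  omega

theorem clen_hyp (x y z : Coprod A B) :
    gp clen x y ≤ gp clen x z ∨ gp clen y z ≤ gp clen x z := by
  obtain ⟨l, c, h, rfl⟩ := nf_ex x
  obtain ⟨l', c', h', rfl⟩ := nf_ex y
  obtain ⟨l2, c2, h2, rfl⟩ := nf_ex z
  rw [gp_eq h h', gp_eq h h2, gp_eq h' h2]
  rcases lcp_hyp (tk l) (tk l') (tk l2) with h3 | h3
  · left
    omega
  · right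
    omega

/-- The first letter, if the list is not empty. -/
noncomputable def hd (g : Coprod A B) : Option A := (nfl g).head?.map Prod.fst

theorem hd_ev {l : List (A × B)} (h : Red l) (c : A) : hd (ev l c) = l.head?.map Prod.fst := by
  unfold hd
  rw [nfl_ev h]

/-- If the first letters are different (or there is none) the Gromov product vanishes. -/
theorem gp_zero {x y : Coprod A B} (h : ∀ a, hd x = some a → hd y ≠ some a) :
    gp clen x y = 0 := by
  obtain ⟨l, c, h1, rfl⟩ := nf_ex x
  obtain ⟨l', c', h2, rfl⟩ := nf_ex y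
  rw [gp_eq h1 h2]
  rw [hd_ev h1, hd_ev h2] at h
  cases l with
  | nil => rfl
  | cons q l =>
    cases l' with
    | nil => rfl
    | cons q' l' =>
      have h3 : q.1 ≠ q'.1 := by
        intro h4
        refine h q.1 rfl ?_
        rw [h4]
        rfl
      have h5 : (Sum.inl q.1 : A ⊕ B) ≠ Sum.inl q'.1 := fun h6 => h3 (Sum.inl_injective h6)
      simp only [tk, lcp_cons, if_neg h5, Nat.mul_zero]

/-- If the Gromov product does not vanish the first letters agree. -/
theorem hd_of_gp {x y : Coprod A B} (h : 0 < gp clen x y) : ∃ a, hd x = some a ∧ hd y = some a := by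
  by_contra h'
  have := gp_zero (x := x) (y := y) (fun a h1 h2 => h' ⟨a, h1, h2⟩)
  omega

/-- `g` has length `0` iff it lies in `A`. -/
theorem exists_inl_of_clen {g : Coprod A B} (h : clen g = 0) : ∃ a : A, g = Coprod.inl a := by
  refine ⟨nfc g, ?_⟩
  have h1 : nfl g = [] := by
    rw [← List.length_eq_zero_iff]
    unfold clen at h
    omega
  have h2 := (nf_spec g).2
  rw [h1, ev_nil] at h2
  exact h2.symm

end Pool.Agent.H79.FP
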