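import Mathlib

/-!
# Module COLOUR [H79 FP]: list colourings of infinite graphs of bounded degree (Mathlib only)

PROOF of `colour`. Well-order `V` (`WellOrderingRel`, `IsWellOrder V WellOrderingRel`). By well-founded
recursion (`WellFounded.fix`, or `IsWellFounded.fix`) choose for `v ≠ v0` an element
`f v ∈ Θ`, `f v ∉ F v`, `f v ≠ c0`, `f v ≠ f w` for all `w ∈ nb v` with `w < v`; possible since
`|F v| + 1 + k < |Θ|` (`Finset.exists_mem_notMem_of_card_lt_card` for
`F v ∪ {c0} ∪ (nb v).image f`); put `f v0 = c0`. If `adj v w` then `v ≠ w` (`hirr`); if one of them is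
`v0`, the other one has a colour `≠ c0`; otherwise one of them is smaller, say `w < v`, `w ∈ nb v`, and
`f v ≠ f w` (use `hsym` in the other case).
(For the recursion it is convenient to define the value by a total function: for
`g : (w : V) → w < v → C` let `f v := if h : v = v0 then c0 else if h' : ∃ c ∈ Θ, c ∉ F v ∧ c ≠ c0 ∧
∀ w ∈ nb v, ∀ hw : w < v, c ≠ g w hw then h'.choose else c0`.)
-/

set_option autoImplicit false

open scoped Classical

namespace Pool.Agent.H79.FP

private theorem exists_rec {V C : Type*} (P : V → C → (V → C) → Prop) (c0 : C)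
    (hP : ∀ (v : V) (c : C) (g g' : V → C), (∀ w, WellOrderingRel w v → g w = g' w) →
      P v c g → P v c g')
    (hex : ∀ v g, ∃ c, P v c g) : ∃ f : V → C, ∀ v, P v (f v) f := by
  have hwf : WellFounded (WellOrderingRel : V → V → Prop) := WellOrderingRel.isWellOrder.wf
  let step : (v : V) → ((w : V) → WellOrderingRel w v → C) → C := fun v g =>
    (hex v (fun w => if h : WellOrderingRel w v then g w h else c0)).choose
  refine ⟨hwf.fix step, fun v => ?_⟩
  have h1 : hwf.fix step v = step v (fun w _ => hwf.fix step w) := hwf.fix_eq step v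
  have h2 := (hex v (fun w => if _h : WellOrderingRel w v then hwf.fix step w else c0)).choose_spec
  have h3 : P v (hwf.fix step v)
      (fun w => if _h : WellOrderingRel w v then hwf.fix step w else c0) := by
    rw [h1]
    exact h2
  refine hP v _ _ _ (fun w hw => ?_) h3
  rw [dif_pos hw]

theorem colour {V C : Type*} (Θ : Finset C) (k : ℕ) (adj : V → V → Prop)
    (hsym : ∀ v w, adj v w → adj w v) (hirr : ∀ v, ¬ adj v v) (nb : V → Finset V)
    (hnb : ∀ v w, adj v w → w ∈ nb v) (hk : ∀ v, (nb v).card ≤ k) (F : V → Finset C)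
    (hF : ∀ v, (F v).card + k + 1 < Θ.card) (v0 : V) (c0 : C) (h0 : c0 ∈ Θ) (h0' : c0 ∉ F v0) :
    ∃ f : V → C, f v0 = c0 ∧ (∀ v, f v ∈ Θ ∧ f v ∉ F v) ∧ ∀ v w, adj v w → f w ≠ f v := by
  obtain ⟨f, hf⟩ := exists_rec (V := V) (C := C)
    (fun v c g => (v = v0 → c = c0) ∧ (v ≠ v0 → c ∈ Θ ∧ c ∉ F v ∧ c ≠ c0 ∧
      ∀ w ∈ nb v, WellOrderingRel w v → c ≠ g w)) c0
    (by
      rintro v c g g' hg ⟨h1, h2⟩
      refine ⟨h1, fun hv => ?_⟩
      obtain ⟨h3, h4, h5, h6⟩ := h2 hv
      refine ⟨h3, h4, h5, fun w hw hwv => ?_⟩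
      rw [← hg w hwv]
      exact h6 w hw hwv)
    (by
      intro v g
      by_cases hv : v = v0
      · exact ⟨c0, fun _ => rfl, fun h => absurd hv h⟩
      · have h1 : (F v ∪ {c0} ∪ (nb v).image g).card < Θ.card := by
          have h2 := Finset.card_union_le (F v ∪ {c0}) ((nb v).image g)
          have h3 := Finset.card_union_le (F v) {c0}
          have h4 := Finset.card_image_le (s := nb v) (f := g)
          have h5 := hk v
          have h6 := hF v
          rw [Finset.card_singleton] at h3
          omega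
        obtain ⟨c, hc1, hc2⟩ := Finset.exists_mem_notMem_of_card_lt_card h1
        rw [Finset.mem_union, Finset.mem_union, Finset.mem_singleton, not_or, not_or] at hc2
        refine ⟨c, fun h => absurd h hv, fun _ => ⟨hc1, hc2.1.1, hc2.1.2, ?_⟩⟩
        intro w hw _ he
        apply hc2.2
        rw [he]
        exact Finset.mem_image_of_mem g hw)
  refine ⟨f, (hf v0).1 rfl, ?_, ?_⟩
  · intro v
    by_cases hv : v = v0
    · rw [hv, (hf v0).1 rfl]
      exact ⟨h0, h0'⟩
    · obtain ⟨h1, h2, -⟩ := (hf v).2 hv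
      exact ⟨h1, h2⟩
  · intro v w hvw
    have hne : v ≠ w := by
      intro h
      rw [h] at hvw
      exact hirr w hvw
    by_cases hv : v = v0
    · have hw : w ≠ v0 := by
        intro h
        exact hne (hv.trans h.symm)
      rw [(hf v).1 hv]
      exact ((hf w).2 hw).2.2.1
    · by_cases hw : w = v0
      · rw [(hf w).1 hw]
        exact ((hf v).2 hv).2.2.1.symm
      · rcases trichotomous_of (WellOrderingRel : V → V → Prop) v w with h | h | h
        · exact ((hf w).2 hw).2.2.2 v (hnb w v (hsym v w hvw)) h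
        · exact absurd h hne
        · exact (((hf v).2 hv).2.2.2 w (hnb v w hvw) h).symm

end Pool.Agent.H79.FP
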