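import Pool.Agent.H79.FP.Leaf

/-!
# Module CONFL [H79 FP]: backward conflicts of right choices

PROOF of `conf_symm`, `conf_ne`: swap `t, t'`; `t w = t' w` gives `t = t'`.

PROOF of `conf_back`. Let `bad w` be the (at most one, `leafL_unique`) `b ∈ Th` with `¬ CL b w` (take
`1` if there is none) and `bad' u` the at most one `b ∈ Th` with `0 < p b u` (`headL_unique`; `1` if
none). N is the union of `{t' t⁻¹ u : t, t' ∈ E}`, `{bad (t⁻¹ u) t⁻¹ u : t ∈ E}` and
`{t' (bad' u)⁻¹ u : t' ∈ E}` (images, `Finset.card_image_le`, `Finset.card_union_le`):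
`|N| ≤ |E|² + |E| + |E| = D`.
Let `Conf u u' τ` with `w, t, t'` and `|u'| ≤ |u|`. `w = t⁻¹ u`. (1) `t ∈ E`: `t' ∈ E` gives the first
set; if `t' ∈ Th` with `¬ CL t' (w τ)`, then `¬ CL t' w` by `push` (as `CR (t' w) τ`), so
`t' = bad (t⁻¹ u)`: second set. (2) `t ∈ Th`, `¬ CL t (w τ)`: `push` gives `¬ CL t w`. If also
`t' ∈ Th`, then `¬ CL t' w`, `t = t'` (`leafL_unique`), a contradiction. So `t' ∈ E`, `u' = t' w`,
`|w| ≤ |u'| + R ≤ |u| + R < |u| + L` (`len_le_E_mul`). `p t u = |t| + |u| - |t⁻¹ u| = L + |u| - |w| > 0`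
(`pe`), so `t = bad' u`: third set.
-/

set_option autoImplicit false

open scoped Classical

namespace Pool.Agent.H79.FP

namespace Sys

variable {Γ : Type*} [Group Γ] (S : Sys Γ)

theorem conf_symm {u u' τ : Γ} (h : S.Conf u u' τ) : S.Conf u' u τ := by
  obtain ⟨h0, w, t, t', h1, h2, h3, h4, h5, h6, h7⟩ := h
  exact ⟨h0, w, t', t, h1.symm, h3, h2, h5, h4, h7, h6⟩

theorem conf_ne {u u' τ : Γ} (h : S.Conf u u' τ) : u ≠ u' := by
  obtain ⟨h0, w, t, t', h1, h2, h3, h4, h5, h6, h7⟩ := h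
  intro h8
  apply h1
  rw [h4, h5] at h8
  exact mul_right_cancel h8

/-- The number of conflicts of `u` with elements that are not longer. -/
theorem conf_back (u : Γ) : ∃ N : Finset Γ, N.card ≤ S.D ∧
    ∀ u' τ, S.Conf u u' τ → S.len u' ≤ S.len u → u' ∈ N := by
  have hbad : ∀ w : Γ, ∃ b : Γ, ∀ b' ∈ S.Th, ¬ S.CL b' w → b' = b := by
    intro w
    by_cases h : ∃ b ∈ S.Th, ¬ S.CL b w
    · obtain ⟨b, hb, hb'⟩ := h
      exact ⟨b, fun b' h1 h2 => S.leafL_unique h1 hb h2 hb'⟩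
    · exact ⟨1, fun b' h1 h2 => absurd ⟨b', h1, h2⟩ h⟩
  choose bad hbad using hbad
  have hbad' : ∃ b : Γ, ∀ b' ∈ S.Th, 0 < S.p b' u → b' = b := by
    by_cases h : ∃ b ∈ S.Th, 0 < S.p b u
    · obtain ⟨b, hb, hb'⟩ := h
      exact ⟨b, fun b' h1 h2 => S.headL_unique h1 hb h2 hb'⟩
    · exact ⟨1, fun b' h1 h2 => absurd ⟨b', h1, h2⟩ h⟩
  obtain ⟨b0, hb0⟩ := hbad'
  refine ⟨((S.E ×ˢ S.E).image (fun q : Γ × Γ => q.2 * (q.1⁻¹ * u)) ∪
    S.E.image (fun t => bad (t⁻¹ * u) * (t⁻¹ * u))) ∪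
    S.E.image (fun t' => t' * (b0⁻¹ * u)), ?_, ?_⟩
  · have h1 := Finset.card_union_le ((S.E ×ˢ S.E).image (fun q : Γ × Γ => q.2 * (q.1⁻¹ * u)) ∪
      S.E.image (fun t => bad (t⁻¹ * u) * (t⁻¹ * u))) (S.E.image (fun t' => t' * (b0⁻¹ * u)))
    have h2 := Finset.card_union_le ((S.E ×ˢ S.E).image (fun q : Γ × Γ => q.2 * (q.1⁻¹ * u)))
      (S.E.image (fun t => bad (t⁻¹ * u) * (t⁻¹ * u)))
    have h3 := Finset.card_image_le (s := S.E ×ˢ S.E) (f := fun q : Γ × Γ => q.2 * (q.1⁻¹ * u))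
    have h4 := Finset.card_image_le (s := S.E) (f := fun t => bad (t⁻¹ * u) * (t⁻¹ * u))
    have h5 := Finset.card_image_le (s := S.E) (f := fun t' => t' * (b0⁻¹ * u))
    rw [Finset.card_product] at h3
    unfold D
    have h6 : S.E.card ^ 2 = S.E.card * S.E.card := sq _
    omega
  · intro u' τ h hle
    obtain ⟨h0, w, t, t', h1, h2, h3, h4, h5, h6, h7⟩ := h
    have hw : w = t⁻¹ * u := by rw [h4, inv_mul_cancel_left]
    have hpush : ∀ s ∈ S.Th, S.CR (s * w) τ → ¬ S.CL s (w * τ) → ¬ S.CL s w :=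
      fun s hs ha hb => S.push hs h0 ha hb
    rw [Finset.mem_union, Finset.mem_union]
    rcases h2 with h2 | ⟨h2, h2'⟩
    · rcases h3 with h3 | ⟨h3, h3'⟩
      · left; left
        rw [Finset.mem_image]
        refine ⟨(t, t'), Finset.mem_product.2 ⟨h2, h3⟩, ?_⟩
        show t' * (t⁻¹ * u) = u'
        rw [h5, hw]
      · left; right
        rw [Finset.mem_image]
        refine ⟨t, h2, ?_⟩
        have h8 := hpush t' h3 (by rw [← h5]; exact h7) h3'
        have h9 := hbad w t' h3 h8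
        rw [← hw, ← h9, h5]
    · have h8 := hpush t h2 (by rw [← h4]; exact h6) h2'
      rcases h3 with h3 | ⟨h3, h3'⟩
      · right
        rw [Finset.mem_image]
        refine ⟨t', h3, ?_⟩
        have e1 := S.len_le_E_mul (z := w) h3
        rw [← h5] at e1
        have e2 := S.two_R_lt
        have e3 := S.pe t u
        rw [← hw, S.hTh t h2] at e3
        have e4 : 0 < S.p t u := by omega
        have e5 := hb0 t h2 e4
        rw [← e5, ← hw, h5]
      · exfalso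
        have h9 := hpush t' h3 (by rw [← h5]; exact h7) h3'
        exact h1 (S.leafL_unique h2 h3 h8 h9)

end Sys

end Pool.Agent.H79.FP
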