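import Pool.Agent.H79.FP.Leaf

/-!
# Module COUNTD [H79 FP]: counting by rows of the dual system is counting by columns

`S.N X c` is the number of pairs `(t, t') ∈ T × T` with `t c t' ∈ X` that are not squares of two
elements of `Th` without cancellation. `X = XX j k`, `|c| + L = n`, `Good j k n`.

PROOF of `N_dual`: `N` for `S` at `c` equals `N` for `S.dual` at `c⁻¹`: the bijection
`(t, t') ↦ (t'⁻¹, t⁻¹)` of `T × T` onto `S.dual.T × S.dual.T`; `t'⁻¹ c⁻¹ t⁻¹ = (t c t')⁻¹`, `dual_XX`,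
`dual_Sq`, `mem_dual_T`, `inv_mem_dual_Th`.
-/

set_option autoImplicit false

open scoped Classical

namespace Pool.Agent.H79.FP

namespace Sys

variable {Γ : Type*} [Group Γ] (S : Sys Γ)

theorem N_dual {j k : Γ → Option Γ} (c : Γ) :
    S.dual.N (S.dual.XX k j) c⁻¹ = S.N (S.XX j k) c := by
  unfold N
  refine Finset.card_nbij' (fun q : Γ × Γ => (q.2⁻¹, q.1⁻¹)) (fun q : Γ × Γ => (q.2⁻¹, q.1⁻¹))
    ?_ ?_ ?_ ?_
  · rintro ⟨a, b⟩ hq
    simp only [Finset.coe_filter, Finset.mem_product, Set.mem_ofPred_eq] at hq ⊢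
    obtain ⟨⟨h1, h2⟩, h3, h4⟩ := hq
    refine ⟨⟨?_, ?_⟩, ?_, ?_⟩
    · rw [← S.mem_dual_T, inv_inv]
      exact h2
    · rw [← S.mem_dual_T, inv_inv]
      exact h1
    · rw [← S.dual_XX]
      have h : (b⁻¹ * c * a⁻¹)⁻¹ = a * c⁻¹ * b := by group
      rw [h]
      exact h3
    · rintro ⟨h5, h6, h7⟩
      apply h4
      refine ⟨S.mem_dual_Th.2 h6, S.mem_dual_Th.2 h5, ?_⟩
      have h8 := S.dual_Sq.2 h7
      rw [inv_inv, inv_inv] at h8
      exact h8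
  · rintro ⟨a, b⟩ hq
    simp only [Finset.coe_filter, Finset.mem_product, Set.mem_ofPred_eq] at hq ⊢
    obtain ⟨⟨h1, h2⟩, h3, h4⟩ := hq
    refine ⟨⟨?_, ?_⟩, ?_, ?_⟩
    · rw [S.mem_dual_T]
      exact h2
    · rw [S.mem_dual_T]
      exact h1
    · have h : b⁻¹ * c⁻¹ * a⁻¹ = (a * c * b)⁻¹ := by group
      rw [h, S.dual_XX]
      exact h3
    · rintro ⟨h5, h6, h7⟩
      apply h4
      exact ⟨S.inv_mem_dual_Th.1 h6, S.inv_mem_dual_Th.1 h5, S.dual_Sq.1 h7⟩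
  · rintro ⟨a, b⟩ _
    simp
  · rintro ⟨a, b⟩ _
    simp

end Sys

end Pool.Agent.H79.FP
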