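import Pool.Agent.H79.FP.Leaf

/-!
# Module DOUBLE [H79 FP]: elements that are right and left children

PROOF of `double`. `z = v τ⁻¹`, `y = σ⁻¹ v`, `|z| = |y| = |v| - L`.
(1) `|v| ≥ 2L`: `p z v = |z| + |v| - |z⁻¹ v| = |z| + |v| - L = 2|z| ≥ 2L` (`z⁻¹ v = τ`),
`p σ v = 2L`, so `p σ z ≥ 2L` (`p_hyp`, `p_comm`), hence `= 2L` (`p_le_left`), so `|σ⁻¹ z| = |z| - L`
(`pe`). With `c = σ⁻¹ v τ⁻¹ = σ⁻¹ z`: `|c| = |v| - 2L`, and `σ c τ = v`: `Sq σ c τ`.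
(2) `|v| < 2L`, `v = τ`: `p σ τ = 2L > 0`, so `σ = τ` by th2.
(3) `|v| < 2L`, `v ≠ τ`: `Ex (v τ⁻¹) τ`: `v τ⁻¹ ≠ 1`, `CR (v τ⁻¹) τ` (`CR_of_Rc`), `v τ⁻¹ τ = v` is a
left child. Dual: `v⁻¹ σ ≠ 1`, because `v = σ` gives `Rc τ σ`, so `p σ⁻¹ τ⁻¹ = 2L > 0`, `σ = τ = v` by
th2, excluded. `S.dual.CR (v⁻¹ σ) σ⁻¹` is `|v⁻¹ σ σ⁻¹| = |v⁻¹ σ| + L`, and `|v⁻¹ σ| = |σ⁻¹ v|`;
`S.dual.IsL v⁻¹` is `S.dual_IsL.2 ⟨τ, _, _⟩`.

PROOF of `ex_unique`. `Ex z τ`: `z ≠ 1`, `|z τ| = |z| + L < 2L`, `Lc σ (z τ)` for a `σ ∈ Th`. First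
`|z| > 0`: if `|z| = 0` then `|z τ| = L` and `h = σ⁻¹ z τ` has `|h| = 0`, `z τ = σ h`, so `z = 1` by
th5. `v = z τ`: `p z v = |z| + |v| - L = 2|z|`, `p σ v = 2L > 2|z|`, so `p σ z ≥ 2|z| > 0`, so `= 2|z|`
(`p_le_right`). `s = z⁻¹ σ`: `|s| = |z| + L - 2|z| = L - |z| > 0`. `p s τ = |s| + L - |s⁻¹ τ|` and
`s⁻¹ τ = σ⁻¹ z τ` has length `|v| - L = |z|`: `p s τ = 2(L - |z|) > 0`. The same for `τ'`, `σ'`:
`p σ' z > 0`, so `σ' = σ` (`headL_unique`), `p s τ' > 0`, so `τ = τ'` (th2 via `p_pos`/`headL_unique`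
with `v := s`).

PROOF of `sq_facts`. `|σ c τ| = |c| + 2L`. `|σ c τ| ≤ |σ c| + L ≤ |c| + 2L` and
`|σ c τ| ≤ L + |c τ| ≤ |c| + 2L` (`len_mul_Th`, `len_Th_mul`, `mul_assoc`): all are equalities.
`¬ Ex (σ c) τ` because `|σ c τ| ≥ 2L`.

PROOF of `sq_of`. `p c⁻¹ (c⁻¹ σ⁻¹) = |c| + |σ c| - |σ⁻¹| = 2|c| > 0` (`(c⁻¹)⁻¹ * (c⁻¹ * σ⁻¹) = σ⁻¹`,
`|c⁻¹ σ⁻¹| = |σ c| = |c| + L`). `p c⁻¹ τ = 0` (`CR_iff`). If `p (c⁻¹ σ⁻¹) τ > 0` then `p c⁻¹ τ > 0`, a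
contradiction; so `p (σ c)⁻¹ τ = 0`, i.e. `CR (σ c) τ`: `|σ c τ| = |c| + 2L`.

PROOF of `nonsq_unique`. By `sq_of`, `|c| = 0`. `|σ c τ| ≤ |σ c| + L = 2L` and it is not `2L`, so
`< 2L`; the same for the second pair; th6.
-/

set_option autoImplicit false

namespace Pool.Agent.H79.FP

namespace Sys

variable {Γ : Type*} [Group Γ] (S : Sys Γ)

theorem double {v σ τ : Γ} (hσ : σ ∈ S.Th) (hτ : τ ∈ S.Th) (h1 : S.Lc σ v) (h2 : S.Rc τ v) :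
    (σ = τ ∧ v = τ) ∨ S.Sq σ (σ⁻¹ * v * τ⁻¹) τ ∨
      (S.Ex (v * τ⁻¹) τ ∧ S.dual.Ex (v⁻¹ * σ) σ⁻¹) := by
  have hL := S.L_pos
  have hp1 := (S.Lc_iff hσ).1 h1
  have hp2 := (S.Rc_iff hτ).1 h2
  have h1' : S.len (σ⁻¹ * v) + S.L = S.len v := h1
  have h2' : S.len (v * τ⁻¹) + S.L = S.len v := h2
  by_cases hv : 2 * S.L ≤ S.len v
  · right
    left
    have ha := S.pe (v * τ⁻¹) v
    have hb : (v * τ⁻¹)⁻¹ * v = τ := by group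
    rw [hb, S.hTh τ hτ] at ha
    have hc : 2 * S.L ≤ S.p σ (v * τ⁻¹) := by
      apply S.p_hyp (y := v)
      · omega
      · rw [S.p_comm]
        omega
    have hd := S.p_le_left σ (v * τ⁻¹)
    rw [S.hTh σ hσ] at hd
    have he := S.pe σ (v * τ⁻¹)
    rw [S.hTh σ hσ] at he
    unfold Sq
    have hf : σ * (σ⁻¹ * v * τ⁻¹) * τ = v := by group
    rw [hf, mul_assoc]
    omega
  · by_cases hvt : v = τ
    · left
      subst hvt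
      refine ⟨?_, rfl⟩
      by_contra hne
      have := (S.p_th2 hσ hτ hne).1
      omega
    · right
      right
      constructor
      · refine ⟨?_, S.CR_of_Rc h2, ?_, ?_⟩
        · intro hz
          exact hvt (mul_inv_eq_one.1 hz)
        · rw [inv_mul_cancel_right]
          omega
        · rw [inv_mul_cancel_right]
          exact ⟨σ, hσ, h1⟩
      · have hvs : v ≠ σ := by
          intro hvs
          subst hvs
          by_cases hne : v = τ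
          · exact hvt hne
          · have := (S.p_th2 hσ hτ hne).2
            omega
        have hl : S.len (v⁻¹ * σ) = S.len (σ⁻¹ * v) := by
          rw [← S.len_inv (v⁻¹ * σ), mul_inv_rev, inv_inv]
        refine ⟨?_, ?_, ?_, ?_⟩
        · intro hz
          exact hvs (inv_mul_eq_one.1 hz)
        · unfold CR
          rw [mul_inv_cancel_right, dual_len, dual_len, dual_L, S.len_inv, hl]
          exact h1'.symm
        · rw [mul_inv_cancel_right, dual_len, dual_L, S.len_inv]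
          omega
        · rw [mul_inv_cancel_right]
          exact S.dual_IsL.2 ⟨τ, hτ, h2⟩

theorem ex_unique {z τ τ' : Γ} (hτ : τ ∈ S.Th) (hτ' : τ' ∈ S.Th) (h : S.Ex z τ)
    (h' : S.Ex z τ') : τ = τ' := by
  have hL := S.L_pos
  -- the key computation
  have key : ∀ ρ ∈ S.Th, S.Ex z ρ → ∃ σ ∈ S.Th, 0 < S.len z ∧ 0 < S.p σ z ∧
      0 < S.p (z⁻¹ * σ) ρ := by
    rintro ρ hρ ⟨hz, hCR, hlt, σ, hσ, hLc⟩
    unfold CR at hCR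
    have hLc' : S.len (σ⁻¹ * (z * ρ)) + S.L = S.len (z * ρ) := hLc
    have hz0 : 0 < S.len z := by
      rcases Nat.eq_zero_or_pos (S.len z) with h0 | h0
      · exfalso
        apply hz
        refine (S.th5 z (σ⁻¹ * (z * ρ)) h0 (by omega) σ hσ ρ hρ ?_).1
        rw [mul_inv_cancel_left]
      · exact h0
    have ha := S.pe z (z * ρ)
    rw [inv_mul_cancel_left, S.hTh ρ hρ] at ha
    have hb := (S.Lc_iff hσ).1 hLc
    have hc : 2 * S.len z ≤ S.p σ z := by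
      apply S.p_hyp (y := z * ρ)
      · omega
      · rw [S.p_comm]
        omega
    have hd := S.p_le_right σ z
    refine ⟨σ, hσ, hz0, by omega, ?_⟩
    have he := S.pe z σ
    rw [S.p_comm z σ, S.hTh σ hσ] at he
    have hf := S.pe (z⁻¹ * σ) ρ
    have hg : (z⁻¹ * σ)⁻¹ * ρ = σ⁻¹ * (z * ρ) := by group
    rw [hg, S.hTh ρ hρ] at hf
    omega
  obtain ⟨σ, hσ, hz, hs, hp⟩ := key τ hτ h
  obtain ⟨σ', hσ', -, hs', hp'⟩ := key τ' hτ' h'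
  have hss : σ = σ' := S.headL_unique hσ hσ' hs hs'
  subst hss
  rw [S.p_comm] at hp hp'
  exact S.headL_unique hτ hτ' hp hp'

theorem sq_facts {σ c τ : Γ} (hσ : σ ∈ S.Th) (hτ : τ ∈ S.Th) (h : S.Sq σ c τ) :
    S.CL σ c ∧ S.CR c τ ∧ S.CR (σ * c) τ ∧ S.CL σ (c * τ) ∧ ¬ S.Ex (σ * c) τ := by
  have hL := S.L_pos
  unfold Sq at h
  have h1 := S.len_mul_Th (z := σ * c) hτ
  have h2 := S.len_Th_mul (z := c) hσ
  have h3 := S.len_Th_mul (z := c * τ) hσ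
  have h4 := S.len_mul_Th (z := c) hτ
  rw [← mul_assoc] at h3
  refine ⟨?_, ?_, ?_, ?_, ?_⟩
  · unfold CL
    omega
  · unfold CR
    omega
  · unfold CR
    omega
  · unfold CL
    rw [← mul_assoc]
    omega
  · rintro ⟨-, -, hx, -⟩
    omega

theorem sq_iff {σ c τ : Γ} (h : S.CL σ c) : S.Sq σ c τ ↔ S.CR (σ * c) τ := by
  unfold Sq CR
  unfold CL at h
  rw [h]
  constructor <;> intro h' <;> omega

theorem sq_of {σ c τ : Γ} (hσ : σ ∈ S.Th) (hτ : τ ∈ S.Th) (h1 : S.CL σ c) (h2 : S.CR c τ)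
    (h0 : 0 < S.len c) : S.Sq σ c τ := by
  rw [S.sq_iff h1, S.CR_iff hτ]
  rw [S.CR_iff hτ] at h2
  by_contra hne
  have ha := S.pe c⁻¹ (c⁻¹ * σ⁻¹)
  have hb : (c⁻¹)⁻¹ * (c⁻¹ * σ⁻¹) = σ⁻¹ := by group
  have hc : S.len (c⁻¹ * σ⁻¹) = S.len (σ * c) := by
    rw [← mul_inv_rev, S.len_inv]
  unfold CL at h1
  rw [hb, S.len_inv, S.len_inv, hc, S.hTh σ hσ] at ha
  rw [mul_inv_rev] at hne
  have hd : 0 < S.p c⁻¹ τ := S.p_pos (y := c⁻¹ * σ⁻¹) (by omega) (by omega)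
  omega

theorem nonsq_unique {c σ τ σ' τ' : Γ} (hσ : σ ∈ S.Th) (hτ : τ ∈ S.Th) (hσ' : σ' ∈ S.Th)
    (hτ' : τ' ∈ S.Th) (h1 : S.CL σ c) (h2 : S.CR c τ) (h3 : ¬ S.Sq σ c τ) (h1' : S.CL σ' c)
    (h2' : S.CR c τ') (h3' : ¬ S.Sq σ' c τ') : σ = σ' ∧ τ = τ' := by
  have h0 : S.len c = 0 := by
    by_contra hne
    exact h3 (S.sq_of hσ hτ h1 h2 (by omega))
  have ha := S.len_mul_Th (z := σ * c) hτ
  have hb := S.len_mul_Th (z := σ' * c) hτ'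
  unfold CL at h1 h1'
  unfold Sq at h3 h3'
  exact S.th6 c h0 σ hσ τ hτ σ' hσ' τ' hτ' (by omega) (by omega)

end Sys

end Pool.Agent.H79.FP
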