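import Pool.Agent.H79.FP.Exact
import Pool.Agent.H79.FP.Double

/-!
# Module COUNTL [H79 FP]: the bound for the number of selected elements outside the squares

`S.N X c` is the number of pairs `(t, t') ∈ T × T` with `t c t' ∈ X` that are not squares of two
elements of `Th` without cancellation. `X = XX j k`, `|c| + L = n`, `Good j k n`.

PROOF of `N_le`: `N c ≤ 2 (|E| + 1) + 1`. The pairs are of three kinds: `TL c t` (row `t c` contains
exactly one: at most `|E| + 1` of them, because `{t : TL c t}` consists of `E` and at most one bad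
leaf, `leafL_unique`); `TR c t'` (the column of `c t'` contains exactly one element of `X`,
`exact_col`, `|c t'| < n` by `len_lt_of_TR`; again at most `|E| + 1`); and `t, t' ∈ Th` with `CL t c`,
`CR c t'`, not a square: at most one pair (`nonsq_unique`). (Write the set of pairs as a subset of the
union of `⋃_{t, TL c t} {t} ×ˢ {t' : t c t' ∈ X}`, `⋃_{t', TR c t'} {t : t c t' ∈ X} ×ˢ {t'}` and a
set with at most one element; `Finset.card_biUnion_le`.)
-/

set_option autoImplicit false

open scoped Classical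

namespace Pool.Agent.H79.FP

namespace Sys

variable {Γ : Type*} [Group Γ] (S : Sys Γ)

theorem countL_TL (c : Γ) : (S.T.filter (fun t => S.TL c t)).card ≤ S.E.card + 1 := by
  have h1 : S.T.filter (fun t => S.TL c t) ⊆ S.E ∪ S.Th.filter (fun t => ¬ S.CL t c) := by
    intro t ht
    rw [Finset.mem_filter] at ht
    rw [Finset.mem_union, Finset.mem_filter]
    exact ht.2
  have h2 : (S.Th.filter (fun t => ¬ S.CL t c)).card ≤ 1 := by
    rw [Finset.card_le_one]
    intro a ha b hb
    rw [Finset.mem_filter] at ha hb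
    exact S.leafL_unique ha.1 hb.1 ha.2 hb.2
  have h3 := Finset.card_le_card h1
  have h4 := Finset.card_union_le S.E (S.Th.filter (fun t => ¬ S.CL t c))
  omega

theorem countL_TR (c : Γ) : (S.T.filter (fun t => S.TR c t)).card ≤ S.E.card + 1 := by
  have h1 : S.T.filter (fun t => S.TR c t) ⊆ S.E ∪ S.Th.filter (fun t => ¬ S.CR c t) := by
    intro t ht
    rw [Finset.mem_filter] at ht
    rw [Finset.mem_union, Finset.mem_filter]
    exact ht.2
  have h2 : (S.Th.filter (fun t => ¬ S.CR c t)).card ≤ 1 := by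
    rw [Finset.card_le_one]
    intro a ha b hb
    rw [Finset.mem_filter] at ha hb
    exact S.leafR_unique ha.1 hb.1 ha.2 hb.2
  have h3 := Finset.card_le_card h1
  have h4 := Finset.card_union_le S.E (S.Th.filter (fun t => ¬ S.CR c t))
  omega

theorem N_le {j k : Γ → Option Γ} {n : ℕ} (hG : S.Good j k n) {c : Γ}
    (hc : S.len c + S.L = n) : S.N (S.XX j k) c ≤ 2 * (S.E.card + 1) + 1 := by
  set X := S.XX j k with hX
  set A1 := (S.T.filter (fun t => S.TL c t)).biUnion
    (fun t => ({t} : Finset Γ) ×ˢ S.T.filter (fun t' => t * c * t' ∈ X)) with hA1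
  set A2 := (S.T.filter (fun t' => S.TR c t')).biUnion
    (fun t' => (S.T.filter (fun t => t * (c * t') ∈ X)) ×ˢ ({t'} : Finset Γ)) with hA2
  set A3 := (S.T ×ˢ S.T).filter (fun q : Γ × Γ => q.1 ∈ S.Th ∧ q.2 ∈ S.Th ∧ S.CL q.1 c ∧
    S.CR c q.2 ∧ ¬ S.Sq q.1 c q.2) with hA3
  have hsub : (S.T ×ˢ S.T).filter (fun q : Γ × Γ => q.1 * c * q.2 ∈ X ∧
      ¬ (q.1 ∈ S.Th ∧ q.2 ∈ S.Th ∧ S.Sq q.1 c q.2)) ⊆ A1 ∪ (A2 ∪ A3) := by
    rintro ⟨t, t'⟩ h
    rw [Finset.mem_filter, Finset.mem_product] at h
    simp only at h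
    obtain ⟨⟨ht, ht'⟩, hx, hn⟩ := h
    rw [Finset.mem_union, Finset.mem_union]
    by_cases h1 : S.TL c t
    · left
      rw [hA1, Finset.mem_biUnion]
      refine ⟨t, Finset.mem_filter.2 ⟨ht, h1⟩, ?_⟩
      rw [Finset.mem_product, Finset.mem_filter]
      exact ⟨Finset.mem_singleton_self t, ht', hx⟩
    · by_cases h2 : S.TR c t'
      · right
        left
        rw [hA2, Finset.mem_biUnion]
        refine ⟨t', Finset.mem_filter.2 ⟨ht', h2⟩, ?_⟩
        rw [Finset.mem_product, Finset.mem_filter]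
        refine ⟨⟨ht, ?_⟩, Finset.mem_singleton_self t'⟩
        simp only
        rw [← mul_assoc]
        exact hx
      · right
        right
        rw [hA3, Finset.mem_filter, Finset.mem_product]
        simp only
        have hTh : t ∈ S.Th := by
          rcases S.mem_T.1 ht with h | h
          · exact absurd (Or.inl h) h1
          · exact h
        have hTh' : t' ∈ S.Th := by
          rcases S.mem_T.1 ht' with h | h
          · exact absurd (Or.inl h) h2
          · exact h
        refine ⟨⟨ht, ht'⟩, hTh, hTh', ?_, ?_, fun h => hn ⟨hTh, hTh', h⟩⟩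
        · by_contra h
          exact h1 (Or.inr ⟨hTh, h⟩)
        · by_contra h
          exact h2 (Or.inr ⟨hTh', h⟩)
  have c1 : A1.card ≤ S.E.card + 1 := by
    refine Finset.card_biUnion_le.trans (le_trans ?_ (S.countL_TL c))
    rw [Finset.card_eq_sum_ones (S.T.filter (fun t => S.TL c t))]
    refine Finset.sum_le_sum fun t ht => ?_
    rw [Finset.card_product, Finset.card_singleton, one_mul]
    have h1 := S.len_lt_of_TL (Finset.mem_filter.1 ht).2
    exact (S.exact_row hG (by omega)).le
  have c2 : A2.card ≤ S.E.card + 1 := by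
    refine Finset.card_biUnion_le.trans (le_trans ?_ (S.countL_TR c))
    rw [Finset.card_eq_sum_ones (S.T.filter (fun t => S.TR c t))]
    refine Finset.sum_le_sum fun t ht => ?_
    rw [Finset.card_product, Finset.card_singleton, mul_one]
    have h1 := S.len_lt_of_TR (Finset.mem_filter.1 ht).2
    exact (S.exact_col hG (by omega)).le
  have c3 : A3.card ≤ 1 := by
    rw [Finset.card_le_one]
    rintro ⟨a, a'⟩ ha ⟨b, b'⟩ hb
    rw [hA3, Finset.mem_filter] at ha hb
    simp only at ha hb
    obtain ⟨_, a1, a2, a3, a4, a5⟩ := ha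
    obtain ⟨_, b1, b2, b3, b4, b5⟩ := hb
    obtain ⟨h1, h2⟩ := S.nonsq_unique a1 a2 b1 b2 a3 a4 a5 b3 b4 b5
    rw [h1, h2]
  have c4 := Finset.card_le_card hsub
  have c5 := Finset.card_union_le A1 (A2 ∪ A3)
  have c6 := Finset.card_union_le A2 A3
  have c7 : S.N X c = ((S.T ×ˢ S.T).filter (fun q : Γ × Γ => q.1 * c * q.2 ∈ X ∧
      ¬ (q.1 ∈ S.Th ∧ q.2 ∈ S.Th ∧ S.Sq q.1 c q.2))).card := rfl
  omega

end Sys

end Pool.Agent.H79.FP
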