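import Pool.Agent.H79.FP.CountR
import Pool.Agent.H79.FP.CountD
import Pool.Agent.H79.FP.CountL

/-!
# Module COUNT [H79 FP]: the two sides of a cell have the same size

`S.N X c` is the number of pairs `(t, t') ∈ T × T` with `t c t' ∈ X` that are not squares of two
elements of `Th` without cancellation. `X = XX j k`, `|c| + L = n`, `Good j k n`.

PROOF of `count_UL`. `rows_N` for `S` and for `S.dual` (with `hG.dual`, `c⁻¹`; `|S.dual.T| = |S.T|`,
because `Finset.card_map`, or by `mem_dual_T` and `Finset.card_bij`) and `N_dual` give the equality.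
`|T| = |E| + |Th|` (disjoint), so `|UL| ≥ |E| + |Th| - 2|E| - 3 = |Th| - |E| - 3 ≥ 2` by `S.card`.
-/

set_option autoImplicit false

open scoped Classical

namespace Pool.Agent.H79.FP

namespace Sys

variable {Γ : Type*} [Group Γ] (S : Sys Γ)

theorem count_T : S.T.card = S.E.card + S.Th.card := by
  unfold T
  refine Finset.card_union_of_disjoint ?_
  rw [Finset.disjoint_left]
  intro t h1 h2
  exact S.not_mem_Th_of_mem_E h1 h2

theorem count_UL {j k : Γ → Option Γ} {n : ℕ} (hG : S.Good j k n) {c : Γ}
    (hc : S.len c + S.L = n) :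
    (S.UL (S.XX j k) c).card = (S.dual.UL (S.dual.XX k j) c⁻¹).card ∧
      2 ≤ (S.UL (S.XX j k) c).card := by
  have h1 := S.rows_N hG hc
  have h2 := S.dual.rows_N hG.dual (c := c⁻¹) (n := n) (by
    rw [dual_len, dual_L, S.len_inv]
    exact hc)
  have h3 := S.N_dual (j := j) (k := k) c
  have h4 := S.N_le hG hc
  have h5 := S.count_T
  have h6 := S.dual.count_T
  have h7 : S.dual.E.card = S.E.card := Finset.card_map _
  have h8 : S.dual.Th.card = S.Th.card := Finset.card_map _
  have h9 := S.card
  constructor
  · omega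
  · have h10 : S.E.card ≤ 2 * (S.E.card ^ 2 + 2 * S.E.card) := by
      have : 0 ≤ S.E.card ^ 2 := Nat.zero_le _
      omega
    omega

end Sys

end Pool.Agent.H79.FP
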