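import Pool.Agent.H79.FP.Exact

/-!
# Module COUNTR [H79 FP]: counting by rows

`S.N X c` is the number of pairs `(t, t') ∈ T × T` with `t c t' ∈ X` that are not squares of two
elements of `Th` without cancellation. `X = XX j k`, `|c| + L = n`, `Good j k n`.

PROOF of `rows_N`: `N c + |UL X c| = |T|`. `N c = ∑_{t ∈ T} r t`, `r t = |{t' ∈ T : t c t' ∈ X, not
(t, t' ∈ Th and Sq t c t')}|`. (1) `TL c t`: then no `t'` gives a square (`t ∈ E` is not in `Th`; if
`¬ CL t c` then `Sq t c t'` is impossible by `sq_facts`), so `r t = |{t' ∈ T : (t c) t' ∈ X}| = 1`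
(`exact_row`, `|t c| < |c| + L = n` by `len_lt_of_TL`). (2) `t = σ ∈ Th`, `CL σ c`: for `t' ∈ T`: not
(`t' ∈ Th` and `Sq σ c t'`) iff `TR (σ c) t'` (`sq_iff`), so `r σ = kap X (σ c) ∈ {0, 1}`
(`kap_le_one`, `|σ c| = n`), and it is `0` iff `σ ∈ UL X c`. For `t ∈ T`, `TL c t` fails iff (2). So
`∑_{t ∈ T} r t = |T| - |UL X c|` (`∑_{t ∈ T} (r t + [t ∈ UL]) = ∑ 1`).
-/

set_option autoImplicit false

open scoped Classical

namespace Pool.Agent.H79.FP

namespace Sys

variable {Γ : Type*} [Group Γ] (S : Sys Γ)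

theorem rows_N {j k : Γ → Option Γ} {n : ℕ} (hG : S.Good j k n) {c : Γ}
    (hc : S.len c + S.L = n) : S.N (S.XX j k) c + (S.UL (S.XX j k) c).card = S.T.card := by
  set X := S.XX j k with hX
  have hN : S.N X c = ∑ t ∈ S.T, (S.T.filter (fun t' => t * c * t' ∈ X ∧
      ¬ (t ∈ S.Th ∧ t' ∈ S.Th ∧ S.Sq t c t'))).card := by
    unfold N
    rw [Finset.card_filter, Finset.sum_product]
    refine Finset.sum_congr rfl fun t _ => ?_
    rw [Finset.card_filter]
  have hULT : S.UL X c = S.T.filter (fun t => t ∈ S.UL X c) := by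
    ext t
    rw [Finset.mem_filter]
    constructor
    · intro h
      exact ⟨S.mem_T.2 (Or.inr (Finset.mem_filter.1 h).1), h⟩
    · exact fun h => h.2
  have hUL : (S.UL X c).card = ∑ t ∈ S.T, (if t ∈ S.UL X c then 1 else 0) := by
    conv_lhs => rw [hULT]
    rw [Finset.card_filter]
  rw [hN, hUL, ← Finset.sum_add_distrib, Finset.card_eq_sum_ones]
  refine Finset.sum_congr rfl fun t ht => ?_
  by_cases hTL : S.TL c t
  · have h1 : t ∉ S.UL X c := by
      intro h
      obtain ⟨h2, h3, _⟩ := Finset.mem_filter.1 h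
      rcases hTL with h4 | ⟨_, h4⟩
      · exact S.not_mem_Th_of_mem_E h4 h2
      · exact h4 h3
    rw [if_neg h1, add_zero]
    have h2 : S.T.filter (fun t' => t * c * t' ∈ X ∧
        ¬ (t ∈ S.Th ∧ t' ∈ S.Th ∧ S.Sq t c t')) = S.T.filter (fun t' => t * c * t' ∈ X) := by
      refine Finset.filter_congr fun t' _ => ?_
      constructor
      · exact fun h => h.1
      · intro h
        refine ⟨h, ?_⟩
        rintro ⟨h3, h4, h5⟩
        rcases hTL with h6 | ⟨_, h6⟩
        · exact S.not_mem_Th_of_mem_E h6 h3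
        · exact h6 (S.sq_facts h3 h4 h5).1
    rw [h2]
    have h3 := S.len_lt_of_TL hTL
    exact S.exact_row hG (by omega)
  · have hTh : t ∈ S.Th := by
      rcases S.mem_T.1 ht with h | h
      · exact absurd (Or.inl h) hTL
      · exact h
    have hCL : S.CL t c := by
      by_contra h
      exact hTL (Or.inr ⟨hTh, h⟩)
    have h2 : S.T.filter (fun t' => t * c * t' ∈ X ∧
        ¬ (t ∈ S.Th ∧ t' ∈ S.Th ∧ S.Sq t c t')) =
        S.T.filter (fun t' => S.TR (t * c) t' ∧ t * c * t' ∈ X) := by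
      refine Finset.filter_congr fun t' ht' => ?_
      have h3 : ¬ (t ∈ S.Th ∧ t' ∈ S.Th ∧ S.Sq t c t') ↔ S.TR (t * c) t' := by
        unfold TR
        rw [S.sq_iff hCL]
        constructor
        · intro h
          rcases S.mem_T.1 ht' with h4 | h4
          · exact Or.inl h4
          · exact Or.inr ⟨h4, fun h5 => h ⟨hTh, h4, h5⟩⟩
        · rintro (h | ⟨_, h⟩) ⟨_, h5, h6⟩
          · exact S.not_mem_Th_of_mem_E h h5
          · exact h h6
      rw [h3]
      exact and_comm
    rw [h2]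
    have hlen : S.len (t * c) ≤ n := by
      unfold CL at hCL
      omega
    have h3 : S.kap X (t * c) ≤ 1 := S.kap_le_one hG hlen
    have h4 : t ∈ S.UL X c ↔ S.kap X (t * c) = 0 := by
      unfold UL
      rw [Finset.mem_filter]
      exact ⟨fun h => h.2.2, fun h => ⟨hTh, hCL, h⟩⟩
    have h5 : (S.T.filter (fun t' => S.TR (t * c) t' ∧ t * c * t' ∈ X)).card =
        S.kap X (t * c) := rfl
    rw [h5]
    split_ifs with h6
    · rw [h4.1 h6]
    · have h7 : S.kap X (t * c) ≠ 0 := fun h => h6 (h4.2 h)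
      omega

end Sys

end Pool.Agent.H79.FP
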