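import Pool.Agent.H79.FP.Kappa

/-!
# Module EXACT [H79 FP]: rows and columns of length `< n` contain exactly one selected element

PROOF of `kid_iff`. `|z| < n`, `CR z τ`. (⇐) `Rc τ (z τ)` (`Rc_of_CR`) and `z τ τ⁻¹ = z`. (⇒) `v = z τ`.
Right route with `τ'`: `τ' = τ` by `Rc_unique`, `v τ⁻¹ = z`. Left route with `σ`: `Lc σ v`,
`k (v⁻¹ σ) = some σ⁻¹`; `double`: (a) `σ = τ = v`: then `z = v τ⁻¹ = 1`, `k 1 = some τ⁻¹`; `root` gives
`j 1 = some τ` (`0 < n`, injectivity of `some` and inverse). (b) `Sq σ c τ`, `c = σ⁻¹ v τ⁻¹ = σ⁻¹ z`: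
`k (c τ)⁻¹ = some σ⁻¹` as `(c τ)⁻¹ = v⁻¹ σ`, `|c| + L = |σ c| = |z| < n` (`sq_facts`), so `j (σ c) = j z =
some τ` by `sq`. (c) `S.dual.Ex (v⁻¹ σ) σ⁻¹`: excluded by `left.val` (`|v⁻¹ σ| = |v| - L = |z| < n`).

PROOF of `exact_row`. `T = E ∪ Th` (disjoint, `not_mem_Th_of_mem_E`). The filter set is the disjoint
union of `{t ∈ T : TR z t, z t ∈ X}` (card `kap`) and `{τ ∈ Th : CR z τ, z τ ∈ X}`
(`t ∈ T` and not `TR z t` iff `t ∈ Th` and `CR z t`). By `kid_iff` the second one is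
`{τ ∈ Th : CR z τ, j z = some τ}`. If `kap = 0` then `j z = some τ` for some `τ` (`right.req`), `τ ∈ Th`,
`CR z τ` (`right.val`), so it is `{τ}`. If `kap ≠ 0` then `kap = 1` (`kap_le_one`) and `j z = none`.

PROOF of `exact_col`. `exact_row` for `S.dual`, `hG.dual`, `z⁻¹`; `t ↦ t⁻¹` maps
`{t ∈ S.T : t z ∈ X}` onto `{t ∈ S.dual.T : z⁻¹ t ∈ S.dual.XX k j}` (`dual_XX`, `mem_dual_T`;
`Finset.card_bij` or `Finset.card_nbij'`).
-/

set_option autoImplicit false

open scoped Classical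

namespace Pool.Agent.H79.FP

namespace Sys

variable {Γ : Type*} [Group Γ] (S : Sys Γ)

theorem kid_iff {j k : Γ → Option Γ} {n : ℕ} (hG : S.Good j k n) {z τ : Γ}
    (hz : S.len z < n) (hτ : τ ∈ S.Th) (h : S.CR z τ) : z * τ ∈ S.XX j k ↔ j z = some τ := by
  constructor
  · rintro (⟨τ', hτ', hRc, hj⟩ | ⟨σ, hσ, hLc, hk⟩)
    · have e := S.Rc_unique hτ' hτ hRc (S.Rc_of_CR h)
      rw [e, mul_inv_cancel_right] at hj
      exact hj
    · rcases S.double hσ hτ hLc (S.Rc_of_CR h) with ⟨e1, e2⟩ | hsq | ⟨_, hEx⟩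
      · have e3 : z = 1 := by
          have := congrArg (· * τ⁻¹) e2
          simpa using this
        rw [e2, e1, inv_mul_cancel] at hk
        obtain ⟨τ0, _, h3, h4⟩ := hG.root (by omega)
        rw [hk] at h4
        have h5 : τ⁻¹ = τ0⁻¹ := Option.some_injective _ h4
        rw [e3, h3, inv_injective h5]
      · obtain ⟨f1, _, _, _, _⟩ := S.sq_facts hσ hτ hsq
        have f2 : σ * (σ⁻¹ * (z * τ) * τ⁻¹) = z := by group
        have f3 : (σ⁻¹ * (z * τ) * τ⁻¹ * τ)⁻¹ = (z * τ)⁻¹ * σ := by group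
        unfold CL at f1
        rw [f2] at f1
        have f4 := hG.sq σ hσ _ τ hτ hsq (by omega)
        rw [f2, f3] at f4
        exact f4.2 hk
      · exfalso
        have g1 : S.len ((z * τ)⁻¹ * σ) = S.len (σ⁻¹ * (z * τ)) := by
          rw [← S.len_inv]
          congr 1
          group
        unfold Lc at hLc
        unfold CR at h
        have g2 := hG.left.val ((z * τ)⁻¹ * σ) σ⁻¹
          (by show S.len ((z * τ)⁻¹ * σ) < n; omega) hk
        exact g2.2.2 hEx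
  · intro hj
    refine Or.inl ⟨τ, hτ, S.Rc_of_CR h, ?_⟩
    rw [mul_inv_cancel_right]
    exact hj

theorem exact_row {j k : Γ → Option Γ} {n : ℕ} (hG : S.Good j k n) {z : Γ}
    (hz : S.len z < n) : (S.T.filter (fun t => z * t ∈ S.XX j k)).card = 1 := by
  have hTR : ∀ t ∈ S.T, ¬ S.TR z t → t ∈ S.Th ∧ S.CR z t := by
    intro t ht hn
    rcases S.mem_T.1 ht with h | h
    · exact absurd (Or.inl h) hn
    · refine ⟨h, ?_⟩
      by_contra hc
      exact hn (Or.inr ⟨h, hc⟩)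
  have hle := S.kap_le_one hG hz.le
  have hreq := hG.right.req z hz
  rcases hj : j z with _ | τ0
  · have h1 : S.kap (S.XX j k) z ≠ 0 := by
      intro h0
      exact (hreq.1 h0) hj
    have h2 : S.kap (S.XX j k) z = 1 := by omega
    rw [← h2]
    unfold kap
    congr 1
    ext t
    rw [Finset.mem_filter, Finset.mem_filter]
    constructor
    · rintro ⟨ht, hx⟩
      refine ⟨ht, ?_, hx⟩
      by_contra hn
      obtain ⟨a, b⟩ := hTR t ht hn
      rw [S.kid_iff hG hz a b, hj] at hx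
      exact absurd hx (by simp)
    · rintro ⟨ht, _, hx⟩
      exact ⟨ht, hx⟩
  · obtain ⟨h1, h2, _⟩ := hG.right.val z τ0 hz hj
    have h3 : S.kap (S.XX j k) z = 0 := hreq.2 (by rw [hj]; simp)
    unfold kap at h3
    rw [Finset.card_eq_zero] at h3
    rw [Finset.card_eq_one]
    refine ⟨τ0, ?_⟩
    ext t
    rw [Finset.mem_filter, Finset.mem_singleton]
    constructor
    · rintro ⟨ht, hx⟩
      have hn : ¬ S.TR z t := by
        intro hn
        have : t ∈ (∅ : Finset Γ) := by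
          rw [← h3, Finset.mem_filter]
          exact ⟨ht, hn, hx⟩
        exact absurd this (Finset.notMem_empty t)
      obtain ⟨a, b⟩ := hTR t ht hn
      rw [S.kid_iff hG hz a b, hj] at hx
      exact (Option.some_injective _ hx).symm
    · rintro rfl
      refine ⟨S.mem_T.2 (Or.inr h1), ?_⟩
      rw [S.kid_iff hG hz h1 h2]
      exact hj

theorem exact_col {j k : Γ → Option Γ} {n : ℕ} (hG : S.Good j k n) {z : Γ}
    (hz : S.len z < n) : (S.T.filter (fun t => t * z ∈ S.XX j k)).card = 1 := by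
  have h1 := S.dual.exact_row hG.dual (z := z⁻¹) (by rw [dual_len, S.len_inv]; exact hz)
  rw [← h1]
  refine Finset.card_nbij' (fun t => t⁻¹) (fun t => t⁻¹) ?_ ?_ ?_ ?_
  · intro t ht
    rw [Finset.mem_coe, Finset.mem_filter] at ht ⊢
    refine ⟨S.mem_dual_T.2 ht.1, ?_⟩
    rw [← mul_inv_rev]
    exact S.dual_XX.2 ht.2
  · intro t ht
    rw [Finset.mem_coe, Finset.mem_filter] at ht ⊢
    refine ⟨?_, ?_⟩
    · rw [← S.mem_dual_T, inv_inv]
      exact ht.1
    · rw [← S.dual_XX, mul_inv_rev, inv_inv]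
      exact ht.2
  · intro t _
    exact inv_inv t
  · intro t _
    exact inv_inv t

end Sys

end Pool.Agent.H79.FP
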