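import Pool.Agent.H79.FP.Clen

/-!
# Module RF [H79 FP]: the free product of two finite groups is residually finite

PROOF. `n = (nfl g).length`. `V = {x : Coprod A B // clen x ≤ 2 n}`, a finite type (`x = ev l c` with
`l.length ≤ n`; `A × B` finite: `List.finite_length_le` or the like). `A` acts on `V` by left
multiplication (`clen_inl_mul`: `clen (inl a * x) = clen x`). `B` acts: `x ∈ V` is called good if
`clen (inr b' * x) ≤ 2 n` for all `b' : B`; `b • x = inr b * x` if `x` is good (then it is good again,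
since `inr b' * (inr b * x) = inr (b' b) * x`), `b • x = x` otherwise. So there is
`φ : Coprod A B →* Equiv.Perm V` (`Coprod.lift` of two `MulAction.toPermHom`s or direct).
CLAIM: for `Red l`, `l.length ≤ n`: `φ (ev l c) 1 = ev l c`. Induction on `l`: `[]`: clear.
`(a₀, b) :: l₁`: `y = ev l₁ c`, `l₁.length ≤ n - 1`, `Red1 l₁`; `inr b' * y = ev ((1, b') :: l₁) c` for
`b' ≠ 1`, so `clen ≤ 2 n`; hence `y` is good, `b • y = inr b * y`, and
`φ (ev l c) 1 = inl a₀ * (inr b * y)`. So `φ g 1 = g ≠ 1`, `φ g ≠ 1`. `K = φ.ker`: normal, of finite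
index (`Subgroup.finiteIndex_ker`), `g ∉ K`.
-/

set_option autoImplicit false

open scoped Classical

namespace Pool.Agent.H79.FP

open Monoid

private theorem rf_clen_inl {A B : Type*} [Group A] [Group B] (a : A) (x : Coprod A B) :
    clen (Coprod.inl a * x) = clen x := by
  obtain ⟨l, c, hl, rfl⟩ := ev_surj x
  rw [clen_inl_mul hl, clen_ev hl]

private theorem rf_finite {A B : Type*} [Group A] [Group B] [Finite A] [Finite B] (n : ℕ) :
    {x : Coprod A B | clen x ≤ 2 * n}.Finite := by
  refine (((List.finite_length_le (A × B) n).prod (Set.finite_univ (α := A))).image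
    (fun q : List (A × B) × A => ev q.1 q.2)).subset ?_
  intro x hx
  obtain ⟨l, c, hl, rfl⟩ := ev_surj x
  have hx' : clen (ev l c) ≤ 2 * n := hx
  rw [clen_ev hl] at hx'
  have h1 : l.length ≤ n := by omega
  exact ⟨(l, c), ⟨h1, Set.mem_univ _⟩, rfl⟩

private def rf_hom {G V : Type*} [Group G] (f : G → V → V) (h1 : ∀ x, f 1 x = x)
    (h2 : ∀ a b x, f (a * b) x = f a (f b x)) : G →* Equiv.Perm V :=
  @MulAction.toPermHom G V _ { smul := f, one_smul := h1, mul_smul := h2 }

private theorem rf_hom_apply {G V : Type*} [Group G] (f : G → V → V) (h1 : ∀ x, f 1 x = x)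
    (h2 : ∀ a b x, f (a * b) x = f a (f b x)) (a : G) (x : V) : rf_hom f h1 h2 a x = f a x := rfl

theorem rf_coprod {A B : Type*} [Group A] [Group B] [Finite A] [Finite B] (g : Coprod A B)
    (hg : g ≠ 1) : ∃ K : Subgroup (Coprod A B), K.Normal ∧ K.FiniteIndex ∧ g ∉ K := by
  obtain ⟨n, hn⟩ : ∃ n, n = (nfl g).length := ⟨_, rfl⟩
  let V : Type _ := {x : Coprod A B // clen x ≤ 2 * n}
  have : Finite V := (rf_finite n).to_subtype
  let fA : A → V → V := fun a x => ⟨Coprod.inl a * x.1, by
    rw [rf_clen_inl]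
    exact x.2⟩
  have hA1 : ∀ x, fA 1 x = x := by
    intro x
    apply Subtype.ext
    change Coprod.inl 1 * x.1 = x.1
    rw [map_one, one_mul]
  have hA2 : ∀ a b x, fA (a * b) x = fA a (fA b x) := by
    intro a b x
    apply Subtype.ext
    change Coprod.inl (a * b) * x.1 = Coprod.inl a * (Coprod.inl b * x.1)
    rw [map_mul, mul_assoc]
  let fB : B → V → V := fun b x =>
    if h : ∀ b' : B, clen (Coprod.inr b' * x.1) ≤ 2 * n then ⟨Coprod.inr b * x.1, h b⟩ else x
  have hBp : ∀ (b : B) (x : V) (h : ∀ b' : B, clen (Coprod.inr b' * x.1) ≤ 2 * n),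
      fB b x = ⟨Coprod.inr b * x.1, h b⟩ := fun b x h => dif_pos h
  have hBn : ∀ (b : B) (x : V) (_ : ¬ ∀ b' : B, clen (Coprod.inr b' * x.1) ≤ 2 * n),
      fB b x = x := fun b x h => dif_neg h
  have hB1 : ∀ x, fB 1 x = x := by
    intro x
    by_cases h : ∀ b' : B, clen (Coprod.inr b' * x.1) ≤ 2 * n
    · rw [hBp 1 x h]
      apply Subtype.ext
      change Coprod.inr 1 * x.1 = x.1
      rw [map_one, one_mul]
    · exact hBn 1 x h
  have hB2 : ∀ a b x, fB (a * b) x = fB a (fB b x) := by
    intro a b x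
    by_cases h : ∀ b' : B, clen (Coprod.inr b' * x.1) ≤ 2 * n
    · have h' : ∀ b' : B, clen (Coprod.inr b' * (⟨Coprod.inr b * x.1, h b⟩ : V).1) ≤ 2 * n := by
        intro b'
        change clen (Coprod.inr b' * (Coprod.inr b * x.1)) ≤ 2 * n
        rw [← mul_assoc, ← map_mul]
        exact h _
      rw [hBp b x h, hBp (a * b) x h, hBp a _ h']
      apply Subtype.ext
      change Coprod.inr (a * b) * x.1 = Coprod.inr a * (Coprod.inr b * x.1)
      rw [map_mul, mul_assoc]
    · rw [hBn b x h, hBn (a * b) x h, hBn a x h]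
  obtain ⟨φ, hφ⟩ : ∃ φ : Coprod A B →* Equiv.Perm V,
      φ = Coprod.lift (rf_hom fA hA1 hA2) (rf_hom fB hB1 hB2) := ⟨_, rfl⟩
  have hφA : ∀ a x, φ (Coprod.inl a) x = fA a x := by
    intro a x
    rw [hφ, Coprod.lift_apply_inl, rf_hom_apply]
  have hφB : ∀ b x, φ (Coprod.inr b) x = fB b x := by
    intro b x
    rw [hφ, Coprod.lift_apply_inr, rf_hom_apply]
  have h0 : clen (1 : Coprod A B) ≤ 2 * n := by
    rw [clen_one]
    exact Nat.zero_le _
  have hcl : ∀ (l : List (A × B)) (c : A), Red l → l.length ≤ n →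
      (φ (ev l c) ⟨1, h0⟩).1 = ev l c := by
    intro l
    induction l with
    | nil =>
      intro c _ _
      rw [ev_nil, hφA]
      change Coprod.inl c * 1 = Coprod.inl c
      rw [mul_one]
    | cons q l ih =>
      intro c hl hlen
      rw [red_cons] at hl
      rw [List.length_cons] at hlen
      have h1 := ih c hl.2.red (by omega)
      rw [ev_cons, map_mul, map_mul, Equiv.Perm.mul_apply, Equiv.Perm.mul_apply, hφA, hφB]
      have h2 : ∀ b' : B, clen (Coprod.inr b' * (φ (ev l c) ⟨1, h0⟩).1) ≤ 2 * n := by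
        intro b'
        rw [h1]
        by_cases hb : b' = 1
        · rw [hb, map_one, one_mul, clen_ev hl.2.red]
          omega
        · have h3 : Coprod.inr b' * ev l c = ev ((1, b') :: l) c := by
            rw [ev_cons, map_one, one_mul]
          have h4 : Red ((1, b') :: l) := red_cons.2 ⟨hb, hl.2⟩
          rw [h3, clen_ev h4, List.length_cons]
          omega
      rw [hBp _ _ h2]
      change Coprod.inl q.1 * (Coprod.inr q.2 * (φ (ev l c) ⟨1, h0⟩).1) = _
      rw [h1, mul_assoc]
  refine ⟨φ.ker, inferInstance, ?_, ?_⟩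
  · exact Subgroup.finiteIndex_ker φ
  · intro hk
    rw [MonoidHom.mem_ker] at hk
    apply hg
    have h1 := hcl (nfl g) (nfc g) (nf_spec g).1 (by omega)
    rw [(nf_spec g).2, hk] at h1
    exact h1.symm

end Pool.Agent.H79.FP
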