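import Pool.Agent.H79.FP.Tile

/-!
# Module RFP [H79 FP]: residually finite groups have property P; transport along isomorphisms

PROOF of `hasP_of_rf`. `F` finite. For `f ≠ f'` in `F` choose `K` with `f * f'⁻¹ ∉ K`; the intersection
`K` of these finitely many subgroups is normal of finite index and `f * f'⁻¹ ∈ K → f = f'` on `F`
(induct over a finite set of elements `≠ 1`: `∀ T : Finset G, (∀ g ∈ T, g ≠ 1) → ∃ K, K.Normal ∧
K.FiniteIndex ∧ ∀ g ∈ T, g ∉ K`, with `K ⊓ K'`). For every `q : G ⧸ K` choose `s q : G` with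
`(s q : G ⧸ K) = q` and `s q ∈ F` whenever some `f ∈ F` has class `q`. `S = range s` (finite), `F ⊆ S`
(`f` and `s [f]` are both in `F` in the same class: `f⁻¹ * s [f] ∈ K`, so by normality
`s [f] * f⁻¹ ∈ K`, equal). `X = K`. `x₁ s₁ = x₂ s₂` with `x₁, x₂ ∈ K`: `s₁ s₂⁻¹ ∈ K`, by normality
`s₁⁻¹ s₂ ∈ K`, the same class, so `s₁ = s₂`, `x₁ = x₂`. Covering: `y`, `s = s [y]`, `s⁻¹ y ∈ K`,
`y = s (s⁻¹ y)`.

PROOF of `HasP.of_equiv`: transport `F` to `e.symm '' F`, `S` to `e '' S`, `X` to `e '' X`.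
-/

set_option autoImplicit false

open scoped Classical

namespace Pool.Agent.H79.FP

private theorem rfp_fin {G : Type*} [Group G]
    (h : ∀ g : G, g ≠ 1 → ∃ K : Subgroup G, K.Normal ∧ K.FiniteIndex ∧ g ∉ K) (T : Finset G) :
    (∀ g ∈ T, g ≠ 1) → ∃ K : Subgroup G, K.Normal ∧ K.FiniteIndex ∧ ∀ g ∈ T, g ∉ K := by
  induction T using Finset.induction_on with
  | empty =>
    intro _
    exact ⟨⊤, inferInstance, inferInstance, by simp⟩
  | insert g T hg ih =>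
    intro hT
    obtain ⟨K, hK1, hK2, hK3⟩ := ih fun x hx => hT x (Finset.mem_insert_of_mem hx)
    obtain ⟨K', hK1', hK2', hK3'⟩ := h g (hT g (Finset.mem_insert_self _ _))
    have := hK1
    have := hK2
    have := hK1'
    have := hK2'
    refine ⟨K ⊓ K', inferInstance, inferInstance, ?_⟩
    intro x hx
    rcases Finset.mem_insert.1 hx with rfl | hx
    · exact fun hh => hK3' hh.2
    · exact fun hh => hK3 x hx hh.1

theorem hasP_of_rf {G : Type*} [Group G]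
    (h : ∀ g : G, g ≠ 1 → ∃ K : Subgroup G, K.Normal ∧ K.FiniteIndex ∧ g ∉ K) : HasP G := by
  intro F hF
  obtain ⟨K, hK1, hK2, hK3⟩ := rfp_fin h
    (((hF.toFinset ×ˢ hF.toFinset).image (fun q => q.1 * q.2⁻¹)).filter (fun g => g ≠ 1))
    (fun g hg => (Finset.mem_filter.1 hg).2)
  have := hK1
  have := hK2
  have hsep : ∀ f ∈ F, ∀ f' ∈ F, f * f'⁻¹ ∈ K → f = f' := by
    intro f hf f' hf' hm
    by_contra hne
    apply hK3 (f * f'⁻¹) _ hm
    rw [Finset.mem_filter, Finset.mem_image]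
    refine ⟨⟨(f, f'), ?_, rfl⟩, ?_⟩
    · rw [Finset.mem_product]
      exact ⟨hF.mem_toFinset.2 hf, hF.mem_toFinset.2 hf'⟩
    · intro h1
      exact hne (mul_inv_eq_one.1 h1)
  have hs : ∀ q : G ⧸ K, ∃ s : G, (s : G ⧸ K) = q ∧ ((∃ f ∈ F, (f : G ⧸ K) = q) → s ∈ F) := by
    intro q
    by_cases hq : ∃ f ∈ F, (f : G ⧸ K) = q
    · obtain ⟨f, hf, hfq⟩ := hq
      exact ⟨f, hfq, fun _ => hf⟩
    · obtain ⟨s, hs⟩ := QuotientGroup.mk_surjective q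
      exact ⟨s, hs, fun h => absurd h hq⟩
  choose s hs1 hs2 using hs
  have : Finite (G ⧸ K) := Subgroup.finite_quotient_of_finiteIndex
  refine ⟨Set.range s, Set.finite_range s, ?_, (K : Set G), ?_, ?_⟩
  · intro f hf
    refine ⟨(f : G ⧸ K), ?_⟩
    have h1 : s (f : G ⧸ K) ∈ F := hs2 _ ⟨f, hf, rfl⟩
    apply hsep _ h1 _ hf
    have h3 := QuotientGroup.eq.1 (hs1 (f : G ⧸ K)).symm
    have h4 := hK1.conj_mem _ h3 f
    simpa [mul_assoc] using h4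
  · intro x₁ hx₁ x₂ hx₂ hne
    rw [Set.disjoint_left]
    rintro y ⟨_, ⟨q₁, rfl⟩, h1⟩ ⟨_, ⟨q₂, rfl⟩, h2⟩
    apply hne
    simp only at h1 h2
    have h3 : x₁ * s q₁ = x₂ * s q₂ := h1.trans h2.symm
    have h4 : s q₁ * (s q₂)⁻¹ ∈ K := by
      have h5 : s q₁ * (s q₂)⁻¹ = x₁⁻¹ * x₂ := by
        rw [mul_inv_eq_iff_eq_mul, mul_assoc, ← h3, inv_mul_cancel_left]
      rw [h5]
      exact K.mul_mem (K.inv_mem hx₁) hx₂
    have h5 : q₁ = q₂ := by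
      rw [← hs1 q₁, ← hs1 q₂, QuotientGroup.eq]
      have h6 := hK1.conj_mem _ (K.inv_mem h4) (s q₁)⁻¹
      simpa [mul_assoc] using h6
    rw [h5] at h3
    exact mul_right_cancel h3
  · apply Set.eq_univ_of_forall
    intro y
    simp only [Set.mem_iUnion, Set.mem_image]
    refine ⟨(s (y : G ⧸ K))⁻¹ * y, ?_, s (y : G ⧸ K), ⟨_, rfl⟩, by simp⟩
    exact QuotientGroup.eq.1 (hs1 _)

theorem HasP.of_equiv {G H : Type*} [Group G] [Group H] (e : G ≃* H) (h : HasP G) : HasP H := by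
  intro F hF
  obtain ⟨S, hS, hFS, X, hX1, hX2⟩ := h (e.symm '' F) (hF.image _)
  refine ⟨e '' S, hS.image _, ?_, e '' X, ?_, ?_⟩
  · intro f hf
    exact ⟨e.symm f, hFS ⟨f, hf, rfl⟩, by simp⟩
  · rintro _ ⟨x₁, hx₁, rfl⟩ _ ⟨x₂, hx₂, rfl⟩ hne
    have hne' : x₁ ≠ x₂ := fun h => hne (by rw [h])
    have h1 := hX1 x₁ hx₁ x₂ hx₂ hne'
    rw [Set.disjoint_left] at h1 ⊢
    rintro y ⟨_, ⟨s₁, hs₁, rfl⟩, h2⟩ ⟨_, ⟨s₂, hs₂, rfl⟩, h3⟩
    simp only at h2 h3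
    rw [← map_mul] at h2 h3
    have h4 : x₂ * s₂ = x₁ * s₁ := e.injective (h3.trans h2.symm)
    exact h1 ⟨s₁, hs₁, rfl⟩ ⟨s₂, hs₂, h4⟩
  · apply Set.eq_univ_of_forall
    intro y
    have h1 : e.symm y ∈ ⋃ x ∈ X, (fun s => s * x) '' S := by
      rw [hX2]
      exact Set.mem_univ _
    simp only [Set.mem_iUnion, Set.mem_image] at h1 ⊢
    obtain ⟨x, hx, s, hs, hsx⟩ := h1
    refine ⟨e x, ⟨x, hx, rfl⟩, e s, ⟨s, hs, rfl⟩, ?_⟩
    rw [← map_mul, hsx, MulEquiv.apply_symm_apply]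

end Pool.Agent.H79.FP
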