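import Pool.Agent.H79.FP.SysX
import Pool.Agent.H79.FP.RF
import Pool.Agent.H79.FP.RFP

/-!
# Module FIN [H79 FP]: every free product of two nontrivial groups has property P (complete)
-/

set_option autoImplicit false

open scoped Classical

namespace Pool.Agent.H79.FP

open Monoid

theorem hasP_of_infinite {A B : Type*} [Group A] [Group B] [Infinite A] [Nontrivial B] :
    HasP (Coprod A B) := by
  intro F hF
  obtain ⟨β, hβ⟩ := exists_ne (1 : B)
  obtain ⟨S, hS⟩ := exists_sys (A := A) hβ ((hF.toFinset).map (Equiv.inv _).toEmbedding)
  refine tile_of_sys F S (fun f hf => ?_)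
  rw [hS, mem_map_inv, inv_inv]
  exact hF.mem_toFinset.2 hf

theorem hasP_coprod (A B : Type*) [Group A] [Group B] [Nontrivial A] [Nontrivial B] :
    HasP (Coprod A B) := by
  rcases finite_or_infinite A with hA | hA
  · rcases finite_or_infinite B with hB | hB
    · exact hasP_of_rf rf_coprod
    · exact HasP.of_equiv (MulEquiv.coprodComm B A) hasP_of_infinite
  · exact hasP_of_infinite

end Pool.Agent.H79.FP
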