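import Pool.Agent.H79.FP.Confl
import Pool.Agent.H79.FP.Double
import Pool.Agent.H79.FP.Colour

/-!
# Module FREE [H79 FP]: right choices at the elements of length `n` that are not left children

PROOF. Call `u` free if `|u| = n` and `¬ IsL u`. `colour` with `V = C = Γ`, `Θ = Th`, `k = D`, `v0 = 1`,
`c0 = τ₀`, `adj u u' := u free ∧ u' free ∧ ∃ τ, Conf u u' τ` (symmetric by `conf_symm`, irreflexive by
`conf_ne`), `nb u` := the finset of `conf_back u` (`choose`), and
`F u := if u is free then Th.filter (fun τ => ¬ CR u τ ∨ Ex u τ ∨ ∃ u', Conf u u' τ ∧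
((|u'| < n ∧ j u' = some τ) ∨ (|u'| = n ∧ IsL u' ∧ jc u' = some τ))) else ∅`.
`|F u| ≤ D + 2`: the first kind is at most one `τ` (`leafR_unique`), the second too (`ex_unique`), the
third is contained in the image of `nb u` under `u' ↦ if |u'| < n then (j u').getD 1 else
(jc u').getD 1`. `D + 2 + D + 1 < |Th|` by `S.card` (`D = |E|² + 2|E|`).
`τ₀ ∉ F 1`: if `1` is free then `n = |1| = 0`; `CR 1 τ₀` (`|τ₀| = L`), `¬ Ex 1 τ₀` (`1 ≠ 1`), `|u'| < 0` is
impossible, and `IsL u'` gives `|u'| ≥ L > 0`.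
Result: for free `u`: `f u ∈ Th`, `f u ∉ F u` gives `CR u (f u)`, `¬ Ex u (f u)` and for
`Conf u u' (f u)` the first two items; the third one is `adj u u' → f u' ≠ f u`.
-/

set_option autoImplicit false

open scoped Classical

namespace Pool.Agent.H79.FP

namespace Sys

variable {Γ : Type*} [Group Γ] (S : Sys Γ)

theorem free (j jc : Γ → Option Γ) (n : ℕ) {τ₀ : Γ} (h0 : τ₀ ∈ S.Th) :
    ∃ f : Γ → Γ, f 1 = τ₀ ∧ ∀ u, S.len u = n → ¬ S.IsL u →
      f u ∈ S.Th ∧ S.CR u (f u) ∧ ¬ S.Ex u (f u) ∧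
      ∀ u', S.Conf u u' (f u) →
        (S.len u' < n → j u' ≠ some (f u)) ∧
        (S.len u' = n → S.IsL u' → jc u' ≠ some (f u)) ∧
        (S.len u' = n → ¬ S.IsL u' → f u' ≠ f u) := by
  choose nb hnb1 hnb2 using S.conf_back
  -- the forbidden colours
  let F : Γ → Finset Γ := fun u => if S.len u = n ∧ ¬ S.IsL u then
    S.Th.filter (fun τ => ¬ S.CR u τ ∨ S.Ex u τ ∨ ∃ u', S.Conf u u' τ ∧
      ((S.len u' < n ∧ j u' = some τ) ∨ (S.len u' = n ∧ S.IsL u' ∧ jc u' = some τ))) else ∅
  have hF1 : ∀ u, (F u).card ≤ S.D + 2 := by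
    intro u
    by_cases hu : S.len u = n ∧ ¬ S.IsL u
    · have hsub : F u ⊆ (S.Th.filter (fun τ => ¬ S.CR u τ) ∪ S.Th.filter (fun τ => S.Ex u τ)) ∪
          (nb u).image (fun u' => if S.len u' < n then (j u').getD 1 else (jc u').getD 1) := by
        intro τ hτ
        simp only [F, if_pos hu, Finset.mem_filter] at hτ
        obtain ⟨h1, h2⟩ := hτ
        rcases h2 with h2 | h2 | ⟨u', h3, h4⟩
        · exact Finset.mem_union_left _ (Finset.mem_union_left _ (Finset.mem_filter.2 ⟨h1, h2⟩))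
        · exact Finset.mem_union_left _ (Finset.mem_union_right _ (Finset.mem_filter.2 ⟨h1, h2⟩))
        · refine Finset.mem_union_right _ (Finset.mem_image.2 ⟨u', ?_, ?_⟩)
          · refine hnb2 u u' τ h3 ?_
            rcases h4 with h4 | h4
            · have := h4.1
              omega
            · have := h4.1
              omega
          · rcases h4 with ⟨h5, h6⟩ | ⟨h5, h6, h7⟩
            · rw [if_pos h5, h6]
              rfl
            · rw [if_neg (by omega), h7]
              rfl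
      have h1 : (S.Th.filter (fun τ => ¬ S.CR u τ)).card ≤ 1 := by
        rw [Finset.card_le_one]
        intro a ha b hb
        rw [Finset.mem_filter] at ha hb
        exact S.leafR_unique ha.1 hb.1 ha.2 hb.2
      have h2 : (S.Th.filter (fun τ => S.Ex u τ)).card ≤ 1 := by
        rw [Finset.card_le_one]
        intro a ha b hb
        rw [Finset.mem_filter] at ha hb
        exact S.ex_unique ha.1 hb.1 ha.2 hb.2
      have h3 := Finset.card_le_card hsub
      have h4 := Finset.card_union_le (S.Th.filter (fun τ => ¬ S.CR u τ) ∪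
        S.Th.filter (fun τ => S.Ex u τ))
        ((nb u).image (fun u' => if S.len u' < n then (j u').getD 1 else (jc u').getD 1))
      have h5 := Finset.card_union_le (S.Th.filter (fun τ => ¬ S.CR u τ))
        (S.Th.filter (fun τ => S.Ex u τ))
      have h6 := Finset.card_image_le (s := nb u)
        (f := fun u' => if S.len u' < n then (j u').getD 1 else (jc u').getD 1)
      have h7 := hnb1 u
      omega
    · have : F u = ∅ := by simp only [F, if_neg hu]
      rw [this]
      simp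
  have hcard := S.card
  have hD : S.D = S.E.card ^ 2 + 2 * S.E.card := rfl
  have hLp := S.L_pos
  obtain ⟨f, hf0, hf1, hf2⟩ := colour S.Th S.D
    (fun u u' => (S.len u = n ∧ ¬ S.IsL u) ∧ (S.len u' = n ∧ ¬ S.IsL u') ∧ ∃ τ, S.Conf u u' τ)
    (fun v w h => ⟨h.2.1, h.1, h.2.2.imp fun τ hτ => S.conf_symm hτ⟩)
    (fun v h => by
      obtain ⟨_, _, τ, hτ⟩ := h
      exact S.conf_ne hτ rfl)
    nb
    (fun v w h => by
      obtain ⟨h1, h2, τ, hτ⟩ := h
      exact hnb2 v w τ hτ (by omega))
    hnb1 F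
    (fun v => by
      have := hF1 v
      omega)
    1 τ₀ h0
    (by
      by_cases hu : S.len 1 = n ∧ ¬ S.IsL 1
      · simp only [F, if_pos hu, Finset.mem_filter]
        rintro ⟨_, h | h | ⟨u', h1, h2⟩⟩
        · apply h
          unfold CR
          rw [one_mul, S.len_one, S.hTh τ₀ h0]
          omega
        · exact h.1 rfl
        · have hn : n = 0 := by rw [← hu.1, S.len_one]
          rcases h2 with h2 | ⟨h2, ⟨σ, hσ, h3⟩, _⟩
          · have := h2.1
            omega
          · unfold Lc at h3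
            omega
      · simp only [F, if_neg hu]
        simp)
  refine ⟨f, hf0, ?_⟩
  intro u hu1 hu2
  have hu : S.len u = n ∧ ¬ S.IsL u := ⟨hu1, hu2⟩
  have h1 := (hf1 u).1
  have h2 := (hf1 u).2
  simp only [F, if_pos hu, Finset.mem_filter, not_and, not_or, not_not] at h2
  obtain ⟨h3, h4, h5⟩ := h2 h1
  refine ⟨h1, h3, h4, ?_⟩
  intro u' hc
  refine ⟨?_, ?_, ?_⟩
  · intro h6 h7
    exact h5 ⟨u', hc, Or.inl ⟨h6, h7⟩⟩
  · intro h6 h7 h8
    exact h5 ⟨u', hc, Or.inr ⟨h6, h7, h8⟩⟩
  · intro h6 h7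
    exact hf2 u u' ⟨hu, ⟨h6, h7⟩, ⟨_, hc⟩⟩

end Sys

end Pool.Agent.H79.FP
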