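import Mathlib

/-!
# Module GENER [H79 FP]: generic elements in an infinite group (Mathlib only)

PROOF. `F' = F ∪ F⁻¹ ∪ {1}` (closed under inverses, contains `1`), finite. First choose `d`: by
`exists_seq_of_forall_finset_exists'` (or strong recursion, or `exists_seq_of_forall_finset_exists`)
for the relation `r x y := ∀ g ∈ F', g * x⁻¹ ≠ y⁻¹` and the predicate `P y := y⁻¹ ∉ F'`: for a finite set
`s` the set of bad `y` is finite (`y⁻¹ ∈ F'` or `y⁻¹ = g x⁻¹`, `g ∈ F'`, `x ∈ s`), and `A` is infinite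
(`Infinite.exists_notMem_finset`). So `d i` (`i : ℕ`) with `(d i)⁻¹ ∉ F'`, and for `i < j`, `g ∈ F'`:
`g (d i)⁻¹ ≠ (d j)⁻¹`; since `F'⁻¹ = F'` this holds for all `i ≠ j`.
Then choose `a`: `P y := y ∉ F' ∧ (∀ g ∈ F', ∀ i < m, g (d i)⁻¹ ≠ y)` and
`r x y := (∀ g ∈ F', g * x ≠ y) ∧ (∀ i < m, ∀ i' < m, y ≠ x * d i' * (d i)⁻¹)` (finitely many bad `y`
for every finite `s`). `a : ℕ → A`. For `i < j < m` both parts hold for `(a i, a j)`; by symmetry of
`F'` the first one for all `i ≠ j`. Last item: `a j * d i = a j' * d i'` with `j < j'` would give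
`a j' = a j * d i * (d i')⁻¹`, excluded (`r` with the roles of `i, i'`); so `j = j'` (symmetry) and
`d i = d i'`, so `i = i'` (`g = 1`).
`g (d i)⁻¹ ≠ a j` for `g ∈ F'` is `P (a j)`; `g (a i) ≠ (d j)⁻¹` is the same with `g⁻¹`.
-/

set_option autoImplicit false

open scoped Classical

namespace Pool.Agent.H79.FP

theorem gener {A : Type*} [Group A] [Infinite A] (F : Finset A) (m : ℕ) :
    ∃ a d : Fin m → A,
      (∀ i, a i ∉ F ∧ (d i)⁻¹ ∉ F ∧ a i ≠ 1) ∧
      (∀ i j, i ≠ j → a i ≠ a j ∧ d i ≠ d j) ∧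
      (∀ i j, a j ≠ (d i)⁻¹) ∧
      (∀ g ∈ F, ∀ i j, (i ≠ j → g * a i ≠ a j ∧ g * (d i)⁻¹ ≠ (d j)⁻¹) ∧
        g * (d i)⁻¹ ≠ a j ∧ g * a i ≠ (d j)⁻¹) ∧
      (∀ i j i' j', a j * d i = a j' * d i' → i = i' ∧ j = j') := by
  set F' : Finset A := F ∪ F.image (fun x => x⁻¹) ∪ {1} with hF'
  have hFF : ∀ g ∈ F, g ∈ F' := by
    intro g hg
    simp [hF', hg]
  have h1F : (1 : A) ∈ F' := by simp [hF']
  have hinv : ∀ g ∈ F', g⁻¹ ∈ F' := by
    intro g hg
    simp only [hF', Finset.mem_union, Finset.mem_image, Finset.mem_singleton] at hg ⊢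
    rcases hg with (hg | ⟨x, hx, rfl⟩) | rfl
    · exact Or.inl (Or.inr ⟨g, hg, rfl⟩)
    · rw [inv_inv]
      exact Or.inl (Or.inl hx)
    · simp
  obtain ⟨d, hd1, hd2⟩ := exists_seq_of_forall_finset_exists (fun y : A => y⁻¹ ∉ F')
    (fun x y : A => ∀ g ∈ F', g * x⁻¹ ≠ y⁻¹) (by
      intro s _
      obtain ⟨y, hy⟩ := Infinite.exists_notMem_finset
        (F'.image (fun x => x⁻¹) ∪ (F' ×ˢ s).image (fun p : A × A => (p.1 * p.2⁻¹)⁻¹))
      simp only [Finset.mem_union, Finset.mem_image, Finset.mem_product, Prod.exists, not_or,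
        not_exists, not_and] at hy
      refine ⟨y, ?_, ?_⟩
      · intro h
        exact hy.1 y⁻¹ h (inv_inv y)
      · intro x hx g hg h
        exact hy.2 g x ⟨hg, hx⟩ (by rw [h, inv_inv]))
  obtain ⟨a, ha1, ha2⟩ := exists_seq_of_forall_finset_exists
    (fun y : A => y ∉ F' ∧ ∀ g ∈ F', ∀ i ∈ Finset.range m, g * (d i)⁻¹ ≠ y)
    (fun x y : A => (∀ g ∈ F', g * x ≠ y) ∧ ∀ i ∈ Finset.range m, ∀ i' ∈ Finset.range m,
      y ≠ x * d i' * (d i)⁻¹) (by
      intro s _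
      obtain ⟨y, hy⟩ := Infinite.exists_notMem_finset
        (F' ∪ ((F' ×ˢ Finset.range m).image (fun p : A × ℕ => p.1 * (d p.2)⁻¹) ∪
          ((F' ×ˢ s).image (fun p : A × A => p.1 * p.2) ∪
          (s ×ˢ Finset.range m ×ˢ Finset.range m).image
            (fun p : A × ℕ × ℕ => p.1 * d p.2.2 * (d p.2.1)⁻¹))))
      simp only [Finset.mem_union, Finset.mem_image, Finset.mem_product, Prod.exists, not_or,
        not_exists, not_and] at hy
      obtain ⟨h1, h2, h3, h4⟩ := hy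
      refine ⟨y, ⟨h1, ?_⟩, ?_⟩
      · intro g hg i hi h
        exact h2 g i ⟨hg, hi⟩ h
      · intro x hx
        refine ⟨fun g hg h => h3 g x ⟨hg, hx⟩ h, fun i hi i' hi' h => ?_⟩
        exact h4 x i i' ⟨hx, hi, hi'⟩ h.symm)
  have hda : ∀ i j : ℕ, i ≠ j → ∀ g ∈ F', g * (d i)⁻¹ ≠ (d j)⁻¹ := by
    intro i j hij g hg h
    rcases lt_or_gt_of_ne hij with h1 | h1
    · exact hd2 i j h1 g hg h
    · refine hd2 j i h1 g⁻¹ (hinv g hg) ?_
      rw [← h]
      simp
  have haa : ∀ i j : ℕ, i ≠ j → ∀ g ∈ F', g * a i ≠ a j := by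
    intro i j hij g hg h
    rcases lt_or_gt_of_ne hij with h1 | h1
    · exact (ha2 i j h1).1 g hg h
    · refine (ha2 j i h1).1 g⁻¹ (hinv g hg) ?_
      rw [← h]
      simp
  have hpd : ∀ (i : Fin m) (j : ℕ), ∀ g ∈ F', g * (d i)⁻¹ ≠ a j := by
    intro i j g hg
    exact (ha1 j).2 g hg i (Finset.mem_range.2 i.2)
  have hval : ∀ i j : Fin m, i ≠ j → (i : ℕ) ≠ (j : ℕ) := fun i j h h' => h (Fin.ext h')
  refine ⟨fun i => a i, fun i => d i, ?_, ?_, ?_, ?_, ?_⟩
  · intro i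
    refine ⟨fun h => (ha1 i).1 (hFF _ h), fun h => hd1 i (hFF _ h), fun h => ?_⟩
    have h' : a i = 1 := h
    apply (ha1 i).1
    rw [h']
    exact h1F
  · intro i j hij
    refine ⟨fun h => haa i j (hval i j hij) 1 h1F (by rw [one_mul]; exact h), fun h => ?_⟩
    have h' : d i = d j := h
    exact hda i j (hval i j hij) 1 h1F (by rw [one_mul, h'])
  · intro i j h
    exact hpd i j 1 h1F (by rw [one_mul]; exact h.symm)
  · intro g hg i j
    have hg' := hFF g hg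
    refine ⟨fun hij => ⟨haa i j (hval i j hij) g hg', hda i j (hval i j hij) g hg'⟩,
      hpd i j g hg', fun h => ?_⟩
    refine hpd j i g⁻¹ (hinv g hg') ?_
    rw [← h]
    simp
  · intro i j i' j' h
    have hj : j = j' := by
      by_contra hne
      rcases lt_or_gt_of_ne (hval j j' hne) with h1 | h1
      · refine (ha2 j j' h1).2 i' (Finset.mem_range.2 i'.2) i (Finset.mem_range.2 i.2) ?_
        rw [h]
        simp
      · refine (ha2 j' j h1).2 i (Finset.mem_range.2 i.2) i' (Finset.mem_range.2 i'.2) ?_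
        rw [← h]
        simp
    subst hj
    refine ⟨?_, rfl⟩
    by_contra hne
    refine hda i i' (hval i i' hne) 1 h1F ?_
    have h2 : d i = d i' := mul_left_cancel h
    rw [one_mul, h2]

end Pool.Agent.H79.FP
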