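import Pool.Agent.H79.FP.Child
import Pool.Agent.H79.FP.Double

/-!
# Module KAPPA [H79 FP]: at most one selected non-child in every row

PROOF of `kap_le_one`. `X = XX j k`, `|z| ≤ n`, `Good j k n`. Suppose `t ≠ t'` both satisfy
`TR z t`, `z t ∈ X`, `TR z t'`, `z t' ∈ X` (`Finset.card_le_one`). `v = z t`, `v' = z t'`;
`|v|, |v'| < |z| + L` (`len_lt_of_TR`), so every parent of `v`, `v'` (length `|v| - L`) has length
`< n`.
STEP 1: if `z t` is a left child via `σ ∈ Th` and `z t' ∈ X`, `t ≠ t'`, then `Lc σ (z t')` and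
`k ((z t')⁻¹ σ) = some σ⁻¹`. Indeed `z t' ∈ X` by the left route with `σ'`: `σ' = σ` by `a7i`. By the
right route with `τ'`: `Rc τ' v'`, `j (v' τ'⁻¹) = some τ'`; `Lc σ v'` by `a7ii`; by `double` (for
`v', σ, τ'`): (a) `σ = τ'`, `v' = τ'`: `v' τ'⁻¹ = 1`, `j 1 = some τ'`; `root` (here `0 < n` as
`|v' τ'⁻¹| < n`) gives `τ` with `j 1 = some τ`, `k 1 = some τ⁻¹`, so `τ = τ'`, and `v'⁻¹ σ = 1`.
(b) `Sq σ c τ'`, `c = σ⁻¹ v' τ'⁻¹`: `σ c = v' τ'⁻¹`, so `j (σ c) = some τ'`, `|c| + L = |v'| - L < n`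
(`sq_facts`: `CL σ c`, `|σ c| = |v' τ'⁻¹|`), so by `sq`: `k (c τ')⁻¹ = some σ⁻¹`, and
`(c τ')⁻¹ = v'⁻¹ σ`. (c) `Ex (v' τ'⁻¹) τ'`: excluded by `right.val` for `j (v' τ'⁻¹) = some τ'`.
STEP 2: if neither `z t` nor `z t'` is selected by the left route, both are right children: `a6`.
So one of them, say `z t`, is selected by the left route with `σ`: `Lc σ v`, `k (v⁻¹ σ) = some σ⁻¹`.
By Step 1 `Lc σ v'` and `k (v'⁻¹ σ) = some σ⁻¹`. This contradicts `left.conf` (for `S.dual`):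
`S.dual.Conf (v⁻¹ σ) (v'⁻¹ σ) σ⁻¹` with `w := z⁻¹ σ`, `t := t⁻¹`, `t' := t'⁻¹`:
`w * σ⁻¹ = z⁻¹`, `S.dual.TL z⁻¹ t⁻¹` is `S.dual_TL.2`, `v⁻¹ σ = t⁻¹ * (z⁻¹ σ)`, and
`S.dual.CR (v⁻¹ σ) σ⁻¹` is `|v⁻¹| = |v⁻¹ σ| + L`, from `Lc σ v` (`|v⁻¹ σ| = |σ⁻¹ v|`). Lengths:
`|v⁻¹ σ| = |v| - L < n`.
-/

set_option autoImplicit false

namespace Pool.Agent.H79.FP

namespace Sys

variable {Γ : Type*} [Group Γ] (S : Sys Γ)

theorem kap_step {j k : Γ → Option Γ} {n : ℕ} (hG : S.Good j k n) {z t t' σ : Γ}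
    (hz : S.len z ≤ n) (hne : t ≠ t') (ht : S.TR z t) (ht' : S.TR z t') (hσ : σ ∈ S.Th)
    (h : S.Lc σ (z * t)) (h' : z * t' ∈ S.XX j k) :
    S.Lc σ (z * t') ∧ k ((z * t')⁻¹ * σ) = some σ⁻¹ := by
  have hlen := S.len_lt_of_TR ht'
  rcases h' with ⟨τ', hτ', hr, hj⟩ | ⟨σ', hσ', hl, hk⟩
  · have hL : S.Lc σ (z * t') := S.a7ii hne ht ht' hσ h ⟨τ', hτ', hr⟩
    have hr' : S.len (z * t' * τ'⁻¹) + S.L = S.len (z * t') := hr
    have hlt : S.len (z * t' * τ'⁻¹) < n := by omega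
    refine ⟨hL, ?_⟩
    rcases S.double hσ hτ' hL hr with ⟨e1, e2⟩ | hsq | hex
    · obtain ⟨τ, hτ, hj1, hk1⟩ := hG.root (by omega)
      rw [e2, mul_inv_cancel, hj1] at hj
      have e3 : τ = τ' := Option.some.inj hj
      rw [e2, e1, inv_mul_cancel, hk1, e3]
    · have hc := S.sq_facts hσ hτ' hsq
      have hc1 : S.len (σ * (σ⁻¹ * (z * t') * τ'⁻¹)) = S.len (σ⁻¹ * (z * t') * τ'⁻¹) + S.L := hc.1
      have e1 : σ * (σ⁻¹ * (z * t') * τ'⁻¹) = z * t' * τ'⁻¹ := by group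
      rw [e1] at hc1
      have h3 := (hG.sq σ hσ (σ⁻¹ * (z * t') * τ'⁻¹) τ' hτ' hsq (by omega)).1
        (by rw [e1]; exact hj)
      have e2 : (σ⁻¹ * (z * t') * τ'⁻¹ * τ')⁻¹ = (z * t')⁻¹ * σ := by group
      rw [e2] at h3
      exact h3
    · exact absurd hex.1 (hG.right.val _ _ hlt hj).2.2
  · have e := S.a7i ht ht' hσ hσ' h hl
    subst e
    exact ⟨hl, hk⟩

private theorem kap_aux {j k : Γ → Option Γ} {n : ℕ} (hG : S.Good j k n) {z t t' σ : Γ}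
    (hz : S.len z ≤ n) (hne : t ≠ t') (ht : S.TR z t) (ht' : S.TR z t') (hσ : σ ∈ S.Th)
    (h : S.Lc σ (z * t)) (hk : k ((z * t)⁻¹ * σ) = some σ⁻¹) (h' : z * t' ∈ S.XX j k) :
    False := by
  obtain ⟨hl', hk'⟩ := S.kap_step hG hz hne ht ht' hσ h h'
  have h1 := S.len_lt_of_TR ht
  have h2 := S.len_lt_of_TR ht'
  have e1 : S.len ((z * t)⁻¹ * σ) = S.len (σ⁻¹ * (z * t)) := by
    rw [← S.len_inv]
    congr 1
    group
  have e2 : S.len ((z * t')⁻¹ * σ) = S.len (σ⁻¹ * (z * t')) := by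
    rw [← S.len_inv]
    congr 1
    group
  have h3 : S.len (σ⁻¹ * (z * t)) + S.L = S.len (z * t) := h
  have h4 : S.len (σ⁻¹ * (z * t')) + S.L = S.len (z * t') := hl'
  have c1 : S.dual.CR ((z * t)⁻¹ * σ) σ⁻¹ := by
    unfold CR
    rw [dual_len, dual_len, dual_L, mul_inv_cancel_right, S.len_inv, e1]
    exact h3.symm
  have c2 : S.dual.CR ((z * t')⁻¹ * σ) σ⁻¹ := by
    unfold CR
    rw [dual_len, dual_len, dual_L, mul_inv_cancel_right, S.len_inv, e2]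
    exact h4.symm
  have hc : S.dual.Conf ((z * t)⁻¹ * σ) ((z * t')⁻¹ * σ) σ⁻¹ := by
    refine ⟨S.inv_mem_dual_Th.2 hσ, z⁻¹ * σ, t⁻¹, t'⁻¹, ?_, ?_, ?_, ?_, ?_, c1, c2⟩
    · intro he
      exact hne (inv_injective he)
    · rw [mul_inv_cancel_right]
      exact S.dual_TL.2 ht
    · rw [mul_inv_cancel_right]
      exact S.dual_TL.2 ht'
    · group
    · group
  exact hG.left.conf _ _ _ (by rw [dual_len, e1]; omega) (by rw [dual_len, e2]; omega) hc hk hk'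

theorem kap_le_one {j k : Γ → Option Γ} {n : ℕ} (hG : S.Good j k n) {z : Γ}
    (hz : S.len z ≤ n) : S.kap (S.XX j k) z ≤ 1 := by
  classical
  unfold kap
  rw [Finset.card_le_one]
  intro t ht t' ht'
  by_contra hne
  obtain ⟨_, ht, hx⟩ := Finset.mem_filter.1 ht
  obtain ⟨_, ht', hx'⟩ := Finset.mem_filter.1 ht'
  rcases hx with ⟨τ, hτ, hr, hj⟩ | ⟨σ, hσ, hl, hk⟩
  · rcases hx' with ⟨τ', hτ', hr', hj'⟩ | ⟨σ', hσ', hl', hk'⟩
    · exact S.a6 hne ht ht' ⟨τ, hτ, hr⟩ ⟨τ', hτ', hr'⟩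
    · exact S.kap_aux hG hz (Ne.symm hne) ht' ht hσ' hl' hk' (Or.inl ⟨τ, hτ, hr, hj⟩)
  · exact S.kap_aux hG hz hne ht ht' hσ hl hk hx'

end Sys

end Pool.Agent.H79.FP
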