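import Pool.Agent.H79.FP.Defs

/-!
# Module LEAF [H79 FP]: children in terms of the Gromov product (complete)
-/

set_option autoImplicit false

namespace Pool.Agent.H79.FP

namespace Sys

variable {Γ : Type*} [Group Γ] (S : Sys Γ)

theorem CR_iff {z τ : Γ} (h : τ ∈ S.Th) : S.CR z τ ↔ S.p z⁻¹ τ = 0 := by
  have h1 := S.pe z⁻¹ τ
  rw [inv_inv, S.len_inv, S.hTh τ h] at h1
  unfold CR
  omega

theorem CL_iff {σ z : Γ} (h : σ ∈ S.Th) : S.CL σ z ↔ S.p σ⁻¹ z = 0 := by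
  have h1 := S.pe σ⁻¹ z
  rw [inv_inv, S.len_inv, S.hTh σ h] at h1
  unfold CL
  omega

theorem Lc_iff {σ v : Γ} (h : σ ∈ S.Th) : S.Lc σ v ↔ S.p σ v = 2 * S.L := by
  have h1 := S.pe σ v
  rw [S.hTh σ h] at h1
  unfold Lc
  omega

theorem Rc_iff {τ v : Γ} (h : τ ∈ S.Th) : S.Rc τ v ↔ S.p v⁻¹ τ⁻¹ = 2 * S.L := by
  have h1 := S.pe v⁻¹ τ⁻¹
  rw [inv_inv, S.len_inv, S.len_inv, S.hTh τ h] at h1
  unfold Rc
  omega

/-- `R < L` etc. -/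
theorem two_R_lt : 2 * S.R < S.L := by
  have := S.hL
  omega

theorem L_pos : 0 < S.L := by
  have := S.hL
  omega

/-- At most one `τ` with `z τ` not a right child. -/
theorem leafR_unique {z τ τ' : Γ} (h1 : τ ∈ S.Th) (h2 : τ' ∈ S.Th) (h3 : ¬ S.CR z τ)
    (h4 : ¬ S.CR z τ') : τ = τ' := by
  by_contra hne
  rw [S.CR_iff h1] at h3
  rw [S.CR_iff h2] at h4
  have h5 : 0 < S.p τ τ' :=
    S.p_pos (y := z⁻¹) (by rw [S.p_comm]; omega) (by omega)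
  have h6 := (S.th2 τ h1 τ' h2 hne).1
  unfold p at h5
  omega

/-- At most one `σ` with `σ z` not a left child. -/
theorem leafL_unique {z σ σ' : Γ} (h1 : σ ∈ S.Th) (h2 : σ' ∈ S.Th) (h3 : ¬ S.CL σ z)
    (h4 : ¬ S.CL σ' z) : σ = σ' := by
  by_contra hne
  rw [S.CL_iff h1] at h3
  rw [S.CL_iff h2] at h4
  have h5 : 0 < S.p σ⁻¹ σ'⁻¹ :=
    S.p_pos (y := z) (by omega) (by rw [S.p_comm]; omega)
  have h6 := (S.th2 σ h1 σ' h2 hne).2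
  unfold p at h5
  omega

/-- `σ` is determined by `v` if `p σ v > 0`. -/
theorem headL_unique {v σ σ' : Γ} (h1 : σ ∈ S.Th) (h2 : σ' ∈ S.Th) (h3 : 0 < S.p σ v)
    (h4 : 0 < S.p σ' v) : σ = σ' := by
  by_contra hne
  have h5 : 0 < S.p σ σ' := S.p_pos (y := v) h3 (by rw [S.p_comm]; exact h4)
  have h6 := (S.th2 σ h1 σ' h2 hne).1
  unfold p at h5
  omega

/-- `τ` is determined by `v` if `p v⁻¹ τ⁻¹ > 0`. -/
theorem headR_unique {v τ τ' : Γ} (h1 : τ ∈ S.Th) (h2 : τ' ∈ S.Th) (h3 : 0 < S.p v⁻¹ τ⁻¹)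
    (h4 : 0 < S.p v⁻¹ τ'⁻¹) : τ = τ' := by
  by_contra hne
  have h5 : 0 < S.p τ⁻¹ τ'⁻¹ := S.p_pos (y := v⁻¹) (by rw [S.p_comm]; exact h3) h4
  have h6 := (S.th2 τ h1 τ' h2 hne).2
  unfold p at h5
  omega

theorem Rc_unique {v τ τ' : Γ} (h1 : τ ∈ S.Th) (h2 : τ' ∈ S.Th) (h3 : S.Rc τ v)
    (h4 : S.Rc τ' v) : τ = τ' := by
  rw [S.Rc_iff h1] at h3
  rw [S.Rc_iff h2] at h4
  have := S.L_pos
  exact S.headR_unique (v := v) h1 h2 (by omega) (by omega)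

theorem Lc_unique {v σ σ' : Γ} (h1 : σ ∈ S.Th) (h2 : σ' ∈ S.Th) (h3 : S.Lc σ v)
    (h4 : S.Lc σ' v) : σ = σ' := by
  rw [S.Lc_iff h1] at h3
  rw [S.Lc_iff h2] at h4
  have := S.L_pos
  exact S.headL_unique (v := v) h1 h2 (by omega) (by omega)

/-- `z τ` is a right child of `z`. -/
theorem Rc_of_CR {z τ : Γ} (h : S.CR z τ) : S.Rc τ (z * τ) := by
  unfold Rc
  rw [mul_inv_cancel_right]
  exact h.symm

theorem Lc_of_CL {σ z : Γ} (h : S.CL σ z) : S.Lc σ (σ * z) := by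
  unfold Lc
  rw [inv_mul_cancel_left]
  exact h.symm

theorem CR_of_Rc {v τ : Γ} (h : S.Rc τ v) : S.CR (v * τ⁻¹) τ := by
  unfold CR
  rw [inv_mul_cancel_right]
  exact h.symm

theorem CL_of_Lc {σ v : Γ} (h : S.Lc σ v) : S.CL σ (σ⁻¹ * v) := by
  unfold CL
  rw [mul_inv_cancel_left]
  exact h.symm

theorem len_mul_Th {z τ : Γ} (h : τ ∈ S.Th) : S.len (z * τ) ≤ S.len z + S.L := by
  have h1 := S.len_mul z τ
  rw [S.hTh τ h] at h1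
  exact h1

theorem len_Th_mul {σ z : Γ} (h : σ ∈ S.Th) : S.len (σ * z) ≤ S.len z + S.L := by
  have h1 := S.len_mul σ z
  rw [S.hTh σ h] at h1
  omega

theorem len_mul_E {z t : Γ} (h : t ∈ S.E) : S.len (z * t) ≤ S.len z + S.R := by
  have h1 := S.len_mul z t
  have h2 := S.hE t h
  omega

theorem len_E_mul {z t : Γ} (h : t ∈ S.E) : S.len (t * z) ≤ S.len z + S.R := by
  have h1 := S.len_mul t z
  have h2 := S.hE t h
  omega

theorem len_le_mul_E {z t : Γ} (h : t ∈ S.E) : S.len z ≤ S.len (z * t) + S.R := by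
  have h1 := S.len_mul (z * t) t⁻¹
  rw [mul_inv_cancel_right, S.len_inv] at h1
  have h2 := S.hE t h
  omega

theorem len_le_E_mul {z t : Γ} (h : t ∈ S.E) : S.len z ≤ S.len (t * z) + S.R := by
  have h1 := S.len_mul t⁻¹ (t * z)
  rw [inv_mul_cancel_left, S.len_inv] at h1
  have h2 := S.hE t h
  omega

/-- The row elements that are not right children of `z` are shorter than `|z| + L`. -/
theorem len_lt_of_TR {z t : Γ} (h : S.TR z t) : S.len (z * t) < S.len z + S.L := by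
  have h0 := S.two_R_lt
  rcases h with h | ⟨h, h'⟩
  · have h1 := S.len_mul_E (z := z) h
    omega
  · have h1 := S.len_mul_Th (z := z) h
    unfold CR at h'
    omega

theorem len_lt_of_TL {z t : Γ} (h : S.TL z t) : S.len (t * z) < S.len z + S.L := by
  have h0 := S.two_R_lt
  rcases h with h | ⟨h, h'⟩
  · have h1 := S.len_E_mul (z := z) h
    omega
  · have h1 := S.len_Th_mul (z := z) h
    unfold CL at h'
    omega

/-- If `t w τ` has no cancellation at `τ` and `t` is a bad leaf of `w τ`, then `t` is a bad leaf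
of `w`. -/
theorem push {w t τ : Γ} (ht : t ∈ S.Th) (hτ : τ ∈ S.Th) (h1 : S.CR (t * w) τ)
    (h2 : ¬ S.CL t (w * τ)) : ¬ S.CL t w := by
  intro h3
  apply h2
  unfold CR at h1
  unfold CL at h3 ⊢
  have h4 := S.len_mul_Th (z := w) hτ
  have h5 := S.len_Th_mul (z := w * τ) ht
  rw [mul_assoc] at h1
  omega

theorem InW_E {g : Γ} (h : g ∈ S.E) : InW S.E g := Or.inl h

theorem InW_E_inv {g : Γ} (h : g ∈ S.E) : InW S.E g⁻¹ := Or.inr (Or.inl (by rwa [inv_inv]))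

theorem InW_inv_mul {e f : Γ} (he : e ∈ S.E) (hf : f ∈ S.E) : InW S.E (e⁻¹ * f) :=
  Or.inr (Or.inr (Or.inl ⟨e, he, f, hf, rfl⟩))

theorem InW_mul_inv {e f : Γ} (he : e ∈ S.E) (hf : f ∈ S.E) : InW S.E (e * f⁻¹) :=
  Or.inr (Or.inr (Or.inr ⟨e, he, f, hf, rfl⟩))

theorem p_th2 {σ τ : Γ} (h1 : σ ∈ S.Th) (h2 : τ ∈ S.Th) (h3 : σ ≠ τ) :
    S.p σ τ = 0 ∧ S.p σ⁻¹ τ⁻¹ = 0 := S.th2 σ h1 τ h2 h3

theorem p_th3 {σ τ : Γ} (h1 : σ ∈ S.Th) (h2 : τ ∈ S.Th) : S.p σ⁻¹ τ = 0 ∧ S.p σ τ⁻¹ = 0 :=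
  S.th3 σ h1 τ h2

theorem p_th4 {g τ : Γ} (h1 : InW S.E g) (h2 : τ ∈ S.Th) : S.p g τ = 0 ∧ S.p g τ⁻¹ = 0 :=
  S.th4 g h1 τ h2

theorem p_th4' {g σ τ : Γ} (h1 : InW S.E g) (h2 : S.len g = 0) (h3 : g ≠ 1) (h4 : σ ∈ S.Th)
    (h5 : τ ∈ S.Th) : S.p (g * σ) τ = 0 ∧ S.p (g * σ⁻¹) τ⁻¹ = 0 ∧ S.p (g * σ⁻¹) τ = 0 ∧
      S.p (g * σ) τ⁻¹ = 0 := S.th4' g h1 h2 h3 σ h4 τ h5

end Sys

end Pool.Agent.H79.FP
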