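import Pool.Agent.H79.FP.NF

/-!
# Module LENF [H79 FP]: the length of x⁻¹ y in a free product

`clen g = 2 r` if `g = a₀ b₁ a₁ ... b_r a_r` in normal form. `tk` lists the letters
`a₀, b₁, a₁, ..., b_r` (the last `a_r` is dropped); `lcp` is the length of the longest common prefix.

PROOF of `clen_ev`: `ev_inj` and the specification of `nfl`, `nfc`.
PROOF of `clen_inl_mul`: for reduced `l`, `inl a * ev l c` is `ev` of `l` with the first letter
multiplied by `a` (resp. `ev [] (a c)`), a reduced list of the same length.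
PROOF of `concat` (induction on `l`, `l'` and `b` arbitrary; `Red1 l`, `Red1 l'`, `b ≠ 1`):
`l = []`: `(inl c)⁻¹ * inr b * ev l' c' = ev ((c⁻¹, b) :: l') c'`, reduced by `red_cons`.
`l = (a₀,b₁) :: l₁`: `(ev l c)⁻¹ = (ev l₁ c)⁻¹ * (inr b₁)⁻¹ * (inl a₀)⁻¹`, so the product is
`(ev l₁ c)⁻¹ * inr b₁⁻¹ * ev ((a₀⁻¹, b) :: l') c'`, `Red1 ((a₀⁻¹,b) :: l')`, `b₁⁻¹ ≠ 1`; induction.
PROOF of `len_formula` (induction on `l`, `l'` arbitrary).
`l = []`: `lcp = 0`, `clen_inl_mul` with `a = c⁻¹`.
`l = (a₀,b₁) :: l₁`, `l' = []`: `(ev l c)⁻¹ * inl c' = (ev l₁ c)⁻¹ * inr b₁⁻¹ * ev [] (a₀⁻¹ c')`: `concat`.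
`l = (a₀,b₁) :: l₁`, `l' = (a₀',b₁') :: l₁'`: if `a₀ ≠ a₀'`: `lcp = 0` and the product is
`(ev l₁ c)⁻¹ * inr b₁⁻¹ * ev ((a₀⁻¹ a₀', b₁') :: l₁') c'`: `concat`. If `a₀ = a₀'`, `b₁ ≠ b₁'`: `lcp = 1`,
the product is `(ev l₁ c)⁻¹ * inr (b₁⁻¹ b₁') * ev l₁' c'`: `concat`. If both are equal: the product is
`(ev l₁ c)⁻¹ * ev l₁' c'`, `lcp = 2 + lcp (tk l₁) (tk l₁')`: induction (`Red1.red`).
-/

set_option autoImplicit false

open scoped Classical

namespace Pool.Agent.H79.FP

open Monoid

/-- Length of the longest common prefix. -/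
noncomputable def lcp {α : Type*} : List α → List α → ℕ
  | [], _ => 0
  | _ :: _, [] => 0
  | x :: l, y :: l' => if x = y then lcp l l' + 1 else 0

variable {A B : Type*} [Group A] [Group B]

/-- The letters `a₀, b₁, a₁, ..., b_r`. -/
def tk : List (A × B) → List (A ⊕ B)
  | [] => []
  | q :: l => Sum.inl q.1 :: Sum.inr q.2 :: tk l

/-- The list of the normal form. -/
noncomputable def nfl (g : Coprod A B) : List (A × B) := (ev_surj g).choose

/-- The last letter of the normal form. -/
noncomputable def nfc (g : Coprod A B) : A := (ev_surj g).choose_spec.choose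

/-- The length: twice the number of letters from `B`. -/
noncomputable def clen (g : Coprod A B) : ℕ := 2 * (nfl g).length

theorem nf_spec (g : Coprod A B) : Red (nfl g) ∧ ev (nfl g) (nfc g) = g :=
  (ev_surj g).choose_spec.choose_spec

theorem nfl_ev {l : List (A × B)} (h : Red l) (c : A) : nfl (ev l c) = l :=
  (ev_inj (nf_spec (ev l c)).1 h (nf_spec (ev l c)).2).1

theorem nfc_ev {l : List (A × B)} (h : Red l) (c : A) : nfc (ev l c) = c :=
  (ev_inj (nf_spec (ev l c)).1 h (nf_spec (ev l c)).2).2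

theorem clen_ev {l : List (A × B)} (h : Red l) (c : A) : clen (ev l c) = 2 * l.length := by
  unfold clen
  rw [nfl_ev h]

theorem clen_inl_mul {l : List (A × B)} (h : Red l) (a c : A) :
    clen (Coprod.inl a * ev l c) = 2 * l.length := by
  cases l with
  | nil =>
    rw [ev_nil, ← map_mul, ← ev_nil, clen_ev h]
  | cons q l =>
    have h1 : Coprod.inl a * ev (q :: l) c = ev ((a * q.1, q.2) :: l) c := by
      rw [ev_cons, ev_cons, map_mul]
      simp only [mul_assoc]
    have h2 : Red ((a * q.1, q.2) :: l) := red_cons.2 ⟨(red_cons.1 h).1, (red_cons.1 h).2⟩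
    rw [h1, clen_ev h2]
    rfl

theorem concat {l l' : List (A × B)} (h : Red1 l) (h' : Red1 l') {b : B} (hb : b ≠ 1)
    (c c' : A) :
    clen ((ev l c)⁻¹ * Coprod.inr b * ev l' c') = 2 * (l.length + l'.length + 1) := by
  induction l generalizing l' b with
  | nil =>
    have h1 : (ev ([] : List (A × B)) c)⁻¹ * Coprod.inr b * ev l' c' =
        ev ((c⁻¹, b) :: l') c' := by
      rw [ev_cons, ev_nil, map_inv]
    rw [h1, clen_ev (red_cons.2 ⟨hb, h'⟩), List.length_cons, List.length_nil]
    ring
  | cons q l ih =>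
    have h2 := h q (by simp)
    have h1 : (ev (q :: l) c)⁻¹ * Coprod.inr b * ev l' c' =
        (ev l c)⁻¹ * Coprod.inr q.2⁻¹ * ev ((q.1⁻¹, b) :: l') c' := by
      rw [ev_cons, ev_cons, map_inv, map_inv, mul_inv_rev, mul_inv_rev]
      simp only [mul_assoc]
    have h3 : Red1 ((q.1⁻¹, b) :: l') := by
      intro x hx
      rcases List.mem_cons.1 hx with rfl | hx
      · exact ⟨inv_ne_one.2 h2.1, hb⟩
      · exact h' x hx
    rw [h1, ih (fun x hx => h x (List.mem_cons_of_mem _ hx)) h3 (inv_ne_one.2 h2.2),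
      List.length_cons, List.length_cons]
    ring

theorem len_formula {l l' : List (A × B)} (h : Red l) (h' : Red l') (c c' : A) :
    clen ((ev l c)⁻¹ * ev l' c') + 2 * lcp (tk l) (tk l') = 2 * l.length + 2 * l'.length := by
  induction l generalizing l' with
  | nil =>
    have h1 : (ev ([] : List (A × B)) c)⁻¹ * ev l' c' = Coprod.inl c⁻¹ * ev l' c' := by
      rw [ev_nil, map_inv]
    rw [h1, clen_inl_mul h']
    simp [tk, lcp]
  | cons q l ih =>
    obtain ⟨a, b⟩ := q
    have h2 := red_cons.1 h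
    cases l' with
    | nil =>
      have h1 : (ev ((a, b) :: l) c)⁻¹ * ev ([] : List (A × B)) c' =
          (ev l c)⁻¹ * Coprod.inr b⁻¹ * ev ([] : List (A × B)) (a⁻¹ * c') := by
        rw [ev_cons, ev_nil, ev_nil, map_mul, map_inv, map_inv, mul_inv_rev, mul_inv_rev]
        simp only [mul_assoc]
      rw [h1, concat h2.2 (by intro x hx; simp at hx) (inv_ne_one.2 h2.1)]
      simp [tk, lcp]
    | cons q' l' =>
      obtain ⟨a', b'⟩ := q'
      have h2' := red_cons.1 h'
      by_cases ha : a = a'
      · subst ha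
        by_cases hb : b = b'
        · subst hb
          have h1 : (ev ((a, b) :: l) c)⁻¹ * ev ((a, b) :: l') c' =
              (ev l c)⁻¹ * ev l' c' := by
            rw [ev_cons, ev_cons]
            group
          have h3 := ih h2.2.red h2'.2.red
          rw [h1]
          simp only [tk, lcp, if_true, List.length_cons]
          omega
        · have h1 : (ev ((a, b) :: l) c)⁻¹ * ev ((a, b') :: l') c' =
              (ev l c)⁻¹ * Coprod.inr (b⁻¹ * b') * ev l' c' := by
            rw [ev_cons, ev_cons, map_mul, map_inv]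
            group
          have h3 : b⁻¹ * b' ≠ 1 := by
            intro h4
            exact hb (inv_mul_eq_one.1 h4)
          have h4 : (Sum.inr b : A ⊕ B) ≠ Sum.inr b' := by
            intro h5
            exact hb (Sum.inr_injective h5)
          rw [h1, concat h2.2 h2'.2 h3]
          simp only [tk, lcp, if_true, if_neg h4, List.length_cons]
          omega
      · have h1 : (ev ((a, b) :: l) c)⁻¹ * ev ((a', b') :: l') c' =
            (ev l c)⁻¹ * Coprod.inr b⁻¹ * ev ((a⁻¹ * a', b') :: l') c' := by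
          rw [ev_cons, ev_cons, ev_cons, map_mul, map_inv, map_inv]
          group
        have h3 : Red1 ((a⁻¹ * a', b') :: l') := by
          intro x hx
          rcases List.mem_cons.1 hx with rfl | hx
          · exact ⟨fun h4 => ha (inv_mul_eq_one.1 h4), h2'.1⟩
          · exact h2'.2 x hx
        have h4 : (Sum.inl a : A ⊕ B) ≠ Sum.inl a' := by
          intro h5
          exact ha (Sum.inl_injective h5)
        rw [h1, concat h2.2 h3 (inv_ne_one.2 h2.1)]
        simp only [tk, lcp, if_neg h4, List.length_cons]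
        omega

end Pool.Agent.H79.FP
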