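import Pool.Agent.H79.FP.Step

/-!
# Module LIM [H79 FP]: the limit

PROOF of `lim`. `Good j k 0` holds trivially (all `< 0`). By recursion (`Nat.rec` on the subtype
`{q : (Γ → Option Γ) × (Γ → Option Γ) // Good q.1 q.2 n}`, or `exists_seq`-like lemma) get
`J n = (j_n, k_n)` with `Good j_n k_n n` and `j_{n+1} = j_n`, `k_{n+1} = k_n` on length `< n`, so
`j_m = j_n` on length `< n` for `m ≥ n`. Put `j u := j_{|u|+1} u`, `k` similarly; `j = j_n` on length
`< n`; `Good_congr`.
-/

set_option autoImplicit false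

open scoped Classical

namespace Pool.Agent.H79.FP

namespace Sys

variable {Γ : Type*} [Group Γ] (S : Sys Γ)

theorem lim : ∃ j k : Γ → Option Γ, ∀ n, S.Good j k n := by
  have base : S.Good (fun _ => none) (fun _ => none) 0 :=
    { right := ⟨fun z τ h => absurd h (Nat.not_lt_zero _), fun z h => absurd h (Nat.not_lt_zero _),
        fun u u' τ h => absurd h (Nat.not_lt_zero _)⟩
      left := ⟨fun z τ h => absurd h (Nat.not_lt_zero _), fun z h => absurd h (Nat.not_lt_zero _),
        fun u u' τ h => absurd h (Nat.not_lt_zero _)⟩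
      sq := fun σ hσ c τ hτ h1 h2 => absurd h2 (Nat.not_lt_zero _)
      root := fun h => absurd h (Nat.lt_irrefl 0) }
  have hstep : ∀ (n : ℕ) (q : {q : (Γ → Option Γ) × (Γ → Option Γ) // S.Good q.1 q.2 n}),
      ∃ q' : {q : (Γ → Option Γ) × (Γ → Option Γ) // S.Good q.1 q.2 (n + 1)},
        (∀ u, S.len u < n → q'.1.1 u = q.1.1 u) ∧ (∀ u, S.len u < n → q'.1.2 u = q.1.2 u) := by
    intro n q
    obtain ⟨j', k', h1, h2, h3⟩ := S.step q.2
    exact ⟨⟨(j', k'), h1⟩, h2, h3⟩
  choose F hF1 hF2 using hstep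
  let J : ∀ n : ℕ, {q : (Γ → Option Γ) × (Γ → Option Γ) // S.Good q.1 q.2 n} :=
    fun n => Nat.rec (motive := fun n => {q : (Γ → Option Γ) × (Γ → Option Γ) // S.Good q.1 q.2 n})
      ⟨(fun _ => none, fun _ => none), base⟩ (fun n q => F n q) n
  have hJ : ∀ n, J (n + 1) = F n (J n) := fun n => rfl
  have h1 : ∀ n m, n ≤ m → ∀ u, S.len u < n →
      (J m).1.1 u = (J n).1.1 u ∧ (J m).1.2 u = (J n).1.2 u := by
    intro n m hnm
    induction m, hnm using Nat.le_induction with
    | base => exact fun u _ => ⟨rfl, rfl⟩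
    | succ m hm ih =>
      intro u hu
      rw [hJ m, hF1 m (J m) u (by omega), hF2 m (J m) u (by omega)]
      exact ih u hu
  refine ⟨fun u => (J (S.len u + 1)).1.1 u, fun u => (J (S.len u + 1)).1.2 u, fun n => ?_⟩
  refine S.Good_congr (fun z hz => ?_) (fun z hz => ?_) (J n).2
  · exact (h1 (S.len z + 1) n hz z (Nat.lt_succ_self _)).1
  · exact (h1 (S.len z + 1) n hz z (Nat.lt_succ_self _)).2

end Sys

end Pool.Agent.H79.FP
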