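import Pool.Agent.H79.FP.Leaf

/-!
# Module LOCAL [H79 FP]: dependence on the choices at short elements only

PROOF of `XX_congr`. `v ∈ XX j k` uses `j` at `v τ⁻¹` with `|v τ⁻¹| + L = |v| < n + L` and `k` at
`v⁻¹ σ` with `|v⁻¹ σ| = |σ⁻¹ v|`, `|σ⁻¹ v| + L = |v|`. `kap_congr`: the filter sets are equal, by
`len_lt_of_TR` (`|z t| < |z| + L ≤ n + L`) and `XX_congr`. `GoodR_congr`: `val`, `conf` directly; `req`:
`kap_congr`. `Good_congr`: `GoodR_congr` for `S` and for `S.dual` (lengths are the same,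
definitionally); `sq`: `|σ c| ≤ |c| + L < n` and `|(c τ)⁻¹| ≤ |c| + L < n`; `root`: `|1| = 0 < n`.
-/

set_option autoImplicit false

namespace Pool.Agent.H79.FP

namespace Sys

variable {Γ : Type*} [Group Γ] (S : Sys Γ)

theorem XX_congr {j k j' k' : Γ → Option Γ} {n : ℕ} (hj : ∀ z, S.len z < n → j z = j' z)
    (hk : ∀ z, S.len z < n → k z = k' z) {v : Γ} (hv : S.len v < n + S.L) :
    v ∈ S.XX j k ↔ v ∈ S.XX j' k' := by
  have h1 : ∀ τ, S.Rc τ v → j (v * τ⁻¹) = j' (v * τ⁻¹) := by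
    intro τ h
    unfold Rc at h
    exact hj _ (by omega)
  have h2 : ∀ σ, S.Lc σ v → k (v⁻¹ * σ) = k' (v⁻¹ * σ) := by
    intro σ h
    unfold Lc at h
    apply hk
    have h3 : v⁻¹ * σ = (σ⁻¹ * v)⁻¹ := by group
    rw [h3, S.len_inv]
    omega
  unfold XX
  simp only [Set.mem_ofPred_eq]
  constructor
  · rintro (⟨τ, h3, h4, h5⟩ | ⟨σ, h3, h4, h5⟩)
    · exact Or.inl ⟨τ, h3, h4, (h1 τ h4) ▸ h5⟩
    · exact Or.inr ⟨σ, h3, h4, (h2 σ h4) ▸ h5⟩
  · rintro (⟨τ, h3, h4, h5⟩ | ⟨σ, h3, h4, h5⟩)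
    · exact Or.inl ⟨τ, h3, h4, (h1 τ h4).symm ▸ h5⟩
    · exact Or.inr ⟨σ, h3, h4, (h2 σ h4).symm ▸ h5⟩

theorem kap_congr {j k j' k' : Γ → Option Γ} {n : ℕ} (hj : ∀ z, S.len z < n → j z = j' z)
    (hk : ∀ z, S.len z < n → k z = k' z) {z : Γ} (hz : S.len z ≤ n) :
    S.kap (S.XX j k) z = S.kap (S.XX j' k') z := by
  unfold kap
  congr 1
  ext t
  simp only [Finset.mem_filter]
  constructor
  · rintro ⟨h0, h1, h2⟩
    have h3 := S.len_lt_of_TR h1
    exact ⟨h0, h1, (S.XX_congr hj hk (by omega)).1 h2⟩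
  · rintro ⟨h0, h1, h2⟩
    have h3 := S.len_lt_of_TR h1
    exact ⟨h0, h1, (S.XX_congr hj hk (by omega)).2 h2⟩

theorem GoodR_congr {j k j' k' : Γ → Option Γ} {n : ℕ} (hj : ∀ z, S.len z < n → j z = j' z)
    (hk : ∀ z, S.len z < n → k z = k' z) (h : S.GoodR j k n) : S.GoodR j' k' n where
  val := by
    intro z τ hz h1
    exact h.val z τ hz (by rw [hj z hz]; exact h1)
  req := by
    intro z hz
    rw [← S.kap_congr hj hk hz.le, ← hj z hz]
    exact h.req z hz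
  conf := by
    intro u u' τ hu hu' hc h1
    rw [← hj u' hu']
    exact h.conf u u' τ hu hu' hc (by rw [hj u hu]; exact h1)

theorem Good_congr {j k j' k' : Γ → Option Γ} {n : ℕ} (hj : ∀ z, S.len z < n → j z = j' z)
    (hk : ∀ z, S.len z < n → k z = k' z) (h : S.Good j k n) : S.Good j' k' n where
  right := S.GoodR_congr hj hk h.right
  left := S.dual.GoodR_congr (n := n) (fun z hz => hk z hz) (fun z hz => hj z hz) h.left
  sq := by
    intro σ hσ c τ hτ h1 h2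
    have h3 := S.len_Th_mul (z := c) hσ
    have h4 := S.len_mul_Th (z := c) hτ
    rw [← hj (σ * c) (by omega), ← hk (c * τ)⁻¹ (by rw [S.len_inv]; omega)]
    exact h.sq σ hσ c τ hτ h1 h2
  root := by
    intro h0
    obtain ⟨τ, h1, h2, h3⟩ := h.root h0
    refine ⟨τ, h1, ?_, ?_⟩
    · rw [← hj 1 (by rw [S.len_one]; exact h0)]
      exact h2
    · rw [← hk 1 (by rw [S.len_one]; exact h0)]
      exact h3

end Sys

end Pool.Agent.H79.FP
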