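import Mathlib

/-!
# Module NF [H79 FP]: normal forms in the free product of two groups (Mathlib only)

`ev [(a₀,b₁), (a₁,b₂), ..., (a_{r-1},b_r)] c = a₀ b₁ a₁ b₂ ... a_{r-1} b_r c` in
`Monoid.Coprod A B`. `Red l`: all `b ≠ 1` and all `a ≠ 1` except possibly the first one (the final
letter `c ∈ A` is arbitrary). Every element is `ev l c` for exactly one reduced `l` and one `c`.

PROOF (van der Waerden). `NF := {x : List (A × B) × A // Red x.1}`.
`A` acts on `NF`: `a • ([], c) = ([], a c)`, `a • ((a₀,b) :: l, c) = ((a a₀, b) :: l, c)` (a `MulAction`).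
`B` acts: for `x = (l, c)` let `β x = b₁`, `ρ x = (l₁, c)` if `l = (1, b₁) :: l₁`, and `β x = 1`, `ρ x = x`
otherwise. `ρ x` lies in `NF' = {(l, c) : l = [] or the first a of l is ≠ 1}`. For `y ∈ NF'` let
`mk b y = y` if `b = 1`, `mk b y = ((1, b) :: y.l, y.c)` if `b ≠ 1` (reduced). Then `β (mk b y) = b`,
`ρ (mk b y) = y` for `y ∈ NF'`, and `mk (β x) (ρ x) = x`. `b • x := mk (b * β x) (ρ x)` is an action.
With `MulAction.toPermHom` and `Monoid.Coprod.lift` this gives `Φ : Coprod A B →* Equiv.Perm NF`,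
`Φ (inl a) x = a • x`, `Φ (inr b) x = b • x`.
(1) `ev (Φ g x) = g * ev x` for all `g`, `x` (where `ev x = ev x.l x.c`): true for `g = inl a` and for
`g = inr b` (`ev x = inr (β x) * ev (ρ x)`, `ev (mk b y) = inr b * ev y`), closed under products
(`Monoid.Coprod.induction_on`). With `x = ([], 1)`: `ev (Φ g ([],1)) = g`: this is `ev_surj`.
(2) `Φ (ev l c) ([], 1) = (l, c)` for reduced `l`, by induction on `l`: `Φ (inl c) ([],1) = ([], c)`; for
`(a₀,b) :: l`: `l` is reduced with first letter `≠ 1`, so `(l, c) ∈ NF'`, `b • (l, c) = ((1,b) :: l, c)`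
(`b ≠ 1`) and `a₀ • ((1,b) :: l, c) = ((a₀,b) :: l, c)`. This gives `ev_inj`.
-/

set_option autoImplicit false

open scoped Classical

namespace Pool.Agent.H79.FP

open Monoid

variable {A B : Type*} [Group A] [Group B]

/-- The element `a₀ b₁ a₁ b₂ ... a_{r-1} b_r c`. -/
def ev : List (A × B) → A → Coprod A B
  | [], c => Coprod.inl c
  | q :: l, c => Coprod.inl q.1 * Coprod.inr q.2 * ev l c

/-- Reduced lists: all `b ≠ 1`, and all `a ≠ 1` except possibly the first one. -/
def Red (l : List (A × B)) : Prop := (∀ q ∈ l, q.2 ≠ 1) ∧ (∀ q ∈ l.tail, q.1 ≠ 1)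

/-- Reduced lists with first `a ≠ 1`. -/
def Red1 (l : List (A × B)) : Prop := ∀ q ∈ l, q.1 ≠ 1 ∧ q.2 ≠ 1

theorem Red1.red {l : List (A × B)} (h : Red1 l) : Red l :=
  ⟨fun q hq => (h q hq).2, fun q hq => (h q (List.mem_of_mem_tail hq)).1⟩

theorem red_nil : Red ([] : List (A × B)) := by
  constructor <;> intro q hq <;> simp at hq

theorem red_cons {q : A × B} {l : List (A × B)} : Red (q :: l) ↔ q.2 ≠ 1 ∧ Red1 l := by
  unfold Red Red1
  constructor
  · rintro ⟨h1, h2⟩
    exact ⟨h1 q (by simp), fun x hx => ⟨h2 x (by simpa using hx), h1 x (by simp [hx])⟩⟩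
  · rintro ⟨h1, h2⟩
    refine ⟨?_, fun x hx => (h2 x (by simpa using hx)).1⟩
    intro x hx
    rcases List.mem_cons.1 hx with rfl | hx
    · exact h1
    · exact (h2 x hx).2

theorem ev_nil (c : A) : ev ([] : List (A × B)) c = Coprod.inl c := rfl

theorem ev_cons (q : A × B) (l : List (A × B)) (c : A) :
    ev (q :: l) c = Coprod.inl q.1 * Coprod.inr q.2 * ev l c := rfl

/-- The first letter of `B`. -/
noncomputable def nfBeta : List (A × B) → B
  | [] => 1
  | q :: _ => if q.1 = 1 then q.2 else 1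

/-- The rest. -/
noncomputable def nfRho : List (A × B) → List (A × B)
  | [] => []
  | q :: l => if q.1 = 1 then l else q :: l

theorem nfBeta_cons (q : A × B) (l : List (A × B)) :
    nfBeta (q :: l) = if q.1 = 1 then q.2 else 1 := rfl

theorem nfRho_cons (q : A × B) (l : List (A × B)) :
    nfRho (q :: l) = if q.1 = 1 then l else q :: l := rfl

/-- Put a letter of `B` in front. -/
noncomputable def nfMk (b : B) (l : List (A × B)) : List (A × B) := if b = 1 then l else (1, b) :: l

theorem nf_rho {l : List (A × B)} (h : Red l) : Red1 (nfRho l) := by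
  cases l with
  | nil =>
    intro q hq
    simp [nfRho] at hq
  | cons q l =>
    obtain ⟨h1, h2⟩ := red_cons.1 h
    rw [nfRho_cons]
    split_ifs with h3
    · exact h2
    · intro x hx
      rcases List.mem_cons.1 hx with rfl | hx
      · exact ⟨h3, h1⟩
      · exact h2 x hx

theorem nf_mk {l : List (A × B)} (h : Red1 l) (b : B) : Red (nfMk b l) := by
  unfold nfMk
  split_ifs with h1
  · exact h.red
  · exact red_cons.2 ⟨h1, h⟩

theorem nf_beta1 {l : List (A × B)} (h : Red1 l) : nfBeta l = 1 := by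
  cases l with
  | nil => rfl
  | cons q l =>
    rw [nfBeta_cons, if_neg (h q (by simp)).1]

theorem nf_rho1 {l : List (A × B)} (h : Red1 l) : nfRho l = l := by
  cases l with
  | nil => rfl
  | cons q l =>
    rw [nfRho_cons, if_neg (h q (by simp)).1]

theorem nf_beta_mk {l : List (A × B)} (h : Red1 l) (b : B) : nfBeta (nfMk b l) = b := by
  unfold nfMk
  split_ifs with h1
  · rw [nf_beta1 h, h1]
  · rw [nfBeta_cons, if_pos rfl]

theorem nf_rho_mk {l : List (A × B)} (h : Red1 l) (b : B) : nfRho (nfMk b l) = l := by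
  unfold nfMk
  split_ifs with h1
  · exact nf_rho1 h
  · rw [nfRho_cons, if_pos rfl]

theorem nf_mk_beta {l : List (A × B)} (h : Red l) : nfMk (nfBeta l) (nfRho l) = l := by
  cases l with
  | nil =>
    unfold nfBeta nfRho nfMk
    rw [if_pos rfl]
  | cons q l =>
    obtain ⟨h1, h2⟩ := red_cons.1 h
    rw [nfBeta_cons, nfRho_cons]
    by_cases h3 : q.1 = 1
    · rw [if_pos h3, if_pos h3]
      unfold nfMk
      rw [if_neg h1]
      congr 1
      exact Prod.ext h3.symm rfl
    · rw [if_neg h3, if_neg h3]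
      unfold nfMk
      rw [if_pos rfl]

theorem nf_ev_mk (b : B) (l : List (A × B)) (c : A) :
    ev (nfMk b l) c = Coprod.inr b * ev l c := by
  unfold nfMk
  split_ifs with h
  · rw [h, map_one, one_mul]
  · rw [ev_cons, map_one, one_mul]

theorem nf_ev (l : List (A × B)) (c : A) :
    ev l c = Coprod.inr (nfBeta l) * ev (nfRho l) c := by
  cases l with
  | nil =>
    unfold nfBeta nfRho
    rw [map_one, one_mul]
  | cons q l =>
    rw [nfBeta_cons, nfRho_cons]
    by_cases h : q.1 = 1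
    · rw [if_pos h, if_pos h, ev_cons, h, map_one, one_mul]
    · rw [if_neg h, if_neg h, map_one, one_mul]

/-- The action of `A` on the lists. -/
def nfA (a : A) : List (A × B) × A → List (A × B) × A
  | ([], c) => ([], a * c)
  | (q :: l, c) => ((a * q.1, q.2) :: l, c)

theorem nfA_red (a : A) (x : List (A × B) × A) (h : Red x.1) : Red (nfA a x).1 := by
  obtain ⟨l, c⟩ := x
  cases l with
  | nil => exact red_nil
  | cons q l =>
    have h1 : q.2 ≠ 1 ∧ Red1 l := red_cons.1 h
    exact red_cons.2 h1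

theorem nfA_one (x : List (A × B) × A) : nfA 1 x = x := by
  obtain ⟨l, c⟩ := x
  cases l with
  | nil => simp [nfA]
  | cons q l => simp [nfA]

theorem nfA_mul (a a' : A) (x : List (A × B) × A) : nfA (a * a') x = nfA a (nfA a' x) := by
  obtain ⟨l, c⟩ := x
  cases l with
  | nil => simp [nfA, mul_assoc]
  | cons q l => simp [nfA, mul_assoc]

theorem nfA_ev (a : A) (x : List (A × B) × A) :
    ev (nfA a x).1 (nfA a x).2 = Coprod.inl a * ev x.1 x.2 := by
  obtain ⟨l, c⟩ := x
  cases l with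
  | nil =>
    change Coprod.inl (a * c) = Coprod.inl a * Coprod.inl c
    rw [map_mul]
  | cons q l =>
    change Coprod.inl (a * q.1) * Coprod.inr q.2 * ev l c =
      Coprod.inl a * (Coprod.inl q.1 * Coprod.inr q.2 * ev l c)
    rw [map_mul]
    simp only [mul_assoc]

variable (A B) in
/-- The normal forms. -/
def NF := {x : List (A × B) × A // Red x.1}

/-- The action of `A`. -/
@[instance_reducible] def nfActA : MulAction A (NF A B) where
  smul a x := ⟨nfA a x.1, nfA_red a x.1 x.2⟩
  one_smul x := Subtype.ext (nfA_one x.1)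
  mul_smul a a' x := Subtype.ext (nfA_mul a a' x.1)

/-- The action of `B`. -/
@[instance_reducible] noncomputable def nfActB : MulAction B (NF A B) where
  smul b x := ⟨(nfMk (b * nfBeta x.1.1) (nfRho x.1.1), x.1.2), nf_mk (nf_rho x.2) _⟩
  one_smul x := by
    apply Subtype.ext
    change (nfMk (1 * nfBeta x.1.1) (nfRho x.1.1), x.1.2) = x.1
    rw [one_mul, nf_mk_beta x.2]
  mul_smul b b' x := by
    apply Subtype.ext
    change (nfMk (b * b' * nfBeta x.1.1) (nfRho x.1.1), x.1.2) =
      (nfMk (b * nfBeta (nfMk (b' * nfBeta x.1.1) (nfRho x.1.1)))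
        (nfRho (nfMk (b' * nfBeta x.1.1) (nfRho x.1.1))), x.1.2)
    rw [nf_beta_mk (nf_rho x.2), nf_rho_mk (nf_rho x.2), mul_assoc]

/-- The permutation representation of the free product on the normal forms. -/
noncomputable def nfPhi : Coprod A B →* Equiv.Perm (NF A B) :=
  Coprod.lift (@MulAction.toPermHom A (NF A B) _ nfActA) (@MulAction.toPermHom B (NF A B) _ nfActB)

theorem nfPhi_inl (a : A) (x : NF A B) : (nfPhi (Coprod.inl a) x).1 = nfA a x.1 := by
  unfold nfPhi
  rw [Coprod.lift_apply_inl]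
  rfl

theorem nfPhi_inr (b : B) (x : NF A B) :
    (nfPhi (Coprod.inr b) x).1 = (nfMk (b * nfBeta x.1.1) (nfRho x.1.1), x.1.2) := by
  unfold nfPhi
  rw [Coprod.lift_apply_inr]
  rfl

theorem nfPhi_ev (g : Coprod A B) :
    ∀ x : NF A B, ev (nfPhi g x).1.1 (nfPhi g x).1.2 = g * ev x.1.1 x.1.2 := by
  induction g using Coprod.induction_on with
  | inl a =>
    intro x
    rw [nfPhi_inl, nfA_ev]
  | inr b =>
    intro x
    rw [nfPhi_inr]
    change ev (nfMk (b * nfBeta x.1.1) (nfRho x.1.1)) x.1.2 = _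
    rw [nf_ev_mk, map_mul, mul_assoc, ← nf_ev]
  | mul g g' h h' =>
    intro x
    rw [map_mul, Equiv.Perm.mul_apply, h, h', mul_assoc]

theorem nfPhi_red (l : List (A × B)) (c : A) (h : Red l) :
    (nfPhi (ev l c) ⟨([], 1), red_nil⟩).1 = (l, c) := by
  induction l with
  | nil =>
    rw [ev_nil, nfPhi_inl]
    simp [nfA]
  | cons q l ih =>
    obtain ⟨h1, h2⟩ := red_cons.1 h
    rw [ev_cons, map_mul, map_mul, Equiv.Perm.mul_apply, Equiv.Perm.mul_apply, nfPhi_inl,
      nfPhi_inr, ih h2.red]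
    simp only
    rw [nf_beta1 h2, nf_rho1 h2, mul_one]
    unfold nfMk
    rw [if_neg h1]
    simp [nfA]

theorem ev_surj (g : Coprod A B) : ∃ (l : List (A × B)) (c : A), Red l ∧ ev l c = g := by
  have h := nfPhi_ev g ⟨([], 1), red_nil⟩
  refine ⟨(nfPhi g ⟨([], 1), red_nil⟩).1.1, (nfPhi g ⟨([], 1), red_nil⟩).1.2,
    (nfPhi g ⟨([], 1), red_nil⟩).2, ?_⟩
  rw [h]
  change g * Coprod.inl 1 = g
  rw [map_one, mul_one]

theorem ev_inj {l l' : List (A × B)} {c c' : A} (h : Red l) (h' : Red l')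
    (he : ev l c = ev l' c') : l = l' ∧ c = c' := by
  have h1 := nfPhi_red l c h
  rw [he, nfPhi_red l' c' h'] at h1
  exact ⟨(Prod.mk.inj h1).1.symm, (Prod.mk.inj h1).2.symm⟩

end Pool.Agent.H79.FP
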