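import Pool.Agent.H79.FP.Leaf

/-!
# Module NOCELL [H79 FP]: conflicts of left children

PROOF of `noCell`. `w, t, t'` as in `Conf u u' τ` (R-conflict), `u = t w`, `u' = t' w`, `u` a left child
via `σ`: `p σ u = 2L`.
(1) `t ∈ Th`. `¬ CL t (w τ)`, so `¬ CL t w` by `push`
(as `CR (t w) τ`); if also `t' ∈ Th` then `¬ CL t' w` and `t = t'` (`leafL_unique`), so `t' ∈ E`.
`p t u = L + |u| - |w|` (`t⁻¹ u = w`). If
`|w| < |u| + L` then `p t u > 0`, so `σ = t` (`headL_unique`) and `L + |u| - |w| = 2L`, i.e.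
`|t w| = |w| + L`, contradicting `¬ CL t w`. So `|w| ≥ |u| + L` and `|u'| ≥ |w| - R > |u|`.
(2) `t ∈ E`. `p t σ = 0` (th4), `p σ u > 0`, so `p t u = 0`: `|w| = |t| + |u|`.
(2a) `t' ∈ E`. `g = t' t⁻¹ ∈ W`, `g ≠ 1`, `u' = g u`. `g⁻¹ = t t'⁻¹ ∈ W`, `p g⁻¹ σ = 0`, `p σ u > 0`, so
`p g⁻¹ u = 0`: `|u'| = |g| + |u|`. If `|g| > 0` we are done. If `|g| = 0`: `|u'| = |u|`; suppose `u'` is
a left child via `σ''`: `p σ'' u' = 2L > 0`. `p (g σ) u' = |g σ| + |u'| - |σ⁻¹ u| = |g σ| + L > 0`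
(`(g σ)⁻¹ (g u) = σ⁻¹ u`, `|σ⁻¹ u| = |u| - L`). So `p (g σ) σ'' > 0`, contradicting th4' (first item).
(2b) `t' ∈ Th`, `¬ CL t' (w τ)`, so `¬ CL t' w` by `push`: `p t'⁻¹ w > 0` (`CL_iff`).
`p t⁻¹ w = |t| + |w| - |t w| = |t| + |w| - |u| = 2|t|`. If `|t| > 0` then `p t⁻¹ t'⁻¹ > 0`,
contradicting th4 (`t⁻¹ ∈ W`). If `|t| = 0`: `|w| = |u|`, `p (t⁻¹ σ) w = |t⁻¹ σ| + |w| - |σ⁻¹ t w| =
|t⁻¹ σ| + L > 0` (`t w = u`), so `p (t⁻¹ σ) t'⁻¹ > 0`: contradiction to th4' (fourth item, `g = t⁻¹`) if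
`t ≠ 1`, to th3 if `t = 1`.
-/

set_option autoImplicit false

open scoped Classical

namespace Pool.Agent.H79.FP

namespace Sys

variable {Γ : Type*} [Group Γ] (S : Sys Γ)

/-- A left child has right conflicts only with longer elements, or with elements of the same length
that are not left children. -/
theorem noCell {u u' τ : Γ} (h : S.Conf u u' τ) (hu : S.IsL u) :
    S.len u < S.len u' ∨ (S.len u' = S.len u ∧ ¬ S.IsL u') := by
  obtain ⟨h0, w, t, t', h1, h2, h3, h4, h5, h6, h7⟩ := h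
  obtain ⟨σ, hσ, hLc⟩ := hu
  have hL := S.hL
  have hw : w = t⁻¹ * u := by rw [h4, inv_mul_cancel_left]
  have hpu : S.p σ u = 2 * S.L := (S.Lc_iff hσ).1 hLc
  rcases h2 with h2 | ⟨h2, h2'⟩
  · -- t ∈ E
    have a1 : S.p t u = 0 := by
      by_contra hne
      have a2 : 0 < S.p t σ := S.p_pos (y := u) (by omega) (by rw [S.p_comm]; omega)
      have a3 := (S.p_th4 (S.InW_E h2) hσ).1
      omega
    have a4 := S.pe t u
    rw [← hw, a1, add_zero] at a4
    have ht := S.hE t h2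
    rcases h3 with h3 | ⟨h3, h3'⟩
    · -- t' ∈ E
      have hg1 : t' * t⁻¹ ≠ 1 := fun e => h1 (mul_inv_eq_one.1 e).symm
      have hu' : u' = (t' * t⁻¹) * u := by rw [h5, hw, mul_assoc]
      have b1 : S.p (t * t'⁻¹) u = 0 := by
        by_contra hne
        have a2 : 0 < S.p (t * t'⁻¹) σ :=
          S.p_pos (y := u) (by omega) (by rw [S.p_comm]; omega)
        have a3 := (S.p_th4 (S.InW_mul_inv h2 h3) hσ).1
        omega
      have b2 := S.pe (t * t'⁻¹) u
      have b3 : (t * t'⁻¹)⁻¹ * u = u' := by rw [hu']; group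
      rw [b3, b1, add_zero] at b2
      have b4 : S.len (t * t'⁻¹) = S.len (t' * t⁻¹) := by
        rw [← S.len_inv (t * t'⁻¹)]
        congr 1
        group
      rcases Nat.eq_zero_or_pos (S.len (t * t'⁻¹)) with b5 | b5
      · right
        refine ⟨by omega, ?_⟩
        rintro ⟨σ'', hσ'', hLc''⟩
        have c1 : S.p σ'' u' = 2 * S.L := (S.Lc_iff hσ'').1 hLc''
        have c2 := S.pe ((t' * t⁻¹) * σ) u'
        have c3 : ((t' * t⁻¹) * σ)⁻¹ * u' = σ⁻¹ * u := by rw [hu']; group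
        rw [c3] at c2
        unfold Lc at hLc
        have c4 : 0 < S.p ((t' * t⁻¹) * σ) u' := by omega
        have c5 : 0 < S.p ((t' * t⁻¹) * σ) σ'' :=
          S.p_pos (y := u') c4 (by rw [S.p_comm]; omega)
        have c6 := (S.p_th4' (S.InW_mul_inv h3 h2) (by rw [← b4]; exact b5) hg1 hσ hσ'').1
        omega
      · left
        omega
    · -- t' ∈ Th
      have b0 := S.push h3 h0 (by rw [← h5]; exact h7) h3'
      rw [S.CL_iff h3] at b0
      have b1 := S.pe t⁻¹ w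
      rw [inv_inv, ← h4, S.len_inv] at b1
      rcases Nat.eq_zero_or_pos (S.len t) with b5 | b5
      · exfalso
        have c2 := S.pe (t⁻¹ * σ) w
        have c3 : (t⁻¹ * σ)⁻¹ * w = σ⁻¹ * u := by rw [hw]; group
        rw [c3] at c2
        unfold Lc at hLc
        have c4 : 0 < S.p (t⁻¹ * σ) w := by omega
        have c5 : 0 < S.p (t⁻¹ * σ) t'⁻¹ :=
          S.p_pos (y := w) c4 (by rw [S.p_comm]; omega)
        by_cases ht1 : t = 1
        · rw [ht1, inv_one, one_mul] at c5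
          have c6 := (S.p_th3 hσ h3).2
          omega
        · have c6 := (S.p_th4' (S.InW_E_inv h2) (by rw [S.len_inv]; exact b5)
            (fun e => ht1 (inv_eq_one.1 e)) hσ h3).2.2.2
          omega
      · exfalso
        have c1 : 0 < S.p t⁻¹ w := by omega
        have c5 : 0 < S.p t⁻¹ t'⁻¹ :=
          S.p_pos (y := w) c1 (by rw [S.p_comm]; omega)
        have c6 := (S.p_th4 (S.InW_E_inv h2) h3).2
        omega
  · -- t ∈ Th
    have a0 := S.push h2 h0 (by rw [← h4]; exact h6) h2'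
    rcases h3 with h3 | ⟨h3, h3'⟩
    · have a1 := S.pe t u
      rw [← hw, S.hTh t h2] at a1
      have a2 : S.len u + S.L ≤ S.len w := by
        by_contra hlt
        have a3 : 0 < S.p t u := by omega
        have a4 := S.headL_unique hσ h2 (v := u) (by omega) a3
        apply a0
        unfold CL
        rw [← h4]
        rw [a4] at hpu
        omega
      have a3 := S.len_le_E_mul (z := w) h3
      rw [← h5] at a3
      left
      omega
    · exfalso
      have a1 := S.push h3 h0 (by rw [← h5]; exact h7) h3'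
      exact h1 (S.leafL_unique h2 h3 a0 a1)

end Sys

end Pool.Agent.H79.FP
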