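import Pool.Agent.H79.FP.Free
import Pool.Agent.H79.FP.NoCell
import Pool.Agent.H79.FP.Kappa

/-!
# Module SIDE [H79 FP]: the right choices on level `n`

PROOF. `X = XX j k`. (1) Cells: `jc u := if h : ∃ σ τ, σ ∈ Th ∧ Lc σ u ∧ M (σ⁻¹ u) σ τ then
some h.choose_spec.choose else none` (any formulation). If `|u| = n` and `Lc σ u`, `σ ∈ Th`, then
`σ` is unique (`Lc_unique`), `c = σ⁻¹ u` has `|c| + L = n`, `u = σ c`, `CL σ c`; so
`jc u = some τ ↔ M c σ τ` (uniqueness of `τ` from `hM`: `M c σ τ` implies `σ ∈ UL X c`, and then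
`∃! τ`), and `jc u ≠ none ↔ σ ∈ UL X c ↔ kap X u = 0`.
(2) `f` from `free S j jc n h0`. `j' u := if |u| = n then (if IsL u then jc u else if kap X u = 0 then
some (f u) else none) else j u`.
Items: `req`: clear. `val`: if `IsL u`, `u = σ c`, `M c σ τ`, then `τ ∈ Th`, `Sq σ c τ`, so `CR (σ c) τ` and
`¬ Ex (σ c) τ` by `sq_facts`; if not, by `free`. `conf`: let `|u| = n`, `|u'| ≤ n`, `Conf u u' τ`,
`j' u = some τ`, `j' u' = some τ`. If `u` is a left child: by `noCell`, `|u'| = n` and `u'` is not a left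
child. So after possibly exchanging `u`, `u'` (`conf_symm`) we may assume that `u` is not a left child
(if `IsL u`, exchange: then `u'` has length `n`, is not a left child, and `|u| ≤ n`). So
`τ = f u` and `free` excludes all three cases for `u'` (`|u'| < n`: `j' u' = j u'`; `|u'| = n`, `IsL u'`:
`j' u' = jc u'`; else `j' u' = some (f u')` or `none`). `cell`: (1), with `u = σ c`, `|σ c| = |c| + L = n`,
`Lc σ (σ c)` (`Lc_of_CL`). Last item: `n = 0`: `|1| = 0 = n`, `1` is not a left child (`Lc σ 1` gives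
`L ≤ 0`), `kap X 1 = 0`: for `TR 1 t` one has `|t| < L` (`len_lt_of_TR`), so `t` is neither a right nor
a left child; `f 1 = τ₀`.
-/

set_option autoImplicit false

open scoped Classical

namespace Pool.Agent.H79.FP

namespace Sys

variable {Γ : Type*} [Group Γ] (S : Sys Γ)

theorem side {j k : Γ → Option Γ} {n : ℕ} (M : Γ → Γ → Γ → Prop)
    (hM : ∀ c, S.len c + S.L = n →
      (∀ σ τ, M c σ τ → σ ∈ S.UL (S.XX j k) c ∧ τ ∈ S.Th ∧ S.Sq σ c τ) ∧
      (∀ σ ∈ S.UL (S.XX j k) c, ∃! τ, M c σ τ)) {τ₀ : Γ} (h0 : τ₀ ∈ S.Th) :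
    ∃ j' : Γ → Option Γ,
      (∀ u, S.len u ≠ n → j' u = j u) ∧
      (∀ u, S.len u = n → (S.kap (S.XX j k) u = 0 ↔ j' u ≠ none)) ∧
      (∀ u τ, S.len u = n → j' u = some τ → τ ∈ S.Th ∧ S.CR u τ ∧ ¬ S.Ex u τ) ∧
      (∀ u u' τ, S.len u = n → S.len u' ≤ n → S.Conf u u' τ → j' u = some τ →
        j' u' ≠ some τ) ∧
      (∀ c σ τ, S.len c + S.L = n → σ ∈ S.Th → S.CL σ c →
        (j' (σ * c) = some τ ↔ M c σ τ)) ∧
      (n = 0 → j' 1 = some τ₀) := by
  obtain ⟨X, hX⟩ : ∃ X : Set Γ, X = S.XX j k := ⟨_, rfl⟩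
  rw [← hX] at hM ⊢
  obtain ⟨Rel, hRel⟩ : ∃ Rel : Γ → Γ → Prop,
      ∀ u τ, Rel u τ ↔ ∃ σ ∈ S.Th, S.Lc σ u ∧ M (σ⁻¹ * u) σ τ := ⟨_, fun _ _ => Iff.rfl⟩
  obtain ⟨jc, hjc⟩ : ∃ jc : Γ → Option Γ,
      ∀ u, jc u = if h : ∃ τ, Rel u τ then some h.choose else none := ⟨_, fun _ => rfl⟩
  have hlen : ∀ u σ, S.len u = n → S.Lc σ u → S.len (σ⁻¹ * u) + S.L = n := by
    intro u σ hu h
    unfold Lc at h
    omega
  have hRelM : ∀ c σ τ, σ ∈ S.Th → S.CL σ c → (Rel (σ * c) τ ↔ M c σ τ) := by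
    intro c σ τ hσ hc
    rw [hRel]
    constructor
    · rintro ⟨σ', h1, h2, h3⟩
      have h4 : σ' = σ := S.Lc_unique h1 hσ h2 (S.Lc_of_CL hc)
      subst h4
      rwa [inv_mul_cancel_left] at h3
    · intro h
      exact ⟨σ, hσ, S.Lc_of_CL hc, by rwa [inv_mul_cancel_left]⟩
  have huniq : ∀ u τ τ', S.len u = n → Rel u τ → Rel u τ' → τ = τ' := by
    intro u τ τ' hu h h'
    rw [hRel] at h h'
    obtain ⟨σ, h1, h2, h3⟩ := h
    obtain ⟨σ', h1', h2', h3'⟩ := h'
    have h4 : σ' = σ := S.Lc_unique h1' h1 h2' h2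
    subst h4
    have hc := hlen u σ' hu h2
    exact ((hM _ hc).2 σ' ((hM _ hc).1 σ' τ h3).1).unique h3 h3'
  have hsome : ∀ u τ, S.len u = n → (jc u = some τ ↔ Rel u τ) := by
    intro u τ hu
    rw [hjc]
    constructor
    · intro h
      split_ifs at h with h'
      have h2 := h'.choose_spec
      rw [Option.some_inj] at h
      rwa [h] at h2
    · intro h
      have h' : ∃ τ, Rel u τ := ⟨τ, h⟩
      rw [dif_pos h', Option.some_inj]
      exact huniq u _ _ hu h'.choose_spec h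
  have hnone : ∀ u, S.len u = n → S.IsL u → (S.kap X u = 0 ↔ jc u ≠ none) := by
    intro u hu hL
    obtain ⟨σ, hσ, hLc⟩ := hL
    have hc := hlen u σ hu hLc
    have hCL := S.CL_of_Lc hLc
    have hu' : σ * (σ⁻¹ * u) = u := mul_inv_cancel_left σ u
    constructor
    · intro h
      have h1 : σ ∈ S.UL X (σ⁻¹ * u) := by
        unfold UL
        rw [Finset.mem_filter, hu']
        exact ⟨hσ, hCL, h⟩
      obtain ⟨τ, h2, -⟩ := (hM _ hc).2 σ h1
      have h3 := (hRelM _ σ τ hσ hCL).2 h2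
      rw [hu'] at h3
      rw [(hsome u τ hu).2 h3]
      exact Option.some_ne_none τ
    · intro h
      obtain ⟨τ, h1⟩ := Option.ne_none_iff_exists'.1 h
      have h2 := (hsome u τ hu).1 h1
      rw [← hu'] at h2
      have h3 := (hRelM _ σ τ hσ hCL).1 h2
      have h4 := ((hM _ hc).1 σ τ h3).1
      unfold UL at h4
      rw [Finset.mem_filter, hu'] at h4
      exact h4.2.2
  obtain ⟨f, hf1, hf⟩ := S.free j jc n h0
  obtain ⟨j', hj'⟩ : ∃ j' : Γ → Option Γ, ∀ u, j' u = if S.len u = n then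
      (if S.IsL u then jc u else if S.kap X u = 0 then some (f u) else none) else j u :=
    ⟨_, fun _ => rfl⟩
  have e1 : ∀ u, S.len u ≠ n → j' u = j u := by
    intro u hu
    rw [hj', if_neg hu]
  have e2 : ∀ u, S.len u = n → S.IsL u → j' u = jc u := by
    intro u hu hL
    rw [hj', if_pos hu, if_pos hL]
  have e3 : ∀ u τ, S.len u = n → ¬ S.IsL u → j' u = some τ → f u = τ := by
    intro u τ hu hL h
    rw [hj', if_pos hu, if_neg hL] at h
    split_ifs at h with h'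
    exact Option.some_inj.1 h
  have e4 : ∀ u, S.len u = n → ¬ S.IsL u → S.kap X u = 0 → j' u = some (f u) := by
    intro u hu hL h
    rw [hj', if_pos hu, if_neg hL, if_pos h]
  refine ⟨j', e1, ?_, ?_, ?_, ?_, ?_⟩
  · intro u hu
    by_cases hL : S.IsL u
    · rw [e2 u hu hL]
      exact hnone u hu hL
    · rw [hj', if_pos hu, if_neg hL]
      by_cases h : S.kap X u = 0
      · simp [h]
      · simp [h]
  · intro u τ hu h
    by_cases hL : S.IsL u
    · rw [e2 u hu hL, hsome u τ hu, hRel] at h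
      obtain ⟨σ, hσ, hLc, h3⟩ := h
      have hc := hlen u σ hu hLc
      have h4 := (hM _ hc).1 σ τ h3
      have h5 := S.sq_facts hσ h4.2.1 h4.2.2
      rw [mul_inv_cancel_left] at h5
      exact ⟨h4.2.1, h5.2.2.1, h5.2.2.2.2⟩
    · have h1 := e3 u τ hu hL h
      have h2 := hf u hu hL
      rw [h1] at h2
      exact ⟨h2.1, h2.2.1, h2.2.2.1⟩
  · have key : ∀ u u' τ, S.len u = n → S.len u' ≤ n → S.Conf u u' τ → ¬ S.IsL u →
        j' u = some τ → j' u' ≠ some τ := by
      intro u u' τ hu hu' hC hL h h'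
      have h1 := e3 u τ hu hL h
      have h2 := (hf u hu hL).2.2.2 u' (by rw [h1]; exact hC)
      rw [h1] at h2
      rcases lt_or_eq_of_le hu' with h3 | h3
      · rw [e1 u' (by omega)] at h'
        exact h2.1 h3 h'
      · by_cases hL' : S.IsL u'
        · rw [e2 u' h3 hL'] at h'
          exact h2.2.1 h3 hL' h'
        · exact h2.2.2 h3 hL' (e3 u' τ h3 hL' h')
    intro u u' τ hu hu' hC h h'
    by_cases hL : S.IsL u
    · rcases S.noCell hC hL with h1 | ⟨h1, h2⟩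
      · omega
      · exact key u' u τ (by omega) (by omega) (S.conf_symm hC) h2 h' h
    · exact key u u' τ hu hu' hC hL h h'
  · intro c σ τ hc hσ hCL
    have h1 : S.len (σ * c) = n := by
      unfold CL at hCL
      omega
    rw [e2 _ h1 ⟨σ, hσ, S.Lc_of_CL hCL⟩, hsome _ τ h1]
    exact hRelM c σ τ hσ hCL
  · intro hn
    subst hn
    have hL : ¬ S.IsL (1 : Γ) := by
      rintro ⟨σ, hσ, h⟩
      have h1 := S.L_pos
      have h2 := S.len_one
      unfold Lc at h
      omega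
    have hk : S.kap X (1 : Γ) = 0 := by
      unfold kap
      rw [Finset.card_eq_zero, Finset.filter_eq_empty_iff]
      rintro t ht ⟨h1, h2⟩
      have h3 := S.len_lt_of_TR h1
      rw [S.len_one] at h3
      rw [hX] at h2
      rcases h2 with ⟨τ, h4, h5, h6⟩ | ⟨σ, h4, h5, h6⟩
      · unfold Rc at h5
        omega
      · unfold Lc at h5
        omega
    rw [e4 1 S.len_one hL hk, hf1]

end Sys

end Pool.Agent.H79.FP
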