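import Pool.Agent.H79.FP.Cell
import Pool.Agent.H79.FP.Side
import Pool.Agent.H79.FP.Local

/-!
# Module STEP [H79 FP]: from level n to level n + 1

PROOF of `step`. For every `c` with `|c| + L = n` take `M c` from `cell` (`choose`; for the other `c`
anything). `τ₀ ∈ Th` exists as `Th.card ≥ 5`. `side` for `S`, `M`, `τ₀` gives `j'`. For `S.dual`:
`hG.dual`, `M' c' σ' τ' := M c'⁻¹ τ'⁻¹ σ'⁻¹` and `τ₀⁻¹ ∈ S.dual.Th`: for `c'` with `|c'| + L = n` put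
`c = c'⁻¹`; `M c τ'⁻¹ σ'⁻¹` gives `σ' ∈ S.dual.UL (S.dual.XX k j) c'` (second item of `cell` with
`τ := σ'⁻¹`, `c⁻¹ = c'`), `τ'⁻¹ ∈ Th`, so `τ' ∈ S.dual.Th`, and `Sq τ'⁻¹ c σ'⁻¹`, i.e.
`S.dual.Sq σ' c' τ'` (`dual_Sq`); uniqueness from the third item. This gives `k'`.
`Good j' k' (n+1)`: `right`: for elements of length `< n` use `hG` and agreement below `n`
(`GoodR_congr` gives `GoodR j' k' n`; `kap_congr` for the new level: `kap (XX j k) z =
kap (XX j' k') z` for `|z| ≤ n`); for length `n` the items of `side`; `conf` with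
`max (|u|, |u'|) = n`: if `|u| = n` directly, else `|u'| = n` and `conf_symm`. `left`: the same for
`S.dual` (prove one lemma `stepR` for one side and use it twice). `sq`: `|c| + L < n`: `hG.sq` (values
at `σ c`, `(c τ)⁻¹` of length `< n` are unchanged); `|c| + L = n`: `j' (σ c) = some τ ↔ M c σ τ` and
`k' (τ⁻¹ c⁻¹) = some σ⁻¹ ↔ M' c⁻¹ τ⁻¹ σ⁻¹ ↔ M c σ τ` (`CL σ c`, and `S.dual.CL τ⁻¹ c⁻¹` from `CR c τ`,
`sq_facts`; `(c τ)⁻¹ = τ⁻¹ c⁻¹`). `root`: `n = 0`: last item of `side` on both sides; `n > 0`: `hG.root`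
and `|1| = 0 < n`.
-/

set_option autoImplicit false

open scoped Classical

namespace Pool.Agent.H79.FP

namespace Sys

variable {Γ : Type*} [Group Γ] (S : Sys Γ)

theorem stepR {j k j' k' : Γ → Option Γ} {n : ℕ} (hG : S.GoodR j k n)
    (hj : ∀ u, S.len u < n → j' u = j u) (hk : ∀ u, S.len u < n → k' u = k u)
    (h2 : ∀ u, S.len u = n → (S.kap (S.XX j k) u = 0 ↔ j' u ≠ none))
    (h3 : ∀ u τ, S.len u = n → j' u = some τ → τ ∈ S.Th ∧ S.CR u τ ∧ ¬ S.Ex u τ)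
    (h4 : ∀ u u' τ, S.len u = n → S.len u' ≤ n → S.Conf u u' τ → j' u = some τ →
      j' u' ≠ some τ) : S.GoodR j' k' (n + 1) := by
  have hG' : S.GoodR j' k' n :=
    S.GoodR_congr (fun z hz => (hj z hz).symm) (fun z hz => (hk z hz).symm) hG
  refine ⟨?_, ?_, ?_⟩
  · intro z τ hz h
    rcases Nat.lt_succ_iff_lt_or_eq.1 hz with hz | hz
    · exact hG'.val z τ hz h
    · exact h3 z τ hz h
  · intro z hz
    rcases Nat.lt_succ_iff_lt_or_eq.1 hz with hz | hz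
    · exact hG'.req z hz
    · rw [← h2 z hz, S.kap_congr (j := j') (k := k') (j' := j) (k' := k) (n := n) hj hk
        (z := z) (by omega)]
  · intro u u' τ hu hu' hC h h'
    rcases Nat.lt_succ_iff_lt_or_eq.1 hu with hu | hu
    · rcases Nat.lt_succ_iff_lt_or_eq.1 hu' with hu' | hu'
      · exact hG'.conf u u' τ hu hu' hC h h'
      · exact h4 u' u τ hu' (by omega) (S.conf_symm hC) h' h
    · exact h4 u u' τ hu (by omega) hC h h'

theorem step {j k : Γ → Option Γ} {n : ℕ} (hG : S.Good j k n) :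
    ∃ j' k' : Γ → Option Γ, S.Good j' k' (n + 1) ∧ (∀ u, S.len u < n → j' u = j u) ∧
      (∀ u, S.len u < n → k' u = k u) := by
  have hM : ∀ c : Γ, ∃ M : Γ → Γ → Prop, S.len c + S.L = n →
      (∀ σ τ, M σ τ → σ ∈ S.UL (S.XX j k) c ∧ τ⁻¹ ∈ S.dual.UL (S.dual.XX k j) c⁻¹ ∧
        S.Sq σ c τ) ∧
      (∀ σ ∈ S.UL (S.XX j k) c, ∃! τ, M σ τ) ∧
      (∀ τ, τ⁻¹ ∈ S.dual.UL (S.dual.XX k j) c⁻¹ → ∃! σ, M σ τ) := by
    intro c
    by_cases hc : S.len c + S.L = n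
    · obtain ⟨M, h⟩ := S.cell hG hc
      exact ⟨M, fun _ => h⟩
    · exact ⟨fun _ _ => False, fun h => absurd h hc⟩
  choose M hM using hM
  obtain ⟨τ₀, hτ₀⟩ : ∃ τ, τ ∈ S.Th := by
    have h := S.card
    have h1 : 0 < S.Th.card := by omega
    exact Finset.card_pos.1 h1
  have hThUL : ∀ (S' : Sys Γ) (X : Set Γ) (c σ : Γ), σ ∈ S'.UL X c → σ ∈ S'.Th ∧ S'.CL σ c := by
    intro S' X c σ h
    unfold UL at h
    rw [Finset.mem_filter] at h
    exact ⟨h.1, h.2.1⟩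
  obtain ⟨j', a1, a2, a3, a4, a5, a6⟩ := S.side (j := j) (k := k) (n := n) M
    (fun c hc => ⟨fun σ τ h => ⟨((hM c hc).1 σ τ h).1,
      S.inv_mem_dual_Th.1 (hThUL _ _ _ _ ((hM c hc).1 σ τ h).2.1).1,
      ((hM c hc).1 σ τ h).2.2⟩, (hM c hc).2.1⟩) hτ₀
  obtain ⟨k', b1, b2, b3, b4, b5, b6⟩ := S.dual.side (j := k) (k := j) (n := n)
    (fun c σ τ => M c⁻¹ τ⁻¹ σ⁻¹)
    (by
      intro c hc
      have hc' : S.len c⁻¹ + S.L = n := by
        rw [S.len_inv]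
        exact hc
      refine ⟨fun σ τ h => ?_, fun σ hσ => ?_⟩
      · have h1 := (hM c⁻¹ hc').1 _ _ h
        rw [inv_inv, inv_inv] at h1
        refine ⟨h1.2.1, ?_, ?_⟩
        · exact S.mem_dual_Th.2 (hThUL _ _ _ _ h1.1).1
        · have h2 := S.dual_Sq.2 h1.2.2
          simpa using h2
      · have h1 := (hM c⁻¹ hc').2.2 σ⁻¹ (by rw [inv_inv, inv_inv]; exact hσ)
        obtain ⟨τ, h2, h3⟩ := h1
        refine ⟨τ⁻¹, by simpa using h2, fun y hy => ?_⟩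
        rw [← h3 y⁻¹ hy, inv_inv]) (S.inv_mem_dual_Th.2 hτ₀)
  have hj : ∀ u, S.len u < n → j' u = j u := fun u hu => a1 u (by omega)
  have hk : ∀ u, S.len u < n → k' u = k u := fun u hu => b1 u (by rw [dual_len]; omega)
  refine ⟨j', k', ⟨?_, ?_, ?_, ?_⟩, hj, hk⟩
  · exact S.stepR hG.right hj hk a2 a3 a4
  · exact S.dual.stepR hG.left hk hj b2 b3 b4
  · intro σ hσ c τ hτ hS hlt
    have hsq := S.sq_facts hσ hτ hS
    have hl1 : S.len (σ * c) = S.len c + S.L := hsq.1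
    have hl2 : S.len (c * τ) = S.len c + S.L := hsq.2.1
    rcases Nat.lt_succ_iff_lt_or_eq.1 hlt with hlt | hlt
    · rw [hj _ (by omega), hk _ (by rw [S.len_inv]; omega)]
      exact hG.sq σ hσ c τ hτ hS hlt
    · rw [a5 c σ τ hlt hσ hsq.1, mul_inv_rev]
      have h1 := b5 c⁻¹ τ⁻¹ σ⁻¹ (by rw [dual_len, dual_L, S.len_inv]; exact hlt)
        (S.inv_mem_dual_Th.2 hτ) (S.dual_CL.2 hsq.2.1)
      rw [h1, inv_inv, inv_inv, inv_inv]
  · intro _
    rcases Nat.eq_zero_or_pos n with h0 | h0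
    · exact ⟨τ₀, hτ₀, a6 h0, b6 h0⟩
    · obtain ⟨τ, h1, h2, h3⟩ := hG.root h0
      refine ⟨τ, h1, ?_, ?_⟩
      · rw [hj 1 (by rw [S.len_one]; exact h0)]
        exact h2
      · rw [hk 1 (by rw [S.len_one]; exact h0)]
        exact h3

end Sys

end Pool.Agent.H79.FP
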