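import Pool.Agent.H79.FP.Word
import Pool.Agent.H79.FP.Gener

/-!
# Module SYSX [H79 FP]: the system on a free product with infinite first factor

PROOF. `β ≠ 1` in `B`. `R = E.sup clen`, `N = 3 R + 3`, `L = 2 N`, `m = 2 (|E|² + 2 |E|) + |E| + 5`.
`Wf : Finset` with `InW E g → g ∈ Wf` (`E ∪ E⁻¹ ∪ E⁻¹E ∪ EE⁻¹` by images), `F : Finset A` = the image of
`Wf` under `g ↦ (hd g).getD 1` together with the image under `nfc`. `gener F m` gives `a, d`.
`Th = Finset.univ.image (fun i : Fin m => w (a i) β N (d i))`; the map is injective (`hd_w`, `a`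
injective), so `Th.card = m`.
`len := clen` (`clen_one`, `clen_inv`, `clen_mul`, `clen_hyp`), `hE` by `Finset.le_sup`, `hTh` `clen_w`.
All `th`: by `gp_zero`, i.e. by comparing first letters: `hd (w_i) = some (a i)`,
`hd (w_i)⁻¹ = some (d i)⁻¹` (`hd_w`, `hd_w_inv`).
`th2`: `a i ≠ a j`, `(d i)⁻¹ ≠ (d j)⁻¹`. `th3`: `(d i)⁻¹ ≠ a j`. `th4`: if `hd g = some x`, `InW E g`, then
`x ∈ F`, and `a j ∉ F`, `(d j)⁻¹ ∉ F`. `th4'`: `clen g = 0`: `g = inl (nfc g)` (proof of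
`exists_inl_of_clen`; or `g = inl γ` and `nfc g = γ` by `nfc_ev`), `γ ∈ F`, `γ ≠ 1`; `hd_inl_mul`:
`hd (g σ) = some (γ a i)` etc.; `γ a i ≠ a j` if `i ≠ j` (gener) and if `i = j` (`γ ≠ 1`); the other three
in the same way. `th5`: `z = inl ζ`, `h = inl η` (`exists_inl_of_clen`), `w_eq`: `a j = a i`, so `i = j`,
`ζ = 1`, `d i = d i η`, `η = 1`. `th6`: `c = inl γ`; `clen (σ * c) = L` (`ev l d * inl γ = ev l (d γ)`, proved
by induction, or `clen` of the inverse: `(σ c)⁻¹ = inl γ⁻¹ * σ⁻¹`, `clen_inl_mul`). With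
`clen (x⁻¹ * y) + gp clen x y = clen x + clen y` for `x = (σ c)⁻¹`, `y = τ`: `clen (σ c τ) < 2 L` gives
`gp > 0`, so (`hd_of_gp`) the first letters agree: `γ⁻¹ (d i)⁻¹ = a j`, i.e. `γ⁻¹ = a j * d i`. The
second pair gives `γ⁻¹ = a j' * d i'`, so `i = i'`, `j = j'`.
-/

set_option autoImplicit false

open scoped Classical

namespace Pool.Agent.H79.FP

open Monoid

/-- the finite set of all `g` with `InW E g` -/
noncomputable def sysxW {Γ : Type*} [Group Γ] (E : Finset Γ) : Finset Γ :=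
  ((E ∪ E.image (fun e => e⁻¹)) ∪ (E ×ˢ E).image (fun q => q.1⁻¹ * q.2)) ∪
    (E ×ˢ E).image (fun q => q.1 * q.2⁻¹)

theorem sysxW_mem {Γ : Type*} [Group Γ] {E : Finset Γ} {g : Γ} (h : InW E g) : g ∈ sysxW E := by
  unfold sysxW
  rw [Finset.mem_union, Finset.mem_union, Finset.mem_union]
  rcases h with h | h | ⟨e, he, f, hf, rfl⟩ | ⟨e, he, f, hf, rfl⟩
  · exact Or.inl (Or.inl (Or.inl h))
  · exact Or.inl (Or.inl (Or.inr (Finset.mem_image.mpr ⟨g⁻¹, h, inv_inv g⟩)))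
  · exact Or.inl (Or.inr (Finset.mem_image.mpr ⟨(e, f), Finset.mem_product.mpr ⟨he, hf⟩, rfl⟩))
  · exact Or.inr (Finset.mem_image.mpr ⟨(e, f), Finset.mem_product.mpr ⟨he, hf⟩, rfl⟩)

theorem sysx_gp {A B : Type*} [Group A] [Group B] {x y : Coprod A B} {u v : A}
    (hx : hd x = some u) (hy : hd y = some v) (h : u ≠ v) : gp clen x y = 0 := by
  refine gp_zero fun a ha hb => h ?_
  rw [hx] at ha
  rw [hy] at hb
  exact (Option.some.inj ha).trans (Option.some.inj hb).symm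

theorem sysx_clen {A B : Type*} [Group A] [Group B] {a : A} {β : B} (ha : a ≠ 1) (hβ : β ≠ 1)
    {N : ℕ} (hN : N ≠ 0) (d g : A) : clen (Coprod.inl g * (w a β N d)⁻¹) = 2 * N := by
  obtain ⟨M, rfl⟩ := Nat.exists_eq_succ_of_ne_zero hN
  rw [Nat.succ_eq_add_one, w_inv]
  have hred : Red ((d⁻¹, β⁻¹) :: List.replicate M (a⁻¹, β⁻¹)) := by
    rw [red_cons]
    refine ⟨inv_ne_one.mpr hβ, ?_⟩
    intro q hq
    rw [List.mem_replicate] at hq
    rw [hq.2]
    exact ⟨inv_ne_one.mpr ha, inv_ne_one.mpr hβ⟩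
  rw [clen_inl_mul hred]
  simp

theorem exists_sys {A B : Type*} [Group A] [Group B] [Infinite A] {β : B} (hβ : β ≠ 1)
    (E : Finset (Coprod A B)) : ∃ S : Sys (Coprod A B), S.E = E := by
  set R : ℕ := E.sup clen with hR
  set N : ℕ := 3 * R + 3 with hN
  have hN0 : N ≠ 0 := by omega
  set m : ℕ := 2 * (E.card ^ 2 + 2 * E.card) + E.card + 5 with hm
  set F : Finset A := (sysxW E).image (fun g => (hd g).getD 1) ∪ (sysxW E).image nfc with hF
  obtain ⟨a, d, g1, g2, g3, g4, g5⟩ := gener F m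
  set W : Fin m → Coprod A B := fun i => w (a i) β N (d i) with hW
  have ha1 : ∀ i, a i ≠ 1 := fun i => (g1 i).2.2
  have hhd : ∀ i, hd (W i) = some (a i) := fun i => hd_w (ha1 i) hβ hN0 (d i)
  have hhdi : ∀ i, hd (W i)⁻¹ = some (d i)⁻¹ := fun i => hd_w_inv (ha1 i) hβ hN0 (d i)
  have hcl : ∀ i, clen (W i) = 2 * N := fun i => clen_w (ha1 i) hβ N (d i)
  have hinj : Function.Injective W := by
    intro i j hij
    by_contra hne
    have h1 := hhd i
    rw [hij, hhd j] at h1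
    exact (g2 j i (Ne.symm hne)).1 (Option.some.inj h1)
  have hTh : ∀ τ ∈ Finset.univ.image W, ∃ i, τ = W i := by
    intro τ hτ
    rw [Finset.mem_image] at hτ
    obtain ⟨i, _, hi⟩ := hτ
    exact ⟨i, hi.symm⟩
  have hFhd : ∀ g, InW E g → ∀ x, hd g = some x → x ∈ F := by
    intro g hg x hx
    rw [hF, Finset.mem_union]
    left
    rw [Finset.mem_image]
    refine ⟨g, sysxW_mem hg, ?_⟩
    rw [hx]
    rfl
  have hzero : ∀ g : Coprod A B, InW E g → clen g = 0 → g ≠ 1 →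
      ∃ γ : A, g = Coprod.inl γ ∧ γ ∈ F ∧ γ ≠ 1 := by
    intro g hg hg0 hg1
    obtain ⟨γ, hγ⟩ := exists_inl_of_clen hg0
    refine ⟨γ, hγ, ?_, ?_⟩
    · rw [hF, Finset.mem_union]
      right
      rw [Finset.mem_image]
      refine ⟨g, sysxW_mem hg, ?_⟩
      rw [hγ]
      exact nfc_ev red_nil γ
    · intro h
      apply hg1
      rw [hγ, h, map_one]
  have hmulhd : ∀ (γ : A) (i : Fin m), hd (Coprod.inl γ * W i) = some (γ * a i) := by
    intro γ i
    rw [hd_inl_mul, hhd]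
    rfl
  have hmulhdi : ∀ (γ : A) (i : Fin m), hd (Coprod.inl γ * (W i)⁻¹) = some (γ * (d i)⁻¹) := by
    intro γ i
    rw [hd_inl_mul, hhdi]
    rfl
  refine ⟨{
    len := clen
    E := E
    Th := Finset.univ.image W
    R := R
    L := 2 * N
    len_one := clen_one
    len_inv := clen_inv
    len_mul := clen_mul
    hyp := clen_hyp
    hE := fun e he => Finset.le_sup he
    hTh := ?_
    hL := by omega
    th2 := ?_
    th3 := ?_
    th4 := ?_
    th4' := ?_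
    th5 := ?_
    th6 := ?_
    card := ?_ }, rfl⟩
  · intro τ hτ
    obtain ⟨i, rfl⟩ := hTh τ hτ
    exact hcl i
  · intro σ hσ τ hτ hne
    obtain ⟨i, rfl⟩ := hTh σ hσ
    obtain ⟨j, rfl⟩ := hTh τ hτ
    have hij : i ≠ j := fun h => hne (by rw [h])
    exact ⟨sysx_gp (hhd i) (hhd j) (g2 i j hij).1,
      sysx_gp (hhdi i) (hhdi j) (fun h => (g2 i j hij).2 (inv_injective h))⟩
  · intro σ hσ τ hτ
    obtain ⟨i, rfl⟩ := hTh σ hσ
    obtain ⟨j, rfl⟩ := hTh τ hτ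
    exact ⟨sysx_gp (hhdi i) (hhd j) (Ne.symm (g3 i j)), sysx_gp (hhd i) (hhdi j) (g3 j i)⟩
  · intro g hg τ hτ
    obtain ⟨j, rfl⟩ := hTh τ hτ
    constructor
    · refine gp_zero fun x hx hy => ?_
      rw [hhd j] at hy
      have hx' := hFhd g hg x hx
      rw [← Option.some.inj hy] at hx'
      exact (g1 j).1 hx'
    · refine gp_zero fun x hx hy => ?_
      rw [hhdi j] at hy
      have hx' := hFhd g hg x hx
      rw [← Option.some.inj hy] at hx'
      exact (g1 j).2.1 hx'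
  · intro g hg hg0 hg1 σ hσ τ hτ
    obtain ⟨i, rfl⟩ := hTh σ hσ
    obtain ⟨j, rfl⟩ := hTh τ hτ
    obtain ⟨γ, rfl, hγF, hγ1⟩ := hzero g hg hg0 hg1
    have k := g4 γ hγF i j
    refine ⟨sysx_gp (hmulhd γ i) (hhd j) ?_, sysx_gp (hmulhdi γ i) (hhdi j) ?_,
      sysx_gp (hmulhdi γ i) (hhd j) k.2.1, sysx_gp (hmulhd γ i) (hhdi j) k.2.2⟩
    · by_cases hij : i = j
      · subst hij
        intro h
        exact hγ1 (mul_eq_right.mp h)
      · exact (k.1 hij).1
    · by_cases hij : i = j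
      · subst hij
        intro h
        exact hγ1 (mul_eq_right.mp h)
      · exact (k.1 hij).2
  · intro z h hz hh σ hσ τ hτ he
    obtain ⟨i, rfl⟩ := hTh σ hσ
    obtain ⟨j, rfl⟩ := hTh τ hτ
    obtain ⟨ζ, rfl⟩ := exists_inl_of_clen hz
    obtain ⟨η, rfl⟩ := exists_inl_of_clen hh
    obtain ⟨h1, h2, h3⟩ := w_eq (ha1 j) (ha1 i) hβ (by omega : 2 ≤ N) he
    have hij : j = i := by
      by_contra hne
      exact (g2 j i hne).1 h1
    subst hij
    have hη : η = 1 := by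
      have h4 : d j * 1 = d j * η := by rw [mul_one]; exact h3
      exact (mul_left_cancel h4).symm
    rw [h2, hη, map_one]
    exact ⟨rfl, rfl⟩
  · intro c hc σ hσ τ hτ σ' hσ' τ' hτ' hlt hlt'
    obtain ⟨i, rfl⟩ := hTh σ hσ
    obtain ⟨j, rfl⟩ := hTh τ hτ
    obtain ⟨i', rfl⟩ := hTh σ' hσ'
    obtain ⟨j', rfl⟩ := hTh τ' hτ'
    obtain ⟨γ, rfl⟩ := exists_inl_of_clen hc
    have key : ∀ i j : Fin m, clen (W i * Coprod.inl γ * W j) < 2 * (2 * N) →
        γ⁻¹ = a j * d i := by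
      intro i j hlt
      have hx : (W i * Coprod.inl γ)⁻¹ = Coprod.inl γ⁻¹ * (W i)⁻¹ := by
        rw [mul_inv_rev, map_inv]
      have hclx : clen (W i * Coprod.inl γ)⁻¹ = 2 * N := by
        rw [hx]
        exact sysx_clen (ha1 i) hβ hN0 (d i) γ⁻¹
      have hgp : 0 < gp clen (W i * Coprod.inl γ)⁻¹ (W j) := by
        unfold gp
        rw [hclx, hcl j, inv_inv]
        omega
      obtain ⟨u, hu1, hu2⟩ := hd_of_gp hgp
      rw [hx, hmulhdi] at hu1
      rw [hhd] at hu2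
      have h1 : γ⁻¹ * (d i)⁻¹ = a j := (Option.some.inj hu1).trans (Option.some.inj hu2).symm
      rw [← h1, inv_mul_cancel_right]
    have e1 := key i j hlt
    have e2 := key i' j' hlt'
    obtain ⟨h1, h2⟩ := g5 i j i' j' (e1.symm.trans e2)
    rw [h1, h2]
    exact ⟨rfl, rfl⟩
  · rw [Finset.card_image_of_injective _ hinj, Finset.card_univ, Fintype.card_fin]

end Pool.Agent.H79.FP
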