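import Pool.Agent.H79.FP.Lim

/-!
# Module TILE [H79 FP]: from a system to a two-sided tile (complete)
-/

set_option autoImplicit false

open scoped Classical

namespace Pool.Agent.H79.FP

open Set

/-- The finite set `F` lies in a finite `S` for which there is `X` with the left translates `x S`
pairwise disjoint and the right translates `S x` covering the group. -/
def HasTile {G : Type*} [Group G] (F : Set G) : Prop :=
  ∃ S : Set G, S.Finite ∧ F ⊆ S ∧ ∃ X : Set G,
    (∀ x₁ ∈ X, ∀ x₂ ∈ X, x₁ ≠ x₂ →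
      Disjoint ((fun s => x₁ * s) '' S) ((fun s => x₂ * s) '' S)) ∧
    (⋃ x ∈ X, (fun s => s * x) '' S) = univ

/-- Property `P` of the problem. -/
def HasP (G : Type*) [Group G] : Prop := ∀ F : Set G, F.Finite → HasTile F

theorem tile_of_sys {G : Type*} [Group G] (F : Set G) (S : Sys G)
    (hF : ∀ f ∈ F, f⁻¹ ∈ S.E) : HasTile F := by
  obtain ⟨j, k, hG⟩ := S.lim
  refine ⟨(fun t => t⁻¹) '' (S.T : Set G), S.T.finite_toSet.image _, ?_, S.XX j k, ?_, ?_⟩
  · intro f hf
    exact ⟨f⁻¹, S.mem_T.2 (Or.inl (hF f hf)), inv_inv f⟩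
  · intro x₁ hx₁ x₂ hx₂ hne
    rw [Set.disjoint_left]
    rintro y ⟨_, ⟨t₁, ht₁, rfl⟩, h1⟩ ⟨_, ⟨t₂, ht₂, rfl⟩, h2⟩
    apply hne
    have h1' : x₁ = y * t₁ := by
      rw [← h1]
      simp
    have h2' : x₂ = y * t₂ := by
      rw [← h2]
      simp
    have h3 := S.exact_row (hG (S.len y + 1)) (z := y) (Nat.lt_succ_self _)
    rw [Finset.card_eq_one] at h3
    obtain ⟨t, ht⟩ := h3
    have h4 : t₁ ∈ S.T.filter (fun t => y * t ∈ S.XX j k) :=
      Finset.mem_filter.2 ⟨ht₁, by rw [← h1']; exact hx₁⟩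
    have h5 : t₂ ∈ S.T.filter (fun t => y * t ∈ S.XX j k) :=
      Finset.mem_filter.2 ⟨ht₂, by rw [← h2']; exact hx₂⟩
    rw [ht, Finset.mem_singleton] at h4 h5
    rw [h1', h2', h4, h5]
  · apply Set.eq_univ_of_forall
    intro y
    have h3 := S.exact_col (hG (S.len y + 1)) (z := y) (Nat.lt_succ_self _)
    rw [Finset.card_eq_one] at h3
    obtain ⟨t, ht⟩ := h3
    have h4 : t ∈ S.T.filter (fun t => t * y ∈ S.XX j k) := by
      rw [ht]
      exact Finset.mem_singleton_self t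
    rw [Finset.mem_filter] at h4
    simp only [mem_iUnion, mem_image]
    exact ⟨t * y, h4.2, t⁻¹, ⟨t, h4.1, rfl⟩, by simp⟩

end Pool.Agent.H79.FP
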