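import Pool.Agent.H79.FP.Clen

/-!
# Module WORD [H79 FP]: the words `(a β)^N d`

`w a β N d = ev (replicate N (a, β)) d = (a β)^N d` with `a ≠ 1`, `β ≠ 1`.

PROOFS. `red_w`: all entries of `replicate` are `(a, β)`. `clen_w`: `clen_ev`. `hd_w`: `N ≥ 1`.
`w_inv`: `(w a β (N+1) d)⁻¹ = ev ((d⁻¹, β⁻¹) :: replicate N (a⁻¹, β⁻¹)) a⁻¹`, by induction on `N`, with
`ev (l ++ [(a', b')]) c = ev l a' * inr b' * inl c` (induction on `l`) and
`replicate N x ++ [x] = replicate (N+1) x` (`List.replicate_succ'`); for `N + 1`: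
`(inl a * inr β * w a β (N+1) d)⁻¹ = (w ...)⁻¹ * (inr β)⁻¹ * (inl a)⁻¹`. `hd_w_inv`: reduced by
`red_cons`, `hd_ev`. `hd_inl_mul`: `inl g * ev (q :: l) c = ev ((g q.1, q.2) :: l) c`, still reduced, so the
first letter is multiplied by `g`. `hd_inl_mul_inv`: from `w_inv` and `hd_inl_mul`. `w_eq`: `inl z * w a β N d
= w a' β N d' * inl h`, `N ≥ 2`: the left side is `ev ((z a, β) :: replicate (N-1) (a, β)) d`, the right
side is `ev (replicate N (a', β)) (d' h)` (`ev l c * inl h = ev l (c h)`); by `ev_inj` the lists agree: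
second entry `a = a'`, first entry `z a = a'`; so `z = 1` and `d = d' h`.
-/

set_option autoImplicit false

open scoped Classical

namespace Pool.Agent.H79.FP

open Monoid

variable {A B : Type*} [Group A] [Group B]

/-- The word `(a β)^N d`. -/
def w (a : A) (β : B) (N : ℕ) (d : A) : Coprod A B := ev (List.replicate N (a, β)) d

theorem red_w {a : A} {β : B} (ha : a ≠ 1) (hβ : β ≠ 1) (N : ℕ) :
    Red1 (List.replicate N (a, β)) := by
  intro q hq
  rw [List.eq_of_mem_replicate hq]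
  exact ⟨ha, hβ⟩

theorem clen_w {a : A} {β : B} (ha : a ≠ 1) (hβ : β ≠ 1) (N : ℕ) (d : A) :
    clen (w a β N d) = 2 * N := by
  unfold w
  rw [clen_ev (red_w ha hβ N).red, List.length_replicate]

theorem hd_w {a : A} {β : B} (ha : a ≠ 1) (hβ : β ≠ 1) {N : ℕ} (hN : N ≠ 0) (d : A) :
    hd (w a β N d) = some a := by
  obtain ⟨M, rfl⟩ := Nat.exists_eq_succ_of_ne_zero hN
  unfold w
  rw [hd_ev (red_w ha hβ _).red, List.replicate_succ]
  rfl

theorem ev_append (l : List (A × B)) (a' : A) (b' : B) (c : A) :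
    ev (l ++ [(a', b')]) c = ev l a' * Coprod.inr b' * Coprod.inl c := by
  induction l with
  | nil => rfl
  | cons q l ih => rw [List.cons_append, ev_cons, ih, ev_cons, mul_assoc, mul_assoc, mul_assoc,
      mul_assoc, mul_assoc]

theorem ev_mul_inl (l : List (A × B)) (c h : A) :
    ev l c * Coprod.inl h = ev l (c * h) := by
  induction l with
  | nil => rw [ev_nil, ev_nil, map_mul]
  | cons q l ih => rw [ev_cons, ev_cons, mul_assoc, ih]

theorem w_inv (a : A) (β : B) (N : ℕ) (d : A) :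
    (w a β (N + 1) d)⁻¹ = ev ((d⁻¹, β⁻¹) :: List.replicate N (a⁻¹, β⁻¹)) a⁻¹ := by
  induction N with
  | zero =>
    unfold w
    rw [List.replicate_succ, List.replicate_zero, List.replicate_zero, ev_cons, ev_nil, ev_cons,
      ev_nil, mul_inv_rev, mul_inv_rev, map_inv, map_inv, map_inv, mul_assoc]
  | succ N ih =>
    have h1 : w a β (N + 1 + 1) d = Coprod.inl a * Coprod.inr β * w a β (N + 1) d := by
      unfold w
      rw [List.replicate_succ, ev_cons]
    rw [h1, mul_inv_rev, ih, mul_inv_rev, ← map_inv, ← map_inv, ← mul_assoc, ← ev_append,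
      List.cons_append, ← List.replicate_succ']

theorem hd_w_inv {a : A} {β : B} (ha : a ≠ 1) (hβ : β ≠ 1) {N : ℕ} (hN : N ≠ 0) (d : A) :
    hd (w a β N d)⁻¹ = some d⁻¹ := by
  obtain ⟨M, rfl⟩ := Nat.exists_eq_succ_of_ne_zero hN
  rw [w_inv, hd_ev (red_cons.2 ⟨inv_ne_one.2 hβ, red_w (inv_ne_one.2 ha) (inv_ne_one.2 hβ) M⟩)]
  rfl

/-- Left multiplication by an element of `A` multiplies the first letter. -/
theorem hd_inl_mul (g : A) (x : Coprod A B) :
    hd (Coprod.inl g * x) = (hd x).map (fun a => g * a) := by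
  obtain ⟨l, c, hl, rfl⟩ := ev_surj x
  cases l with
  | nil =>
    rw [ev_nil, ← map_mul, ← ev_nil, ← ev_nil, hd_ev red_nil, hd_ev red_nil]
    rfl
  | cons q l =>
    have h1 : Coprod.inl g * ev (q :: l) c = ev ((g * q.1, q.2) :: l) c := by
      rw [ev_cons, ev_cons, map_mul]
      simp only [mul_assoc]
    have h2 : Red ((g * q.1, q.2) :: l) := red_cons.2 ⟨(red_cons.1 hl).1, (red_cons.1 hl).2⟩
    rw [h1, hd_ev hl, hd_ev h2]
    rfl

theorem w_eq {a a' : A} {β : B} (ha : a ≠ 1) (ha' : a' ≠ 1) (hβ : β ≠ 1) {N : ℕ} (hN : 2 ≤ N)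
    {d d' z h : A} (he : Coprod.inl z * w a β N d = w a' β N d' * Coprod.inl h) :
    a = a' ∧ z = 1 ∧ d = d' * h := by
  obtain ⟨M, rfl⟩ := Nat.exists_eq_add_of_le' hN
  have h1 : Coprod.inl z * w a β (M + 2) d =
      ev ((z * a, β) :: (a, β) :: List.replicate M (a, β)) d := by
    unfold w
    rw [List.replicate_succ, List.replicate_succ, ev_cons, ev_cons (z * a, β), map_mul]
    simp only [mul_assoc]
  have h2 : w a' β (M + 2) d' * Coprod.inl h =
      ev ((a', β) :: (a', β) :: List.replicate M (a', β)) (d' * h) := by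
    unfold w
    rw [ev_mul_inl, List.replicate_succ, List.replicate_succ]
  have r1 : Red1 ((a, β) :: List.replicate M (a, β)) := red_w ha hβ (M + 1)
  have r2 : Red1 ((a', β) :: List.replicate M (a', β)) := red_w ha' hβ (M + 1)
  rw [h1, h2] at he
  obtain ⟨h3, h4⟩ := ev_inj (red_cons.2 ⟨hβ, r1⟩) (red_cons.2 ⟨hβ, r2⟩) he
  have h5 : (z * a, β) = (a', β) := (List.cons.inj h3).1
  have h6 : (a, β) = (a', β) := (List.cons.inj (List.cons.inj h3).2).1
  have h7 : z * a = a' := (Prod.ext_iff.1 h5).1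
  have h8 : a = a' := (Prod.ext_iff.1 h6).1
  refine ⟨h8, ?_, h4⟩
  rw [← h8] at h7
  exact mul_eq_right.1 h7

end Pool.Agent.H79.FP
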